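import Pool.Agent.Lib.MP_a7fa83_ag.Ok.Stat

/-!
# MP_a7fa83_ag, trivial `M`: box sums are statistics of words

`bs β φ` is the sum of `φ i j` over the boxes of the partition with boundary `β` (`i` the column
index, `j` the row index; the last row step of `β` is the row `j = 0`).  `pp a i` are the
polynomials with generating function `(1 + s/2)^i (1 - s/2)^(-i-1)`.
-/

set_option autoImplicit false

namespace MPa7fa83.Ok

open Finset

section

variable {Λ : Type*} [CommRing Λ] [Algebra ℚ Λ]

/-- number of column steps -/
def nL : List Bool → ℕ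
  | [] => 0
  | s :: β => nL β + if s = false then 1 else 0

/-- box sums -/
def bs : List Bool → (ℕ → ℕ → Λ) → Λ
  | [], _ => 0
  | false :: β, φ => bs β φ
  | true :: β, φ => ∑ i ∈ range (nL β), φ i 0 + bs β (fun i j => φ i (j + 1))

/-- the polynomials `pp a` -/
def pp (Λ : Type*) [CommRing Λ] [Algebra ℚ Λ] : ℕ → ℕ → Λ
  | 0, _ => 1
  | a + 1, 0 => hR Λ * pp Λ a 0
  | a + 1, i + 1 => pp Λ (a + 1) i + hR Λ * (pp Λ a (i + 1) + pp Λ a i)

private lemma pp_ss (a i : ℕ) : pp Λ (a + 1) (i + 1) =
    pp Λ (a + 1) i + hR Λ * (pp Λ a (i + 1) + pp Λ a i) := by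
  rw [pp]

private lemma pp_s0 (a : ℕ) : pp Λ (a + 1) 0 = hR Λ * pp Λ a 0 := by
  rw [pp]

private lemma pp_z (i : ℕ) : pp Λ 0 i = 1 := by
  rw [pp]

lemma bs_add (β : List Bool) (φ ψ : ℕ → ℕ → Λ) :
    bs β (fun i j => φ i j + ψ i j) = bs β φ + bs β ψ := by
  induction β generalizing φ ψ with
  | nil => simp [bs]
  | cons s β ih =>
    cases s with
    | false => exact ih φ ψ
    | true =>
      simp only [bs, Finset.sum_add_distrib]
      rw [ih (fun i j => φ i (j + 1)) (fun i j => ψ i (j + 1))]
      ring

lemma bs_smul (β : List Bool) (a : Λ) (φ : ℕ → ℕ → Λ) :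
    bs β (fun i j => a * φ i j) = a * bs β φ := by
  induction β generalizing φ with
  | nil => simp [bs]
  | cons s β ih =>
    cases s with
    | false => exact ih φ
    | true =>
      simp only [bs, ← Finset.mul_sum]
      rw [ih (fun i j => φ i (j + 1))]
      ring

/-- `pp (a+1) n` is the mean of the partial sums of `pp a` (induction on `n`) -/
lemma pp_sum (a n : ℕ) : pp Λ (a + 1) n =
    hR Λ * (∑ i ∈ range n, pp Λ a i + ∑ i ∈ range (n + 1), pp Λ a i) := by
  induction n with
  | zero => simp [pp]
  | succ n ih =>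
    have h1 : pp Λ (a + 1) (n + 1) =
        pp Λ (a + 1) n + hR Λ * (pp Λ a (n + 1) + pp Λ a n) := pp_ss a n
    rw [h1, ih, Finset.sum_range_succ (fun i => pp Λ a i) (n + 1),
      Finset.sum_range_succ (fun i => pp Λ a i) n]
    ring

/-- `cn (ξ^(a+1)) β = ∑ i < nL β, pp a i` (induction on `β`, using `pp_sum`) -/
lemma cn_xi (a : ℕ) (β : List Bool) :
    cn Λ (List.replicate (a + 1) false) β = ∑ i ∈ range (nL β), pp Λ a i := by
  have key : ∀ (f : List Bool → Λ) (g : ℕ → Λ),
      (∀ β, hR Λ * (f β + f (false :: β)) = g (nL β)) →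
      ∀ β, J false f β = ∑ i ∈ range (nL β), g i := by
    intro f g hfg β
    induction β with
    | nil => simp [J, nL]
    | cons s β ih =>
      cases s with
      | false =>
        simp only [J, nL, if_true]
        rw [ih, hfg, Finset.sum_range_succ]
      | true =>
        simp only [J, nL]
        rw [ih]
        simp
  induction a generalizing β with
  | zero =>
    refine key (cn Λ []) (pp Λ 0) (fun β => ?_) β
    simp only [cn, pp, Pi.one_apply]
    rw [mul_add, mul_one, hR_add]
  | succ a ih =>
    refine key (cn Λ (List.replicate (a + 1) false)) (pp Λ (a + 1)) (fun β => ?_) β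
    rw [ih, ih, pp_sum]
    simp [nL]

/-- Induction on `β` and `b`: a step `L` changes nothing; at a step `U` use
`pp b (j+1) = pp b j + h (pp (b-1) (j+1) + pp (b-1) j)` and `pp b 0 = h pp (b-1) 0`. -/
lemma cn_box (a b : ℕ) (β : List Bool) :
    cn Λ (List.replicate (b + 1) true ++ List.replicate (a + 1) false) β =
      bs β (fun i j => pp Λ a i * pp Λ b j) := by
  induction b generalizing β with
  | zero =>
    have h0 : cn Λ (List.replicate (0 + 1) true ++ List.replicate (a + 1) false) =
        J true (cn Λ (List.replicate (a + 1) false)) := rfl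
    rw [h0]
    induction β with
    | nil => rfl
    | cons s β ih =>
      cases s with
      | false =>
        simp only [J, bs]
        rw [ih]
        simp
      | true =>
        simp only [J, bs, if_true]
        rw [ih, cn_xi, cn_xi]
        have h1 : nL (true :: β) = nL β := by simp [nL]
        rw [h1]
        simp only [pp, mul_one]
        have h2 := hR_add (R := Λ)
        linear_combination (∑ i ∈ range (nL β), pp Λ a i) * h2
  | succ b ihb =>
    have h0 : cn Λ (List.replicate (b + 1 + 1) true ++ List.replicate (a + 1) false) =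
        J true (cn Λ (List.replicate (b + 1) true ++ List.replicate (a + 1) false)) := rfl
    rw [h0]
    induction β with
    | nil => rfl
    | cons s β ih =>
      cases s with
      | false =>
        simp only [J, bs]
        rw [ih]
        simp
      | true =>
        have h1 : J true (cn Λ (List.replicate (b + 1) true ++ List.replicate (a + 1) false))
            (true :: β) =
            J true (cn Λ (List.replicate (b + 1) true ++ List.replicate (a + 1) false)) β +
              hR Λ * (cn Λ (List.replicate (b + 1) true ++ List.replicate (a + 1) false) β +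
              cn Λ (List.replicate (b + 1) true ++ List.replicate (a + 1) false) (true :: β)) := by
          simp only [J, if_true]
        rw [h1, ih, ihb, ihb]
        have h2 : bs (true :: β) (fun i j => pp Λ a i * pp Λ b j) =
            ∑ i ∈ range (nL β), pp Λ a i * pp Λ b 0 +
              bs β (fun i j => pp Λ a i * pp Λ b (j + 1)) := rfl
        have h3 : bs (true :: β) (fun i j => pp Λ a i * pp Λ (b + 1) j) =
            ∑ i ∈ range (nL β), pp Λ a i * (hR Λ * pp Λ b 0) +
              bs β (fun i j => pp Λ a i * (pp Λ (b + 1) j +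
                hR Λ * (pp Λ b (j + 1) + pp Λ b j))) := by
          simp only [bs, pp_ss, pp_s0]
        have h4 : (fun i j : ℕ => pp Λ a i * (pp Λ (b + 1) j +
            hR Λ * (pp Λ b (j + 1) + pp Λ b j))) = fun i j : ℕ =>
            pp Λ a i * pp Λ (b + 1) j + hR Λ * (pp Λ a i * pp Λ b (j + 1) +
              pp Λ a i * pp Λ b j) := by
          funext i j
          ring
        rw [h3, h2, h4, bs_add β (fun i j => pp Λ a i * pp Λ (b + 1) j)
          (fun i j => hR Λ * (pp Λ a i * pp Λ b (j + 1) + pp Λ a i * pp Λ b j)),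
          bs_smul β (hR Λ) (fun i j => pp Λ a i * pp Λ b (j + 1) + pp Λ a i * pp Λ b j),
          bs_add β (fun i j => pp Λ a i * pp Λ b (j + 1)) (fun i j => pp Λ a i * pp Λ b j)]
        have h5 : ∑ i ∈ range (nL β), pp Λ a i * (hR Λ * pp Λ b 0) =
            hR Λ * ∑ i ∈ range (nL β), pp Λ a i * pp Λ b 0 := by
          rw [Finset.mul_sum]
          exact Finset.sum_congr rfl fun i _ => by ring
        rw [h5]
        ring

/-- three term relation.  Put `D a i = (i + h) pp a i - ((a+1) pp (a+1) i - a h² pp (a-1) i)`.
Then `D 0 i = 0` (`pp 1 i = i + h`), `D (a+1) 0 = 0` (`pp a 0 = h^a`) and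
`D (a+1) (i+1) = h D a (i+1) + D (a+1) i + h D a i`. -/
lemma pp_three (a i : ℕ) : ((i : Λ) + hR Λ) * pp Λ a i =
    ((a : Λ) + 1) * pp Λ (a + 1) i - (a : Λ) * (hR Λ) ^ 2 * pp Λ (a - 1) i := by
  have hh := hR_add (R := Λ)
  induction a generalizing i with
  | zero =>
    have h1 : ∀ i : ℕ, pp Λ (0 + 1) i = (i : Λ) + hR Λ := by
      intro i
      induction i with
      | zero => simp [pp]
      | succ i ih =>
        have h2 : pp Λ (0 + 1) (i + 1) = pp Λ (0 + 1) i + hR Λ * (1 + 1) := by
          rw [pp_ss, pp_z, pp_z]
        rw [h2, ih]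
        push_cast
        linear_combination hh
    rw [h1]
    simp only [pp, Nat.cast_zero]
    ring
  | succ a iha =>
    induction i with
    | zero =>
      have h1 : pp Λ (a + 1 + 1) 0 = hR Λ * (hR Λ * pp Λ a 0) := by
        rw [pp_s0, pp_s0]
      have h2 : pp Λ (a + 1) 0 = hR Λ * pp Λ a 0 := pp_s0 a
      rw [h1, h2, Nat.add_sub_cancel]
      push_cast
      ring
    | succ i ih =>
      have e1 := iha (i + 1)
      have e2 := iha i
      have r1 : pp Λ (a + 1 + 1) (i + 1) =
          pp Λ (a + 1 + 1) i + hR Λ * (pp Λ (a + 1) (i + 1) + pp Λ (a + 1) i) := pp_ss _ _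
      have r2 : pp Λ (a + 1) (i + 1) =
          pp Λ (a + 1) i + hR Λ * (pp Λ a (i + 1) + pp Λ a i) := pp_ss _ _
      rw [Nat.add_sub_cancel] at ih ⊢
      rcases a with _ | a
      · rw [pp_z, Nat.cast_zero] at e1 e2
        rw [pp_z, pp_z] at r2
        rw [pp_z] at ih ⊢
        rw [r1, r2]
        rw [r2] at e1
        push_cast at *
        linear_combination hR Λ * e1 + ih + hR Λ * e2 - (pp Λ (0 + 1) i + hR Λ) * hh
      · have r3 : pp Λ (a + 1) (i + 1) =
            pp Λ (a + 1) i + hR Λ * (pp Λ a (i + 1) + pp Λ a i) := pp_ss _ _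
        rw [Nat.add_sub_cancel] at e1 e2
        rw [r2, r3] at e1
        rw [r1, r2, r3]
        push_cast at *
        linear_combination hR Λ * e1 + ih + hR Λ * e2 -
          (pp Λ (a + 1 + 1) i + hR Λ * pp Λ (a + 1) i) * hh

/-- powers of `i + 1/2` in terms of the `pp` (induction on `a` with `pp_three`) -/
lemma pow_mem (a : ℕ) : (fun i : ℕ => ((i : Λ) + hR Λ) ^ a) ∈
    Submodule.span Λ {f : ℕ → Λ | ∃ a', (∃ k, a' + 2 * k = a) ∧ f = pp Λ a'} := by
  induction a with
  | zero =>
    refine Submodule.subset_span ⟨0, ⟨0, rfl⟩, ?_⟩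
    funext i
    simp [pp]
  | succ a ih =>
    have key : ∀ f : ℕ → Λ, f ∈ Submodule.span Λ
        {f : ℕ → Λ | ∃ a', (∃ k, a' + 2 * k = a) ∧ f = pp Λ a'} →
        (fun i : ℕ => ((i : Λ) + hR Λ) * f i) ∈ Submodule.span Λ
          {f : ℕ → Λ | ∃ a', (∃ k, a' + 2 * k = a + 1) ∧ f = pp Λ a'} := by
      intro f hf
      induction hf using Submodule.span_induction with
      | mem f hf =>
        obtain ⟨a', ⟨k, hk⟩, rfl⟩ := hf
        have h1 : (fun i : ℕ => ((i : Λ) + hR Λ) * pp Λ a' i) =
            ((a' : Λ) + 1) • pp Λ (a' + 1) + (-((a' : Λ) * (hR Λ) ^ 2)) • pp Λ (a' - 1) := by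
          funext i
          rw [pp_three]
          simp only [Pi.add_apply, Pi.smul_apply, smul_eq_mul]
          ring
        rw [h1]
        refine Submodule.add_mem _ (Submodule.smul_mem _ _
          (Submodule.subset_span ⟨a' + 1, ⟨k, by omega⟩, rfl⟩)) ?_
        rcases a' with _ | a'
        · simp
        · exact Submodule.smul_mem _ _
            (Submodule.subset_span ⟨a', ⟨k + 1, by omega⟩, by simp⟩)
      | zero =>
        have h1 : (fun i : ℕ => ((i : Λ) + hR Λ) * (0 : ℕ → Λ) i) = 0 := by
          funext i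
          simp
        rw [h1]
        exact Submodule.zero_mem _
      | add f g _ _ hf hg =>
        have h1 : (fun i : ℕ => ((i : Λ) + hR Λ) * (f + g) i) =
            (fun i : ℕ => ((i : Λ) + hR Λ) * f i) + fun i : ℕ => ((i : Λ) + hR Λ) * g i := by
          funext i
          simp only [Pi.add_apply]
          ring
        rw [h1]
        exact Submodule.add_mem _ hf hg
      | smul c f _ hf =>
        have h1 : (fun i : ℕ => ((i : Λ) + hR Λ) * (c • f) i) =
            c • fun i : ℕ => ((i : Λ) + hR Λ) * f i := by
          funext i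
          simp only [Pi.smul_apply, smul_eq_mul]
          ring
        rw [h1]
        exact Submodule.smul_mem _ _ hf
    have h2 : (fun i : ℕ => ((i : Λ) + hR Λ) ^ (a + 1)) =
        fun i : ℕ => ((i : Λ) + hR Λ) * (fun i : ℕ => ((i : Λ) + hR Λ) ^ a) i := by
      funext i
      simp only
      rw [pow_succ']
    rw [h2]
    exact key _ ih

/-- box sums of `(i+1/2)^a (j+1/2)^b` are combinations of statistics of admissible words of
length `a+b+2, a+b, ...` -/
theorem bs_mem (a b : ℕ) :
    (fun β : List Bool => bs β (fun i j => ((i : Λ) + hR Λ) ^ a * ((j : Λ) + hR Λ) ^ b)) ∈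
      An Λ (a + b + 2) := by
  have key1 : ∀ (f : ℕ → Λ) (b' : ℕ), (∃ k, b' + 2 * k = b) → f ∈ Submodule.span Λ
      {f : ℕ → Λ | ∃ a', (∃ k, a' + 2 * k = a) ∧ f = pp Λ a'} →
      (fun β : List Bool => bs β (fun i j => f i * pp Λ b' j)) ∈ An Λ (a + b + 2) := by
    rintro f b' ⟨l, hl⟩ hf
    induction hf using Submodule.span_induction with
    | mem f hf =>
      obtain ⟨a', ⟨k, hk⟩, rfl⟩ := hf
      refine Submodule.subset_span
        ⟨List.replicate (b' + 1) true ++ List.replicate (a' + 1) false, ⟨?_, ?_⟩,
          ⟨k + l, ?_⟩, ?_⟩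
      · rw [List.replicate_succ]
        rfl
      · rw [List.replicate_succ' (n := a'), ← List.append_assoc, List.getLast?_concat]
      · rw [List.length_append, List.length_replicate, List.length_replicate]
        omega
      · funext β
        rw [cn_box]
    | zero =>
      have h1 : (fun β : List Bool => bs β (fun i j => (0 : ℕ → Λ) i * pp Λ b' j)) = 0 := by
        funext β
        have := bs_smul β (0 : Λ) (fun _ j => pp Λ b' j)
        rw [zero_mul] at this
        exact this
      rw [h1]
      exact Submodule.zero_mem _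
    | add f g _ _ hf hg =>
      have h1 : (fun β : List Bool => bs β (fun i j => (f + g) i * pp Λ b' j)) =
          (fun β : List Bool => bs β (fun i j => f i * pp Λ b' j)) +
            fun β : List Bool => bs β (fun i j => g i * pp Λ b' j) := by
        funext β
        rw [Pi.add_apply, ← bs_add]
        congr 1
        funext i j
        rw [Pi.add_apply, add_mul]
      rw [h1]
      exact Submodule.add_mem _ hf hg
    | smul c f _ hf =>
      have h1 : (fun β : List Bool => bs β (fun i j => (c • f) i * pp Λ b' j)) =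
          c • fun β : List Bool => bs β (fun i j => f i * pp Λ b' j) := by
        funext β
        rw [Pi.smul_apply, smul_eq_mul, ← bs_smul]
        congr 1
        funext i j
        rw [Pi.smul_apply, smul_eq_mul, mul_assoc]
      rw [h1]
      exact Submodule.smul_mem _ _ hf
  have key2 : ∀ g : ℕ → Λ, g ∈ Submodule.span Λ
      {f : ℕ → Λ | ∃ a', (∃ k, a' + 2 * k = b) ∧ f = pp Λ a'} →
      (fun β : List Bool => bs β (fun i j => ((i : Λ) + hR Λ) ^ a * g j)) ∈
        An Λ (a + b + 2) := by
    intro g hg
    induction hg using Submodule.span_induction with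
    | mem g hg =>
      obtain ⟨b', hk, rfl⟩ := hg
      exact key1 (fun i : ℕ => ((i : Λ) + hR Λ) ^ a) b' hk (pow_mem a)
    | zero =>
      have h1 : (fun β : List Bool => bs β (fun i j => ((i : Λ) + hR Λ) ^ a * (0 : ℕ → Λ) j)) =
          0 := by
        funext β
        have := bs_smul β (0 : Λ) (fun _ _ => (0 : Λ))
        rw [zero_mul] at this
        simpa using this
      rw [h1]
      exact Submodule.zero_mem _
    | add f g _ _ hf hg =>
      have h1 : (fun β : List Bool => bs β (fun i j => ((i : Λ) + hR Λ) ^ a * (f + g) j)) =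
          (fun β : List Bool => bs β (fun i j => ((i : Λ) + hR Λ) ^ a * f j)) +
            fun β : List Bool => bs β (fun i j => ((i : Λ) + hR Λ) ^ a * g j) := by
        funext β
        rw [Pi.add_apply, ← bs_add]
        congr 1
        funext i j
        rw [Pi.add_apply, mul_add]
      rw [h1]
      exact Submodule.add_mem _ hf hg
    | smul c f _ hf =>
      have h1 : (fun β : List Bool => bs β (fun i j => ((i : Λ) + hR Λ) ^ a * (c • f) j)) =
          c • fun β : List Bool => bs β (fun i j => ((i : Λ) + hR Λ) ^ a * f j) := by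
        funext β
        rw [Pi.smul_apply, smul_eq_mul, ← bs_smul]
        congr 1
        funext i j
        rw [Pi.smul_apply, smul_eq_mul]
        ring
      rw [h1]
      exact Submodule.smul_mem _ _ hf
  exact key2 _ (pow_mem b)

end

end MPa7fa83.Ok
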