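import Pool.Agent.Lib.MP_a7fa83_ag.Ok.Exp

/-!
# MP_a7fa83_ag, trivial `M`: the Chern character components

The box sums of `(l - i t₁ - j t₂)^k` as statistics of words.
-/

set_option autoImplicit false

namespace MPa7fa83.Ok

open Finset

section

variable {Λ : Type*} [CommRing Λ] [Algebra ℚ Λ]

/-- binomial expansion around the half integers -/
lemma pow_expand (l t₁ t₂ : Λ) (k i j : ℕ) :
    (l - i * t₁ - j * t₂) ^ k = ∑ k' ∈ range (k + 1), ∑ m ∈ range (k' + 1),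
      ((l + hR Λ * (t₁ + t₂)) ^ (k - k') * (k.choose k' : Λ) * (-1) ^ k' *
        (k'.choose m : Λ) * t₁ ^ m * t₂ ^ (k' - m)) *
        (((i : Λ) + hR Λ) ^ m * ((j : Λ) + hR Λ) ^ (k' - m)) := by
  have e : l - i * t₁ - j * t₂ =
      -(((i : Λ) + hR Λ) * t₁ + ((j : Λ) + hR Λ) * t₂) + (l + hR Λ * (t₁ + t₂)) := by
    ring
  rw [e, add_pow]
  apply Finset.sum_congr rfl
  intro k' _
  rw [neg_pow, add_pow, Finset.mul_sum, Finset.sum_mul, Finset.sum_mul]
  apply Finset.sum_congr rfl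
  intro m _
  rw [mul_pow, mul_pow]
  ring

lemma bs_sum {κ : Type*} (s : Finset κ) (β : List Bool) (φ : κ → ℕ → ℕ → Λ) :
    bs β (fun i j => ∑ a ∈ s, φ a i j) = ∑ a ∈ s, bs β (φ a) := by
  classical
  induction s using Finset.induction_on with
  | empty =>
    simp only [Finset.sum_empty]
    have := bs_smul β (0 : Λ) (fun _ _ => (0 : Λ))
    simpa using this
  | insert a s ha ih =>
    simp only [Finset.sum_insert ha]
    rw [bs_add, ih]

/-- the part of weight `k' + 2` of the statistic of `ch_k` -/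
def chp (l t₁ t₂ : Λ) (k k' : ℕ) (β : List Bool) : Λ :=
  ∑ m ∈ range (k' + 1), (algebraMap ℚ Λ ((k.factorial : ℚ)⁻¹) *
    ((l + hR Λ * (t₁ + t₂)) ^ (k - k') * (k.choose k' : Λ) * (-1) ^ k' *
        (k'.choose m : Λ) * t₁ ^ m * t₂ ^ (k' - m))) *
    bs β (fun i j => ((i : Λ) + hR Λ) ^ m * ((j : Λ) + hR Λ) ^ (k' - m))

lemma chp_mem (l t₁ t₂ : Λ) (k k' : ℕ) : chp l t₁ t₂ k k' ∈ Bn Λ (k' + 2) := by
  have e : chp l t₁ t₂ k k' = ∑ m ∈ range (k' + 1),
      (algebraMap ℚ Λ ((k.factorial : ℚ)⁻¹) *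
      ((l + hR Λ * (t₁ + t₂)) ^ (k - k') * (k.choose k' : Λ) * (-1) ^ k' *
        (k'.choose m : Λ) * t₁ ^ m * t₂ ^ (k' - m))) •
      (fun β : List Bool =>
        bs β (fun i j => ((i : Λ) + hR Λ) ^ m * ((j : Λ) + hR Λ) ^ (k' - m))) := by
    funext β
    rw [Finset.sum_apply]
    rfl
  rw [e]
  apply Submodule.sum_mem
  intro m hm
  apply Submodule.smul_mem
  have h := bs_mem (Λ := Λ) m (k' - m)
  have hm' := Finset.mem_range.1 hm
  rw [show m + (k' - m) + 2 = k' + 2 by omega] at h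
  exact An_le_Bn h

/-- the statistic of `ch_k` -/
def chb (l t₁ t₂ : Λ) (k : ℕ) (β : List Bool) : Λ :=
  bs β (fun i j => (k.factorial : ℚ)⁻¹ • (l - i * t₁ - j * t₂) ^ k)

lemma chb_eq (l t₁ t₂ : Λ) (k : ℕ) (β : List Bool) :
    chb l t₁ t₂ k β = ∑ k' ∈ range (k + 1), chp l t₁ t₂ k k' β := by
  unfold chb chp
  have e : (fun i j : ℕ => (k.factorial : ℚ)⁻¹ • (l - i * t₁ - j * t₂) ^ k) =
      fun i j : ℕ => ∑ k' ∈ range (k + 1), ∑ m ∈ range (k' + 1),
        (algebraMap ℚ Λ ((k.factorial : ℚ)⁻¹) *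
      ((l + hR Λ * (t₁ + t₂)) ^ (k - k') * (k.choose k' : Λ) * (-1) ^ k' *
        (k'.choose m : Λ) * t₁ ^ m * t₂ ^ (k' - m))) *
        (((i : Λ) + hR Λ) ^ m * ((j : Λ) + hR Λ) ^ (k' - m)) := by
    funext i j
    rw [Algebra.smul_def, pow_expand, Finset.mul_sum]
    apply Finset.sum_congr rfl
    intro k' _
    rw [Finset.mul_sum]
    apply Finset.sum_congr rfl
    intro m _
    ring
  rw [e, bs_sum]
  apply Finset.sum_congr rfl
  intro k' _
  rw [bs_sum]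
  apply Finset.sum_congr rfl
  intro m _
  rw [bs_smul]

/-- for `L = K^{1/2}` only the top part is nonzero -/
lemma chp_eq_zero {l t₁ t₂ : Λ} (h : 2 * l = -(t₁ + t₂)) {k k' : ℕ} (hk : k' < k)
    (β : List Bool) : chp l t₁ t₂ k k' β = 0 := by
  have e : l + hR Λ * (t₁ + t₂) = 0 := by
    linear_combination (hR Λ) * h - l * (two_hR (R := Λ))
  unfold chp
  apply Finset.sum_eq_zero
  intro m _
  rw [e, zero_pow (by omega)]
  ring

end

end MPa7fa83.Ok
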