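import Mathlib

/-!
# MP_a7fa83_ag, trivial `M`: definitions

WORDS are lists of `Bool`, the HEAD of the list is the LAST letter; `false` is the letter `ξ`
(column steps), `true` the letter `η` (row steps).  A noncommutative power series in `ξ, η` is
given by its coefficients `List Bool → R`.

Let `x : ℕ → R` satisfy the addition law `Law x` (example: `x n = 1/(1-q^n) - 1/2`, and also its
negative).  The level `N` series is
`Φ_N = ∏_{i < N} (1 + ξ/2) (1 - x(N-i) ξ)⁻¹ (1 - η/2) (1 - x(i+1) η)⁻¹`,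
`cN x N w` is its coefficient, `cD x N w` the coefficient of the dual product
`∏_{i < N} (1 - ξ/2) (1 - x(N-i) ξ)⁻¹ (1 + η/2) (1 - x(i+1) η)⁻¹`.

Main theorem (file `Core`): for an admissible word `w` (first letter `ξ`, last letter `η`) the
sequence `N ↦ cN x N w` is a `ℚ`-combination of the nested sums `zt x l (N+1)` of weight
`≤ w.length`.  Duality (file `Dual`): `cD x N w = cN x N w`.
-/

set_option autoImplicit false

namespace MPa7fa83.Ok

open Finset

section

variable {R : Type*} [CommRing R] [Algebra ℚ R]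

/-- one half -/
def hR (R : Type*) [CommRing R] [Algebra ℚ R] : R := algebraMap ℚ R (1 / 2)

lemma two_hR : (2 : R) * hR R = 1 := by
  unfold hR
  rw [← map_ofNat (algebraMap ℚ R) 2, ← map_mul]
  norm_num

lemma hR_add : hR R + hR R = 1 := by
  rw [← two_mul, two_hR]

lemma map_hR {R' : Type*} [CommRing R'] [Algebra ℚ R'] (φ : R →ₐ[ℚ] R') : φ (hR R) = hR R' := by
  unfold hR
  exact φ.commutes _

/-- right multiplication of the series `f` by `(1 + α c) (1 - u c)⁻¹`, `c` a letter -/
def rm (c : Bool) (α u : R) (f : List Bool → R) : List Bool → R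
  | [] => f []
  | c' :: w => f (c' :: w) + if c' = c then α * f w + u * rm c α u f w else 0

/-- the coefficients of `∏_{i < k} (1 + α ξ) (1 - u_i ξ)⁻¹ (1 + β η) (1 - t_i η)⁻¹` -/
def cf (α β : R) (u t : ℕ → R) : ℕ → List Bool → R
  | 0 => fun w => if w = [] then 1 else 0
  | k + 1 => rm true β (t k) (rm false α (u k) (cf α β u t k))

/-- the addition law -/
def Law (x : ℕ → R) : Prop :=
  ∀ a b, 1 ≤ a → 1 ≤ b → x a * x b + hR R ^ 2 = x (a + b) * (x a + x b)

/-- coefficient of the word `w` at level `N` -/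
def cN (x : ℕ → R) (N : ℕ) (w : List Bool) : R :=
  cf (hR R) (-hR R) (fun i => x (N - i)) (fun i => x (i + 1)) N w

/-- coefficient of the word `w` in the dual product of level `N` -/
def cD (x : ℕ → R) (N : ℕ) (w : List Bool) : R :=
  cf (-hR R) (hR R) (fun i => x (N - i)) (fun i => x (i + 1)) N w

/-- admissible words: the last letter (head of the list) is `η`, the first letter is `ξ` -/
def Adm (w : List Bool) : Prop := w.head? = some true ∧ w.getLast? = some false

/-- nested sums over `B > n_1 > n_2 > ... ≥ 1` of the letters `(x^2 - 1/4) x^j` -/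
def zt (x : ℕ → R) : List ℕ → ℕ → R
  | [], _ => 1
  | j :: l, B => ∑ n ∈ Finset.Ico 1 B, (x n ^ 2 - hR R ^ 2) * x n ^ j * zt x l n

/-- weight of a word of letters -/
def wtl (l : List ℕ) : ℕ := (l.map (fun j => j + 2)).sum

/-- span of the nested sums of weight `≤ k` -/
def SS (x : ℕ → R) (k : ℕ) : Submodule ℚ (ℕ → R) :=
  Submodule.span ℚ {F | ∃ l : List ℕ, wtl l ≤ k ∧ F = fun N => zt x l (N + 1)}

/-- `g_N = x_(N+1) - 1/2` -/
def gN (x : ℕ → R) (N : ℕ) : R := x (N + 1) - hR R

/-- span of the products `g_N ^ j * (nested sum)` of total weight `≤ k` -/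
def TT (x : ℕ → R) (k : ℕ) : Submodule ℚ (ℕ → R) :=
  Submodule.span ℚ {F | ∃ (l : List ℕ) (j : ℕ), wtl l + j ≤ k ∧
    F = fun N => gN x N ^ j * zt x l (N + 1)}

/-- sums over `i_1 ≤ i_2 ≤ ... ≤ i_r < k` of products of site weights `s c i` (the head of the
list is the last letter): the coefficients of `∏_{i < k} (1 - s false i a - s true i b)⁻¹` -/
def dco (s : Bool → ℕ → R) : List Bool → ℕ → R
  | [], _ => 1
  | c :: w, k => ∑ i ∈ Finset.range k, s c i * dco s w (i + 1)

/-- the site weights of level `N` -/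
def sN (x : ℕ → R) (N : ℕ) : Bool → ℕ → R
  | false, i => x (N - i) + hR R
  | true, i => x (i + 1) - hR R

/-- the weak sums of level `N` -/
def dN (x : ℕ → R) (N : ℕ) (w : List Bool) : R := dco (sN x N) w N

end

/-- sum over the words of length `n` -/
def sw {M : Type*} [AddCommMonoid M] : ℕ → (List Bool → M) → M
  | 0, f => f []
  | n + 1, f => sw n (fun w => f (false :: w)) + sw n (fun w => f (true :: w))

/-- the word `ℓ 0, ℓ 1, ..., ℓ (n-1)` (as a list: last letter first) -/
def pre (ℓ : ℕ → Bool) : ℕ → List Bool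
  | 0 => []
  | n + 1 => ℓ n :: pre ℓ n

@[simp] lemma length_pre (ℓ : ℕ → Bool) (n : ℕ) : (pre ℓ n).length = n := by
  induction n with
  | zero => rfl
  | succ n ih => simp [pre, ih]

lemma pre_congr {ℓ ℓ' : ℕ → Bool} {n : ℕ} (h : ∀ i < n, ℓ i = ℓ' i) : pre ℓ n = pre ℓ' n := by
  induction n with
  | zero => rfl
  | succ n ih =>
    simp only [pre]
    rw [h n (Nat.lt_succ_self n), ih (fun i hi => h i (Nat.lt_succ_of_lt hi))]

lemma exists_pre (w : List Bool) : ∃ ℓ : ℕ → Bool, w = pre ℓ w.length := by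
  induction w with
  | nil => exact ⟨fun _ => false, rfl⟩
  | cons c w ih =>
    obtain ⟨ℓ, hℓ⟩ := ih
    refine ⟨fun i => if i < w.length then ℓ i else c, ?_⟩
    simp only [List.length_cons, pre]
    rw [if_neg (lt_irrefl _), pre_congr (ℓ' := ℓ) (fun i hi => if_pos hi), ← hℓ]

lemma pre_getLast (ℓ : ℕ → Bool) (n : ℕ) : (pre ℓ (n + 1)).getLast? = some (ℓ 0) := by
  induction n with
  | zero => rfl
  | succ n ih =>
    rw [pre, pre, List.getLast?_cons_cons, ← pre]
    exact ih

lemma adm_pre {ℓ : ℕ → Bool} {r : ℕ} (h : Adm (pre ℓ r)) :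
    ∃ n, r = n + 2 ∧ ℓ (n + 1) = true ∧ ℓ 0 = false := by
  obtain ⟨h1, h2⟩ := h
  rcases r with _ | _ | n
  · simp [pre] at h1
  · simp only [pre, List.head?_cons, List.getLast?_singleton, Option.some.injEq] at h1 h2
    rw [h1] at h2
    exact absurd h2 (by decide)
  · rw [pre_getLast] at h2
    simp only [pre, List.head?_cons, Option.some.injEq] at h1 h2
    exact ⟨n, rfl, h1, h2⟩

end MPa7fa83.Ok
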