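import Pool.Agent.Lib.MP_a7fa83_ag.Ok.Par
import Pool.Agent.Lib.MP_a7fa83_ag.Convert

/-!
# MP_a7fa83_ag, trivial `M`: expectations

The sum over all partitions of a word statistic is the partition generating function times an
element of the span of q-zeta values; then the same for products over several fixed points.
`ok a n` says which weights `a` are allowed for the bound `n`; it is `a ≤ n` or
`∃ k, a + 2 * k = n`.
-/

set_option autoImplicit false
set_option linter.unusedSectionVars false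

namespace MPa7fa83.Ok

open Finset PowerSeries

/-- the sum over all partitions of the statistic of a word -/
noncomputable def ES (w : List Bool) : ℚ⟦X⟧ :=
  PowerSeries.mk fun n => ∑ p : n.Partition, cn ℚ w (bd p.parts n)

lemma coeff_AS_nil {i n : ℕ} (h : i ≤ n) : coeff i (AS n []) = coeff i (ES []) := by
  unfold AS ES
  rw [coeff_mk, coeff_mk, Am, Finset.filter_true_of_mem]
  · apply Finset.sum_congr rfl
    intro p _
    rfl
  · intro p _ j hj
    exact (p.le_of_mem_parts hj).trans h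

theorem ES_eq {w : List Bool} (hw : Adm w) :
    ES w = ES [] * lim (fun B => cN xs (B - 1) w) := by
  ext n
  have h1 : coeff n (ES w) = coeff n (AS n w) := by
    unfold ES AS
    rw [coeff_mk, coeff_mk, Am_self]
  rw [h1, AS_eq, coeff_mul, coeff_mul]
  apply Finset.sum_congr rfl
  intro p hp
  have hp' : p.1 + p.2 = n := Finset.HasAntidiagonal.mem_antidiagonal.1 hp
  rw [coeff_AS_nil (by omega), lim_apply, Nat.add_sub_cancel]
  congr 1
  have h2 := (PowerSeries.X_pow_dvd_iff.1 (cN_sub_dvd n w hw.1)) p.2 (by omega)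
  rw [map_sub, sub_eq_zero] at h2
  rw [← h2]
  have h3 := Cau_W (cN_mem_W hw) (p.2 + 1) (n + 1) (by omega)
  have h4 := (PowerSeries.X_pow_dvd_iff.1 h3) p.2 (Nat.lt_succ_self _)
  rw [map_sub, sub_eq_zero] at h4
  simpa using h4

/-! ### allowed weights -/

/-- the properties of the relation `ok` that are used -/
structure OkRel (ok : ℕ → ℕ → Prop) : Prop where
  zero : ok 0 0
  add : ∀ {a b n m : ℕ}, ok a n → ok b m → ok (a + b) (n + m)
  down : ∀ {a k n : ℕ}, ok (a + 2 * k) n → ok a n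

lemma okRel_le : OkRel (fun a n => a ≤ n) where
  zero := le_rfl
  add := fun h h' => Nat.add_le_add h h'
  down := fun h => by omega

lemma okRel_par : OkRel (fun a n => ∃ k, a + 2 * k = n) where
  zero := ⟨0, rfl⟩
  add := fun ⟨k, hk⟩ ⟨k', hk'⟩ => ⟨k + k', by omega⟩
  down := by
    rintro a k n ⟨k', hk⟩
    exact ⟨k + k', by omega⟩

section

variable {Λ : Type*} [CommRing Λ] [Algebra ℚ Λ] {ok : ℕ → ℕ → Prop}

/-- the span of the `Z(s)` whose weight is allowed for `n` -/
noncomputable def qM (Λ : Type*) [CommRing Λ] [Algebra ℚ Λ] (ok : ℕ → ℕ → Prop) (n : ℕ) :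
    Submodule Λ Λ⟦X⟧ :=
  Submodule.span Λ {f | ∃ l : List ℕ, (∀ s ∈ l, 2 ≤ s) ∧ ok l.sum n ∧
    f = PowerSeries.map (algebraMap ℚ Λ) (Z l)}

lemma QP_map_mem (hok : OkRel ok) {m n : ℕ} (h : ok m n) {g : ℚ⟦X⟧} (hg : g ∈ QP m) :
    PowerSeries.map (algebraMap ℚ Λ) g ∈ qM Λ ok n := by
  unfold QP at hg
  induction hg using Submodule.span_induction with
  | mem x hx =>
    obtain ⟨l, hl, ⟨k, hk⟩, rfl⟩ := hx
    exact Submodule.subset_span ⟨l, hl, hok.down (k := k) (by rwa [hk]), rfl⟩
  | zero => rw [map_zero]; exact zero_mem _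
  | add x y _ _ hx hy => rw [map_add]; exact add_mem hx hy
  | smul c x _ hx =>
    rw [PowerSeries.smul_eq_C_mul, map_mul, PowerSeries.map_C, ← PowerSeries.smul_eq_C_mul]
    exact Submodule.smul_mem _ _ hx

lemma qM_mul (hok : OkRel ok) {a b : ℕ} {f g : Λ⟦X⟧} (hf : f ∈ qM Λ ok a) (hg : g ∈ qM Λ ok b) :
    f * g ∈ qM Λ ok (a + b) := by
  unfold qM at hf
  induction hf using Submodule.span_induction with
  | mem x hx =>
    obtain ⟨l, hl, h1, rfl⟩ := hx
    unfold qM at hg
    induction hg using Submodule.span_induction with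
    | mem y hy =>
      obtain ⟨l', hl', h2, rfl⟩ := hy
      rw [← map_mul]
      exact QP_map_mem hok (hok.add h1 h2) (Z_mul l l' hl hl')
    | zero => rw [mul_zero]; exact zero_mem _
    | add x y _ _ hx hy => rw [mul_add]; exact add_mem hx hy
    | smul c x _ hx => rw [mul_smul_comm]; exact Submodule.smul_mem _ _ hx
  | zero => rw [zero_mul]; exact zero_mem _
  | add x y _ _ hx hy => rw [add_mul]; exact add_mem hx hy
  | smul c x _ hx => rw [smul_mul_assoc]; exact Submodule.smul_mem _ _ hx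

lemma Z_nil : Z [] = 1 := by
  ext m
  unfold Z
  rw [coeff_mk]
  rfl

lemma one_mem_qM {n : ℕ} (h : ok 0 n) : (1 : Λ⟦X⟧) ∈ qM Λ ok n := by
  refine Submodule.subset_span ⟨[], by simp, by simpa using h, ?_⟩
  rw [Z_nil, map_one]

/-! ### one fixed point -/

/-- the sum over all partitions of a function of the boundary -/
noncomputable def EL (f : List Bool → Λ) : Λ⟦X⟧ :=
  PowerSeries.mk fun n => ∑ p : n.Partition, f (bd p.parts n)

lemma EL_add (f g : List Bool → Λ) : EL (f + g) = EL f + EL g := by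
  ext n
  simp only [EL, coeff_mk, map_add, Pi.add_apply, Finset.sum_add_distrib]

lemma EL_smul (c : Λ) (f : List Bool → Λ) : EL (c • f) = c • EL f := by
  ext n
  simp only [EL, coeff_mk, PowerSeries.coeff_smul, Pi.smul_apply, smul_eq_mul, Finset.mul_sum]

lemma EL_zero : EL (0 : List Bool → Λ) = 0 := by
  ext n
  simp [EL]

lemma EL_cn (w : List Bool) : EL (cn Λ w) = PowerSeries.map (algebraMap ℚ Λ) (ES w) := by
  ext n
  unfold EL ES
  rw [coeff_mk, PowerSeries.coeff_map, coeff_mk, map_sum]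
  apply Finset.sum_congr rfl
  intro p _
  exact (cn_map (Algebra.ofId ℚ Λ) w _).symm

/-- span of the statistics of admissible or empty words, of length `n, n-2, ...` -/
def Bn (Λ : Type*) [CommRing Λ] [Algebra ℚ Λ] (n : ℕ) : Submodule Λ (List Bool → Λ) :=
  Submodule.span Λ {f | ∃ w : List Bool, (Adm w ∨ w = []) ∧ (∃ k, w.length + 2 * k = n) ∧
    f = cn Λ w}

lemma An_le_Bn {n : ℕ} {f : List Bool → Λ} (hf : f ∈ An Λ n) : f ∈ Bn Λ n := by
  refine Submodule.span_mono ?_ hf
  rintro f ⟨w, hw, h, rfl⟩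
  exact ⟨w, Or.inl hw, h, rfl⟩

lemma Bn_mono {m n k : ℕ} (h : m + 2 * k = n) {f : List Bool → Λ} (hf : f ∈ Bn Λ m) :
    f ∈ Bn Λ n := by
  refine Submodule.span_mono ?_ hf
  rintro f ⟨w, hw, ⟨k', hk'⟩, rfl⟩
  exact ⟨w, hw, ⟨k' + k, by omega⟩, rfl⟩

lemma one_mem_Bn : (1 : List Bool → Λ) ∈ Bn Λ 0 :=
  Submodule.subset_span ⟨[], Or.inr rfl, ⟨0, rfl⟩, rfl⟩

lemma Bn_mul {a b : ℕ} {f g : List Bool → Λ} (hf : f ∈ Bn Λ a) (hg : g ∈ Bn Λ b) :
    f * g ∈ Bn Λ (a + b) := by
  unfold Bn at hf
  induction hf using Submodule.span_induction with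
  | mem x hx =>
    obtain ⟨u, hu, ⟨k, hk⟩, rfl⟩ := hx
    unfold Bn at hg
    induction hg using Submodule.span_induction with
    | mem y hy =>
      obtain ⟨v, hv, ⟨k', hk'⟩, rfl⟩ := hy
      rcases hu with hu | rfl
      · rcases hv with hv | rfl
        · have h1 : cn Λ u ∈ An Λ u.length := Submodule.subset_span ⟨u, hu, ⟨0, rfl⟩, rfl⟩
          have h2 : cn Λ v ∈ An Λ v.length := Submodule.subset_span ⟨v, hv, ⟨0, rfl⟩, rfl⟩
          exact Bn_mono (k := k + k') (by omega) (An_le_Bn (An_mul h1 h2))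
        · have e : cn Λ u * cn Λ [] = cn Λ u := mul_one _
          rw [e]
          exact Submodule.subset_span ⟨u, Or.inl hu, ⟨k + k', by simp at hk'; omega⟩, rfl⟩
      · have e : cn Λ [] * cn Λ v = cn Λ v := one_mul _
        rw [e]
        exact Submodule.subset_span ⟨v, hv, ⟨k + k', by simp at hk; omega⟩, rfl⟩
    | zero => rw [mul_zero]; exact zero_mem _
    | add x y _ _ hx hy => rw [mul_add]; exact add_mem hx hy
    | smul c x _ hx => rw [mul_smul_comm]; exact Submodule.smul_mem _ _ hx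
  | zero => rw [zero_mul]; exact zero_mem _
  | add x y _ _ hx hy => rw [add_mul]; exact add_mem hx hy
  | smul c x _ hx => rw [smul_mul_assoc]; exact Submodule.smul_mem _ _ hx

lemma EL_mem (hok : OkRel ok) {m n : ℕ} (h : ok m n) {f : List Bool → Λ} (hf : f ∈ Bn Λ m) :
    ∃ G ∈ qM Λ ok n, EL f = EL 1 * G := by
  unfold Bn at hf
  induction hf using Submodule.span_induction with
  | mem x hx =>
    obtain ⟨w, hw, ⟨k, hk⟩, rfl⟩ := hx
    have h' : ok w.length n := hok.down (k := k) (by rwa [hk])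
    have e1 : EL (1 : List Bool → Λ) = PowerSeries.map (algebraMap ℚ Λ) (ES []) := EL_cn []
    rcases hw with hw | rfl
    · refine ⟨PowerSeries.map (algebraMap ℚ Λ) (lim (fun B => cN xs (B - 1) w)),
        QP_map_mem hok h' (lim_WZ (W_le_WZ (cN_mem_W hw))), ?_⟩
      rw [EL_cn, e1, ES_eq hw, map_mul]
    · exact ⟨1, one_mem_qM h', by rw [mul_one]; rfl⟩
  | zero => exact ⟨0, zero_mem _, by rw [EL_zero, mul_zero]⟩
  | add x y _ _ hx hy =>
    obtain ⟨G, hG, e⟩ := hx
    obtain ⟨G', hG', e'⟩ := hy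
    exact ⟨G + G', add_mem hG hG', by rw [EL_add, e, e', mul_add]⟩
  | smul c x _ hx =>
    obtain ⟨G, hG, e⟩ := hx
    exact ⟨c • G, Submodule.smul_mem _ _ hG, by rw [EL_smul, e, mul_smul_comm]⟩

/-! ### several fixed points -/

variable {ι : Type*} [Fintype ι] [DecidableEq ι]

/-- the sum over all tuples of partitions of a function of the boundaries -/
noncomputable def avT (F : (ι → List Bool) → Λ) : Λ⟦X⟧ :=
  PowerSeries.mk fun n => ∑ ν ∈ Finset.finsuppAntidiag (Finset.univ : Finset ι) n,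
    ∑ p : (∀ c, (ν c).Partition), F (fun c => bd (p c).parts (ν c))

lemma avT_add (f g : (ι → List Bool) → Λ) : avT (f + g) = avT f + avT g := by
  ext n
  simp only [avT, coeff_mk, map_add, Pi.add_apply, Finset.sum_add_distrib]

lemma avT_smul (c : Λ) (f : (ι → List Bool) → Λ) : avT (c • f) = c • avT f := by
  ext n
  simp only [avT, coeff_mk, PowerSeries.coeff_smul, Pi.smul_apply, smul_eq_mul, Finset.mul_sum]

lemma avT_zero : avT (0 : (ι → List Bool) → Λ) = 0 := by
  ext n
  simp [avT]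

lemma avT_prod (f : ι → List Bool → Λ) : avT (fun β => ∏ c, f c (β c)) = ∏ c, EL (f c) := by
  ext n
  rw [PowerSeries.coeff_prod]
  unfold avT
  rw [coeff_mk]
  apply Finset.sum_congr rfl
  intro ν _
  have h := Finset.prod_univ_sum (κ := fun c => (ν c).Partition)
    (fun c => (Finset.univ : Finset (ν c).Partition)) (fun c p => f c (bd p.parts (ν c)))
  rw [Fintype.piFinset_univ] at h
  rw [← h]
  apply Finset.prod_congr rfl
  intro c _
  rw [EL, coeff_mk]

/-- functions on tuples of boundaries: the span of products of statistics of allowed weight -/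
def TP (Λ : Type*) [CommRing Λ] [Algebra ℚ Λ] (ι : Type*) [Fintype ι] (ok : ℕ → ℕ → Prop)
    (n : ℕ) : Submodule Λ ((ι → List Bool) → Λ) :=
  Submodule.span Λ {F | ∃ (f : ι → List Bool → Λ) (m : ι → ℕ), (∀ c, f c ∈ Bn Λ (m c)) ∧
    ok (∑ c, m c) n ∧ F = fun β => ∏ c, f c (β c)}

lemma one_mem_TP (hok : OkRel ok) : (1 : (ι → List Bool) → Λ) ∈ TP Λ ι ok 0 := by
  refine Submodule.subset_span ⟨fun _ => 1, fun _ => 0, fun _ => one_mem_Bn, ?_, ?_⟩
  · simpa using hok.zero
  · funext β
    simp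

lemma TP_mul (hok : OkRel ok) {a b : ℕ} {F G : (ι → List Bool) → Λ} (hF : F ∈ TP Λ ι ok a)
    (hG : G ∈ TP Λ ι ok b) : F * G ∈ TP Λ ι ok (a + b) := by
  unfold TP at hF
  induction hF using Submodule.span_induction with
  | mem x hx =>
    obtain ⟨f, m, hf, h1, rfl⟩ := hx
    unfold TP at hG
    induction hG using Submodule.span_induction with
    | mem y hy =>
      obtain ⟨g, m', hg, h2, rfl⟩ := hy
      refine Submodule.subset_span ⟨fun c => f c * g c, fun c => m c + m' c,
        fun c => Bn_mul (hf c) (hg c), ?_, ?_⟩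
      · rw [Finset.sum_add_distrib]
        exact hok.add h1 h2
      · funext β
        simp only [Pi.mul_apply, Finset.prod_mul_distrib]
    | zero => rw [mul_zero]; exact zero_mem _
    | add x y _ _ hx hy => rw [mul_add]; exact add_mem hx hy
    | smul c x _ hx => rw [mul_smul_comm]; exact Submodule.smul_mem _ _ hx
  | zero => rw [zero_mul]; exact zero_mem _
  | add x y _ _ hx hy => rw [add_mul]; exact add_mem hx hy
  | smul c x _ hx => rw [smul_mul_assoc]; exact Submodule.smul_mem _ _ hx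

lemma TP_single {m n : ℕ} (h : ok m n) {g : List Bool → Λ} (hg : g ∈ Bn Λ m) (c₀ : ι) :
    (fun β : ι → List Bool => g (β c₀)) ∈ TP Λ ι ok n := by
  refine Submodule.subset_span ⟨fun c => if c = c₀ then g else 1,
    fun c => if c = c₀ then m else 0, ?_, ?_, ?_⟩
  · intro c
    by_cases hc : c = c₀
    · simp only [hc, if_true]
      exact hg
    · simp only [hc, if_false]
      exact one_mem_Bn
  · simpa using h
  · funext β
    rw [Finset.prod_eq_single c₀]
    · simp only [if_true]
    · intro c _ hc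
      simp only [hc, if_false]
      rfl
    · intro h
      exact absurd (Finset.mem_univ _) h

theorem avT_mem (hok : OkRel ok) {n : ℕ} {F : (ι → List Bool) → Λ} (hF : F ∈ TP Λ ι ok n) :
    ∃ G ∈ qM Λ ok n, avT F = avT (1 : (ι → List Bool) → Λ) * G := by
  have e1 : avT (1 : (ι → List Bool) → Λ) = ∏ _c : ι, EL (1 : List Bool → Λ) := by
    rw [← avT_prod (fun _ => 1)]
    congr 1
    funext β
    simp
  unfold TP at hF
  induction hF using Submodule.span_induction with
  | mem x hx =>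
    obtain ⟨f, m, hf, h, rfl⟩ := hx
    have hm : ∀ c, ∃ G ∈ qM Λ (fun a n => ∃ k, a + 2 * k = n) (m c), EL (f c) = EL 1 * G :=
      fun c => EL_mem okRel_par ⟨0, rfl⟩ (hf c)
    choose G hG e using hm
    have hprod : ∀ s : Finset ι, ∏ c ∈ s, G c ∈
        qM Λ (fun a n => ∃ k, a + 2 * k = n) (∑ c ∈ s, m c) := by
      intro s
      induction s using Finset.induction_on with
      | empty => exact one_mem_qM ⟨0, rfl⟩
      | insert a s ha ih =>
        rw [Finset.prod_insert ha, Finset.sum_insert ha]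
        exact qM_mul okRel_par (hG a) ih
    refine ⟨∏ c, G c, ?_, ?_⟩
    · have h2 := hprod Finset.univ
      unfold qM at h2 ⊢
      refine Submodule.span_mono ?_ h2
      rintro g ⟨l, hl, ⟨k, hk⟩, rfl⟩
      exact ⟨l, hl, hok.down (k := k) (by rwa [hk]), rfl⟩
    · rw [avT_prod, e1, ← Finset.prod_mul_distrib]
      exact Finset.prod_congr rfl (fun c _ => e c)
  | zero => exact ⟨0, zero_mem _, by rw [avT_zero, mul_zero]⟩
  | add x y _ _ hx hy =>
    obtain ⟨G, hG, e⟩ := hx
    obtain ⟨G', hG', e'⟩ := hy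
    exact ⟨G + G', add_mem hG hG', by rw [avT_add, e, e', mul_add]⟩
  | smul c x _ hx =>
    obtain ⟨G, hG, e⟩ := hx
    exact ⟨c • G, Submodule.smul_mem _ _ hG, by rw [avT_smul, e, mul_smul_comm]⟩

end

end MPa7fa83.Ok
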