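import Pool.Agent.Lib.MP_a7fa83_ag.Ok.Defs

section

/-!
# MP_a7fa83_ag, trivial `M`: matrices

`Mt r S` are the `(r+1) × (r+1)` matrices over `S`, `Up s M` says that `M i j = 0` for
`j < i + s`, `gi M = 1 + M + ... + M^r` is the inverse of `1 - M` if `Up 1 M`.
-/

set_option autoImplicit false

namespace MPa7fa83.Ok

open Finset

/-- square matrices of size `r + 1` -/
abbrev Mt (r : ℕ) (S : Type*) := Matrix (Fin (r + 1)) (Fin (r + 1)) S

section

variable {r : ℕ} {S : Type*} [CommRing S]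

/-- `M i j = 0` for `j < i + s` -/
def Up (s : ℕ) (M : Mt r S) : Prop := ∀ i j : Fin (r + 1), (j : ℕ) < i + s → M i j = 0

lemma Up.mono {s t : ℕ} {M : Mt r S} (h : Up t M) (hst : s ≤ t) : Up s M :=
  fun i j hij => h i j (by omega)

lemma Up.mul {s t : ℕ} {M M' : Mt r S} (h : Up s M) (h' : Up t M') : Up (s + t) (M * M') := by
  intro i j hij
  rw [Matrix.mul_apply]
  apply Finset.sum_eq_zero
  intro k _
  by_cases hk : (k : ℕ) < i + s
  · rw [h i k hk, zero_mul]
  · rw [h' k j (by omega), mul_zero]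

lemma Up.add {s : ℕ} {M M' : Mt r S} (h : Up s M) (h' : Up s M') : Up s (M + M') := by
  intro i j hij
  rw [Matrix.add_apply, h i j hij, h' i j hij, add_zero]

lemma Up.neg {s : ℕ} {M : Mt r S} (h : Up s M) : Up s (-M) := by
  intro i j hij
  rw [Matrix.neg_apply, h i j hij, neg_zero]

lemma Up.sub {s : ℕ} {M M' : Mt r S} (h : Up s M) (h' : Up s M') : Up s (M - M') := by
  rw [sub_eq_add_neg]
  exact h.add h'.neg

lemma Up.smul {s : ℕ} {M : Mt r S} (c : S) (h : Up s M) : Up s (c • M) := by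
  intro i j hij
  rw [Matrix.smul_apply, h i j hij, smul_zero]

lemma Up_zero (s : ℕ) : Up s (0 : Mt r S) := fun _ _ _ => rfl

lemma Up_one : Up 0 (1 : Mt r S) := by
  intro i j hij
  rw [Matrix.one_apply_ne]
  rintro rfl
  omega

lemma Up.sum {s : ℕ} {ι : Type*} (T : Finset ι) (f : ι → Mt r S) (h : ∀ i ∈ T, Up s (f i)) :
    Up s (∑ i ∈ T, f i) := by
  classical
  induction T using Finset.induction_on with
  | empty => exact Up_zero s
  | insert a T ha ih =>
    rw [Finset.sum_insert ha]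
    exact (h a (Finset.mem_insert_self a T)).add
      (ih (fun i hi => h i (Finset.mem_insert_of_mem hi)))

lemma Up.pow {M : Mt r S} (h : Up 1 M) (n : ℕ) : Up n (M ^ n) := by
  induction n with
  | zero => rw [pow_zero]; exact Up_one
  | succ n ih => rw [pow_succ]; exact ih.mul h

lemma Up.eq_zero {s : ℕ} (hs : r < s) {M : Mt r S} (h : Up s M) : M = 0 := by
  ext i j
  exact h i j (by omega)

/-- the geometric series -/
def gi (M : Mt r S) : Mt r S := ∑ k ∈ range (r + 1), M ^ k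

lemma gi_mul {M : Mt r S} (h : Up 1 M) : gi M * (1 - M) = 1 := by
  unfold gi
  rw [geom_sum_mul_neg, (h.pow (r + 1)).eq_zero (Nat.lt_succ_self r), sub_zero]

lemma mul_gi {M : Mt r S} (h : Up 1 M) : (1 - M) * gi M = 1 := by
  unfold gi
  rw [mul_neg_geom_sum, (h.pow (r + 1)).eq_zero (Nat.lt_succ_self r), sub_zero]

lemma gi_up {M : Mt r S} (h : Up 1 M) : Up 0 (gi M) :=
  Up.sum _ _ (fun i _ => (h.pow i).mono (Nat.zero_le i))

lemma gi_comm (M : Mt r S) : M * gi M = gi M * M := by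
  unfold gi
  rw [Finset.mul_sum, Finset.sum_mul]
  apply Finset.sum_congr rfl
  intro k _
  rw [← pow_succ', pow_succ]

lemma gi_zero : gi (0 : Mt r S) = 1 := by
  have := mul_gi (Up_zero 1 : Up 1 (0 : Mt r S))
  rwa [sub_zero, one_mul] at this

lemma gi_map {S' : Type*} [CommRing S'] (φ : S →+* S') (M : Mt r S) :
    (gi M).map φ = gi (M.map φ) := by
  unfold gi
  have h : ∀ M : Mt r S, M.map φ = φ.mapMatrix M := fun M => rfl
  rw [h, h, map_sum]
  apply Finset.sum_congr rfl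
  intro k _
  rw [map_pow]

/-- evaluation of a word at two matrices (`A` for `false`, `B` for `true`) -/
def evR (A B : Mt r S) : List Bool → Mt r S
  | [] => 1
  | c :: w => evR A B w * (if c = true then B else A)

lemma evR_nil (A B : Mt r S) : evR A B [] = 1 := rfl

lemma evR_cons (A B : Mt r S) (c : Bool) (w : List Bool) :
    evR A B (c :: w) = evR A B w * (if c = true then B else A) := rfl

lemma evR_up {A B : Mt r S} (hA : Up 1 A) (hB : Up 1 B) (w : List Bool) :
    Up w.length (evR A B w) := by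
  induction w with
  | nil => exact Up_one
  | cons c w ih =>
    rw [evR_cons, List.length_cons]
    apply ih.mul
    split_ifs
    · exact hB
    · exact hA

lemma evR_map {S' : Type*} [CommRing S'] (φ : S →+* S') (A B : Mt r S) (w : List Bool) :
    (evR A B w).map φ = evR (A.map φ) (B.map φ) w := by
  induction w with
  | nil =>
    have : (1 : Mt r S).map φ = φ.mapMatrix 1 := rfl
    rw [evR_nil, evR_nil, this, map_one]
  | cons c w ih =>
    have h : ∀ M : Mt r S, M.map φ = φ.mapMatrix M := fun M => rfl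
    rw [evR_cons, evR_cons, ← ih, h, h, map_mul]
    split_ifs <;> rfl

/-- evaluation commutes with a (non unital) intertwining relation -/
lemma evR_conj {A B A' B' D : Mt r S} (hA : D * A = A' * D) (hB : D * B = B' * D)
    (w : List Bool) : D * evR A B w = evR A' B' w * D := by
  induction w with
  | nil => rw [evR_nil, evR_nil, mul_one, one_mul]
  | cons c w ih =>
    rw [evR_cons, evR_cons, ← mul_assoc, ih, mul_assoc, mul_assoc]
    congr 1
    split_ifs
    · exact hB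
    · exact hA

end

/-! ### sums over words -/

section

variable {M M' : Type*} [AddCommMonoid M] [AddCommMonoid M']

lemma sw_congr {n : ℕ} {f g : List Bool → M} (h : ∀ w, w.length = n → f w = g w) :
    sw n f = sw n g := by
  induction n generalizing f g with
  | zero => exact h [] rfl
  | succ n ih =>
    simp only [sw]
    rw [ih (fun w hw => h _ (by simp [hw])), ih (fun w hw => h _ (by simp [hw]))]

lemma sw_add (n : ℕ) (f g : List Bool → M) : sw n (fun w => f w + g w) = sw n f + sw n g := by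
  induction n generalizing f g with
  | zero => rfl
  | succ n ih =>
    simp only [sw]
    rw [ih, ih]
    abel

lemma sw_zero (n : ℕ) : sw n (fun _ => (0 : M)) = 0 := by
  induction n with
  | zero => rfl
  | succ n ih => simp only [sw]; rw [ih, add_zero]

lemma sw_map (φ : M →+ M') (n : ℕ) (f : List Bool → M) :
    φ (sw n f) = sw n (fun w => φ (f w)) := by
  induction n generalizing f with
  | zero => rfl
  | succ n ih =>
    simp only [sw]
    rw [map_add, ih, ih]

lemma sw_mem {S : Type*} [SetLike S M] [AddSubmonoidClass S M] (P : S) {n : ℕ}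
    {f : List Bool → M} (h : ∀ w, w.length = n → f w ∈ P) : sw n f ∈ P := by
  induction n generalizing f with
  | zero => exact h [] rfl
  | succ n ih =>
    simp only [sw]
    exact add_mem (ih (fun w hw => h _ (by simp [hw]))) (ih (fun w hw => h _ (by simp [hw])))

/-- a single nonzero term -/
lemma sw_single {n : ℕ} {f : List Bool → M} (v : List Bool) (hv : v.length = n)
    (h : ∀ w, w.length = n → w ≠ v → f w = 0) : sw n f = f v := by
  induction n generalizing f v with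
  | zero => rw [List.length_eq_zero_iff] at hv; rw [hv]; rfl
  | succ n ih =>
    obtain ⟨c, v', rfl⟩ : ∃ c v', v = c :: v' := by
      cases v with
      | nil => simp at hv
      | cons c v' => exact ⟨c, v', rfl⟩
    have hv' : v'.length = n := by simpa using hv
    simp only [sw]
    cases c with
    | false =>
      rw [ih (f := fun w => f (false :: w)) v' hv' (fun w hw hne => h _ (by simp [hw]) (by
        intro h2; exact hne (List.cons.inj h2).2)),
        sw_congr (g := fun _ => (0 : M)) (fun w hw => h _ (by simp [hw]) (by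
        intro h2; exact absurd (List.cons.inj h2).1 (by decide))), sw_zero, add_zero]
    | true =>
      rw [ih (f := fun w => f (true :: w)) v' hv' (fun w hw hne => h _ (by simp [hw]) (by
        intro h2; exact hne (List.cons.inj h2).2)),
        sw_congr (f := fun w => f (false :: w)) (g := fun _ => (0 : M)) (fun w hw =>
        h _ (by simp [hw]) (by
        intro h2; exact absurd (List.cons.inj h2).1 (by decide))), sw_zero, zero_add]

end

section

variable {r : ℕ} {S : Type*} [CommRing S]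

/-- the value of the series with coefficients `f` at the matrices `A, B` -/
def Ps (f : List Bool → S) (A B : Mt r S) : Mt r S :=
  ∑ n ∈ range (r + 1), sw n (fun w => f w • evR A B w)

lemma sw_mul (n : ℕ) (f : List Bool → Mt r S) (M : Mt r S) :
    sw n f * M = sw n (fun w => f w * M) := by
  induction n generalizing f with
  | zero => rfl
  | succ n ih =>
    simp only [sw]
    rw [add_mul, ih, ih]

/-- the step: if `f' (c :: w) = f (c :: w) + s_c f' w` then `f'` is `f` times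
`(1 - s0 A - s1 B)⁻¹` -/
lemma Ps_step {f f' : List Bool → S} {s0 s1 : S} (h0 : f' [] = f [])
    (h : ∀ c w, f' (c :: w) = f (c :: w) + (if c = true then s1 else s0) * f' w)
    {A B : Mt r S} (hA : Up 1 A) (hB : Up 1 B) :
    Ps f' A B * (1 - s0 • A - s1 • B) = Ps f A B := by
  have key : ∀ n, sw (n + 1) (fun w => f' w • evR A B w) =
      sw (n + 1) (fun w => f w • evR A B w) +
        sw n (fun w => f' w • evR A B w) * (s0 • A + s1 • B) := by
    intro n
    simp only [sw]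
    have e1 : ∀ w, f' (false :: w) • evR A B (false :: w) =
        f (false :: w) • evR A B (false :: w) + (f' w • evR A B w) * (s0 • A) := by
      intro w
      rw [h, evR_cons, if_neg (by decide), if_neg (by decide), add_smul, mul_smul,
        Matrix.smul_mul, Matrix.mul_smul, smul_comm s0 (f' w)]
    have e2 : ∀ w, f' (true :: w) • evR A B (true :: w) =
        f (true :: w) • evR A B (true :: w) + (f' w • evR A B w) * (s1 • B) := by
      intro w
      rw [h, evR_cons, if_pos rfl, if_pos rfl, add_smul, mul_smul,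
        Matrix.smul_mul, Matrix.mul_smul, smul_comm s1 (f' w)]
    rw [sw_congr (fun w _ => e1 w), sw_congr (fun w _ => e2 w), sw_add, sw_add, mul_add,
      ← sw_mul, ← sw_mul]
    abel
  have hz : sw r (fun w => f' w • evR A B w) * (s0 • A + s1 • B) = 0 := by
    rw [sw_mul, sw_congr (g := fun _ => 0) ?_, sw_zero]
    intro w hw
    apply Up.eq_zero (s := r + 1) (Nat.lt_succ_self r)
    apply Up.mul
    · exact ((evR_up hA hB w).mono hw.ge).smul _
    · exact (hA.smul _).add (hB.smul _)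
  have hsum : ∀ n, (∑ k ∈ range (n + 1), sw k (fun w => f' w • evR A B w)) *
      (1 - (s0 • A + s1 • B)) = (∑ k ∈ range (n + 1), sw k (fun w => f w • evR A B w)) -
        sw n (fun w => f' w • evR A B w) * (s0 • A + s1 • B) := by
    intro n
    induction n with
    | zero =>
      simp only [zero_add, Finset.range_one, Finset.sum_singleton, sw]
      rw [h0, mul_sub, mul_one]
    | succ n ih =>
      rw [Finset.sum_range_succ, add_mul, ih, Finset.sum_range_succ (fun k => sw k _) (n + 1),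
        mul_sub, mul_one, key n]
      abel
  unfold Ps
  rw [sub_sub, hsum r, hz, sub_zero]

lemma Ps_ind (A B : Mt r S) : Ps (fun w => if w = [] then (1 : S) else 0) A B = 1 := by
  unfold Ps
  rw [Finset.sum_range_succ']
  have : ∀ k, sw (k + 1) (fun w => (if w = [] then (1 : S) else 0) • evR A B w) = 0 := by
    intro k
    rw [sw_congr (g := fun _ => 0) ?_, sw_zero]
    intro w hw
    rw [if_neg, zero_smul]
    rintro rfl
    simp at hw
  rw [Finset.sum_eq_zero (fun k _ => this k), zero_add]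
  simp only [sw, if_true, one_smul, evR_nil]

lemma Ps_apply (f : List Bool → S) (A B : Mt r S) (i j : Fin (r + 1)) :
    Ps f A B i j = ∑ n ∈ range (r + 1), sw n (fun w => f w * evR A B w i j) := by
  unfold Ps
  rw [Matrix.sum_apply]
  apply Finset.sum_congr rfl
  intro n _
  let φ : Mt r S →+ S :=
    { toFun := fun M => M i j
      map_zero' := rfl
      map_add' := fun _ _ => rfl }
  exact sw_map φ n (fun w => f w • evR A B w)

/-- recursion of the weak sums -/
lemma dco_nil (s : Bool → ℕ → S) (k : ℕ) : dco s [] k = 1 := rfl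

lemma dco_cons_zero (s : Bool → ℕ → S) (c : Bool) (w : List Bool) : dco s (c :: w) 0 = 0 := by
  simp [dco]

lemma dco_cons_succ (s : Bool → ℕ → S) (c : Bool) (w : List Bool) (k : ℕ) :
    dco s (c :: w) (k + 1) = dco s (c :: w) k + s c k * dco s w (k + 1) := by
  simp only [dco]
  rw [Finset.sum_range_succ]

lemma Ps_dco_zero (s : Bool → ℕ → S) (A B : Mt r S) : Ps (fun w => dco s w 0) A B = 1 := by
  rw [← Ps_ind A B]
  congr 1
  funext w
  cases w with
  | nil => simp [dco]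
  | cons c w => simp [dco]

lemma Ps_dco_succ (s : Bool → ℕ → S) (k : ℕ) {A B : Mt r S} (hA : Up 1 A) (hB : Up 1 B) :
    Ps (fun w => dco s w (k + 1)) A B * (1 - s false k • A - s true k • B) =
      Ps (fun w => dco s w k) A B := by
  apply Ps_step _ _ hA hB
  · rfl
  · intro c w
    rw [dco_cons_succ]
    cases c <;> simp

/-- uniqueness of solutions of `Θ (k+1) * U k = Θ k` -/
lemma uniq {N : ℕ} {Θ Θ' U V : ℕ → Mt r S} (h0 : Θ 0 = Θ' 0)
    (h : ∀ k < N, Θ (k + 1) * U k = Θ k) (h' : ∀ k < N, Θ' (k + 1) * U k = Θ' k)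
    (hU : ∀ k < N, U k * V k = 1) : ∀ k ≤ N, Θ k = Θ' k := by
  intro k
  induction k with
  | zero => intro _; exact h0
  | succ k ih =>
    intro hk
    have h1 := ih (by omega)
    have h2 := h k (by omega)
    have h3 := h' k (by omega)
    rw [← h2, ← h3] at h1
    have h4 := congrArg (fun M => M * V k) h1
    simp only [mul_assoc] at h4
    rwa [hU k (by omega), mul_one, mul_one] at h4

end

end MPa7fa83.Ok
end

section

/-!
# MP_a7fa83_ag, trivial `M`: the representation of a word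

`Lt r ℓ c` is the matrix of the letter `c` in the representation attached to the word
`ℓ 0, ..., ℓ (r-1)`; the first row of a product of site factors consists of the coefficients of
the prefixes of the word.
-/

set_option autoImplicit false

namespace MPa7fa83.Ok

open Finset

section

variable {r : ℕ} {S : Type*} [CommRing S]

/-- the matrix of the letter `c` in the representation of the word `ℓ` -/
def Lt (r : ℕ) (S : Type*) [CommRing S] (ℓ : ℕ → Bool) (c : Bool) : Mt r S :=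
  fun i j => if (j : ℕ) = i + 1 ∧ ℓ i = c then 1 else 0

lemma Lt_up (ℓ : ℕ → Bool) (c : Bool) : Up 1 (Lt r S ℓ c) := by
  intro i j hij
  unfold Lt
  rw [if_neg]
  rintro ⟨h1, _⟩
  omega

lemma Lt_map {S' : Type*} [CommRing S'] (φ : S →+* S') (ℓ : ℕ → Bool) (c : Bool) :
    (Lt r S ℓ c).map φ = Lt r S' ℓ c := by
  ext i j
  rw [Matrix.map_apply]
  unfold Lt
  split_ifs
  · exact map_one φ
  · exact map_zero φ

lemma mul_Lt_zero (M : Mt r S) (ℓ : ℕ → Bool) (c : Bool) (i : Fin (r + 1)) :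
    (M * Lt r S ℓ c) i 0 = 0 := by
  rw [Matrix.mul_apply]
  apply Finset.sum_eq_zero
  intro k _
  unfold Lt
  rw [if_neg, mul_zero]
  rintro ⟨h, _⟩
  simp at h

lemma mul_Lt_succ (M : Mt r S) (ℓ : ℕ → Bool) (c : Bool) (i : Fin (r + 1)) (j : ℕ)
    (hj : j + 1 < r + 1) :
    (M * Lt r S ℓ c) i ⟨j + 1, hj⟩ = if ℓ j = c then M i ⟨j, by omega⟩ else 0 := by
  rw [Matrix.mul_apply, Finset.sum_eq_single (⟨j, by omega⟩ : Fin (r + 1))]
  · unfold Lt
    by_cases h : ℓ j = c
    · rw [if_pos h, if_pos ⟨rfl, h⟩, mul_one]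
    · rw [if_neg h, if_neg (fun h2 => h h2.2), mul_zero]
  · intro k _ hk
    unfold Lt
    rw [if_neg, mul_zero]
    rintro ⟨h, _⟩
    apply hk
    ext
    simp only at h ⊢
    omega
  · intro h
    exact absurd (Finset.mem_univ _) h

/-- one factor: if `H (1 - u c) = Θ (1 + α c)` then the row of `H` is `rm c α u` of the row of
`Θ` -/
lemma row_step (ℓ : ℕ → Bool) (c : Bool) (α u : S) (Θ H : Mt r S) (f : List Bool → S)
    (hΘ : ∀ (j : ℕ) (hj : j < r + 1), Θ 0 ⟨j, hj⟩ = f (pre ℓ j))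
    (h : H * (1 - u • Lt r S ℓ c) = Θ * (1 + α • Lt r S ℓ c)) :
    ∀ (j : ℕ) (hj : j < r + 1), H 0 ⟨j, hj⟩ = rm c α u f (pre ℓ j) := by
  have h1 : ∀ j : Fin (r + 1), H 0 j = Θ 0 j + α * (Θ * Lt r S ℓ c) 0 j +
      u * (H * Lt r S ℓ c) 0 j := by
    intro j
    have h2 := congrArg (fun M : Mt r S => M 0 j) h
    simp only [mul_sub, mul_add, mul_one, Matrix.mul_smul, Matrix.sub_apply, Matrix.add_apply,
      Matrix.smul_apply, smul_eq_mul] at h2
    linear_combination h2
  intro j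
  induction j with
  | zero =>
    intro hj
    have h3 := h1 0
    rw [mul_Lt_zero, mul_Lt_zero, mul_zero, mul_zero, add_zero, add_zero] at h3
    exact h3.trans (hΘ 0 hj)
  | succ j ih =>
    intro hj
    rw [h1, mul_Lt_succ, mul_Lt_succ, hΘ, pre, rm]
    by_cases hc : ℓ j = c
    · rw [if_pos hc, if_pos hc, if_pos hc, hΘ, ih]
      ring
    · rw [if_neg hc, if_neg hc, if_neg hc]
      ring

/-- the first row of the product of the site factors -/
lemma row_cf (ℓ : ℕ → Bool) (α β : S) (u t : ℕ → S) (N : ℕ) (Θ H : ℕ → Mt r S) (h0 : Θ 0 = 1)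
    (h1 : ∀ k < N, H k * (1 - u k • Lt r S ℓ false) = Θ k * (1 + α • Lt r S ℓ false))
    (h2 : ∀ k < N, Θ (k + 1) * (1 - t k • Lt r S ℓ true) = H k * (1 + β • Lt r S ℓ true)) :
    ∀ k ≤ N, ∀ (j : ℕ) (hj : j < r + 1), Θ k 0 ⟨j, hj⟩ = cf α β u t k (pre ℓ j) := by
  intro k
  induction k with
  | zero =>
    intro _ j hj
    simp only [h0, cf]
    rcases j with _ | j
    · simp only [pre, if_true]
      exact Matrix.one_apply_eq _
    · simp only [pre, List.cons_ne_nil, if_false]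
      apply Matrix.one_apply_ne
      intro h
      simp [Fin.ext_iff] at h
  | succ k ih =>
    intro hk
    exact row_step ℓ true β (t k) (H k) (Θ (k + 1)) _
      (row_step ℓ false α (u k) (Θ k) (H k) _ (ih (by omega)) (h1 k (by omega))) (h2 k (by omega))

/-- entries of words of full length -/
lemma evR_Lt (ℓ : ℕ → Bool) (w : List Bool) (hw : w.length < r + 1) :
    evR (Lt r S ℓ false) (Lt r S ℓ true) w 0 ⟨w.length, hw⟩ =
      if w = pre ℓ w.length then 1 else 0 := by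
  induction w with
  | nil =>
    simp only [evR_nil, List.length_nil, pre, if_true]
    exact Matrix.one_apply_eq _
  | cons c w ih =>
    have hw' : w.length < r + 1 := by simp at hw; omega
    rw [evR_cons]
    have e : (if c = true then Lt r S ℓ true else Lt r S ℓ false) = Lt r S ℓ c := by
      cases c <;> simp
    have e2 : (⟨(c :: w).length, hw⟩ : Fin (r + 1)) = ⟨w.length + 1, by simpa using hw⟩ := rfl
    rw [e, e2, mul_Lt_succ, ih hw', List.length_cons, pre]
    by_cases hc : ℓ w.length = c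
    · rw [if_pos hc, hc]
      by_cases h2 : w = pre ℓ w.length
      · rw [if_pos h2, ← h2, if_pos rfl]
      · rw [if_neg h2, if_neg]
        intro h3
        exact h2 (List.cons.inj h3).2
    · rw [if_neg hc, if_neg]
      intro h3
      exact hc (List.cons.inj h3).1.symm

end

/-! ### the matrices `x = ξ (1 + ξ/2)⁻¹`, `y = η (1 - η/2)⁻¹` -/

section

variable {r : ℕ} {S : Type*} [CommRing S] [Algebra ℚ S]

/-- `x = ξ (1 + ξ/2)⁻¹` -/
def xM (r : ℕ) (S : Type*) [CommRing S] [Algebra ℚ S] (ℓ : ℕ → Bool) : Mt r S :=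
  Lt r S ℓ false * gi (-(hR S • Lt r S ℓ false))

/-- `y = η (1 - η/2)⁻¹` -/
def yM (r : ℕ) (S : Type*) [CommRing S] [Algebra ℚ S] (ℓ : ℕ → Bool) : Mt r S :=
  Lt r S ℓ true * gi (hR S • Lt r S ℓ true)

lemma xM_mul (ℓ : ℕ → Bool) : xM r S ℓ * (1 + hR S • Lt r S ℓ false) = Lt r S ℓ false := by
  unfold xM
  have h := gi_mul (((Lt_up ℓ false).smul (hR S)).neg : Up 1 (-(hR S • Lt r S ℓ false)))
  rw [sub_neg_eq_add] at h
  rw [mul_assoc, h, mul_one]

lemma yM_mul (ℓ : ℕ → Bool) : yM r S ℓ * (1 - hR S • Lt r S ℓ true) = Lt r S ℓ true := by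
  unfold yM
  rw [mul_assoc, gi_mul ((Lt_up ℓ true).smul (hR S)), mul_one]

lemma xM_up (ℓ : ℕ → Bool) : Up 1 (xM r S ℓ) :=
  (Lt_up ℓ false).mul (gi_up ((Lt_up ℓ false).smul _).neg)

lemma yM_up (ℓ : ℕ → Bool) : Up 1 (yM r S ℓ) :=
  (Lt_up ℓ true).mul (gi_up ((Lt_up ℓ true).smul _))

lemma xM_sub_up (ℓ : ℕ → Bool) : Up 2 (xM r S ℓ - Lt r S ℓ false) := by
  have h := xM_mul (r := r) (S := S) ℓ
  have : xM r S ℓ - Lt r S ℓ false = -(xM r S ℓ * (hR S • Lt r S ℓ false)) := by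
    rw [mul_add, mul_one] at h
    conv_lhs => rw [← h]
    abel
  rw [this]
  exact ((xM_up ℓ).mul ((Lt_up ℓ false).smul _)).neg

lemma yM_sub_up (ℓ : ℕ → Bool) : Up 2 (yM r S ℓ - Lt r S ℓ true) := by
  have h := yM_mul (r := r) (S := S) ℓ
  have : yM r S ℓ - Lt r S ℓ true = yM r S ℓ * (hR S • Lt r S ℓ true) := by
    rw [mul_sub, mul_one] at h
    conv_lhs => rw [← h]
    abel
  rw [this]
  exact (yM_up ℓ).mul ((Lt_up ℓ true).smul _)

lemma gi_map_alg {S' : Type*} [CommRing S'] [Algebra ℚ S'] (φ : S →ₐ[ℚ] S') (M : Mt r S) :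
    (gi M).map φ = gi (M.map φ) := gi_map (φ : S →+* S') M

lemma smul_map_alg {S' : Type*} [CommRing S'] [Algebra ℚ S'] (φ : S →ₐ[ℚ] S') (c : S)
    (M : Mt r S) : (c • M).map φ = φ c • M.map φ := by
  ext i j
  simp

lemma mul_map_alg {S' : Type*} [CommRing S'] [Algebra ℚ S'] (φ : S →ₐ[ℚ] S') (M M' : Mt r S) :
    (M * M').map φ = M.map φ * M'.map φ := by
  have h : ∀ M : Mt r S, M.map φ = (φ : S →+* S').mapMatrix M := fun M => rfl
  rw [h, h, h, map_mul]

lemma sub_map_alg {S' : Type*} [CommRing S'] [Algebra ℚ S'] (φ : S →ₐ[ℚ] S') (M M' : Mt r S) :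
    (M - M').map φ = M.map φ - M'.map φ := by
  ext i j
  simp

lemma neg_map_alg {S' : Type*} [CommRing S'] [Algebra ℚ S'] (φ : S →ₐ[ℚ] S') (M : Mt r S) :
    (-M).map φ = -M.map φ := by
  ext i j
  simp

lemma one_map_alg {S' : Type*} [CommRing S'] [Algebra ℚ S'] (φ : S →ₐ[ℚ] S') :
    (1 : Mt r S).map φ = 1 := by
  have h : (1 : Mt r S).map φ = (φ : S →+* S').mapMatrix 1 := rfl
  rw [h, map_one]

lemma Lt_map_alg {S' : Type*} [CommRing S'] [Algebra ℚ S'] (φ : S →ₐ[ℚ] S') (ℓ : ℕ → Bool)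
    (c : Bool) : (Lt r S ℓ c).map φ = Lt r S' ℓ c := Lt_map (φ : S →+* S') ℓ c

lemma xM_map {S' : Type*} [CommRing S'] [Algebra ℚ S'] (φ : S →ₐ[ℚ] S') (ℓ : ℕ → Bool) :
    (xM r S ℓ).map φ = xM r S' ℓ := by
  unfold xM
  rw [mul_map_alg, gi_map_alg, neg_map_alg, smul_map_alg, Lt_map_alg, map_hR]

lemma yM_map {S' : Type*} [CommRing S'] [Algebra ℚ S'] (φ : S →ₐ[ℚ] S') (ℓ : ℕ → Bool) :
    (yM r S ℓ).map φ = yM r S' ℓ := by
  unfold yM
  rw [mul_map_alg, gi_map_alg, smul_map_alg, Lt_map_alg, map_hR]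

end

end MPa7fa83.Ok
end

section

/-!
# MP_a7fa83_ag, trivial `M`: the coefficients `lam` and `nu`

With `x = ξ (1 + ξ/2)⁻¹`, `y = η (1 - η/2)⁻¹`, `F = (1 - (1+g) x)⁻¹`, `G = (1 - g y)⁻¹`,
`a = (1 - g y) x`, `b = y (1 - (1+g) x)`, `A = x F (1 - g y) F⁻¹`:
`lam w` is the coefficient of the word `ℓ` in `w(A, b) F G - w(a, b)`, `nu w` the one in
`w(a, b)`.
-/

set_option autoImplicit false

namespace MPa7fa83.Ok

open Finset Polynomial

section

variable (r : ℕ) (S : Type*) [CommRing S] [Algebra ℚ S] (ℓ : ℕ → Bool) (g : S)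

/-- `F⁻¹` -/
def Fi : Mt r S := 1 - (1 + g) • xM r S ℓ
/-- `G⁻¹` -/
def Gi : Mt r S := 1 - g • yM r S ℓ
/-- `F` -/
def Fm : Mt r S := gi ((1 + g) • xM r S ℓ)
/-- `G` -/
def Gm : Mt r S := gi (g • yM r S ℓ)
/-- `a` -/
def aM : Mt r S := Gi r S ℓ g * xM r S ℓ
/-- `b` -/
def bM : Mt r S := yM r S ℓ * Fi r S ℓ g
/-- `A` -/
def AM : Mt r S := Fm r S ℓ g * xM r S ℓ * Gi r S ℓ g * Fi r S ℓ g

/-- the coefficient `lam` -/
def lam (w : List Bool) : S :=
  (evR (AM r S ℓ g) (bM r S ℓ g) w * Fm r S ℓ g * Gm r S ℓ g -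
    evR (aM r S ℓ g) (bM r S ℓ g) w) 0 (Fin.last r)

/-- the coefficient `nu` -/
def nu (w : List Bool) : S := evR (aM r S ℓ g) (bM r S ℓ g) w 0 (Fin.last r)

lemma Fi_Fm : Fi r S ℓ g * Fm r S ℓ g = 1 := mul_gi ((xM_up ℓ).smul _)
lemma Fm_Fi : Fm r S ℓ g * Fi r S ℓ g = 1 := gi_mul ((xM_up ℓ).smul _)
lemma Gi_Gm : Gi r S ℓ g * Gm r S ℓ g = 1 := mul_gi ((yM_up ℓ).smul _)
lemma Gm_Gi : Gm r S ℓ g * Gi r S ℓ g = 1 := gi_mul ((yM_up ℓ).smul _)

lemma Fi_up : Up 0 (Fi r S ℓ g) := Up_one.sub (((xM_up ℓ).smul _).mono (Nat.zero_le 1))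
lemma Gi_up : Up 0 (Gi r S ℓ g) := Up_one.sub (((yM_up ℓ).smul _).mono (Nat.zero_le 1))
lemma Fm_up : Up 0 (Fm r S ℓ g) := gi_up ((xM_up ℓ).smul _)
lemma Gm_up : Up 0 (Gm r S ℓ g) := gi_up ((yM_up ℓ).smul _)
lemma aM_up : Up 1 (aM r S ℓ g) := by
  have := (Gi_up r S ℓ g).mul (xM_up (r := r) (S := S) ℓ)
  rwa [zero_add] at this
lemma bM_up : Up 1 (bM r S ℓ g) := (yM_up ℓ).mul (Fi_up r S ℓ g)
lemma AM_up : Up 1 (AM r S ℓ g) := by
  have := (((Fm_up r S ℓ g).mul (xM_up (r := r) (S := S) ℓ)).mul (Gi_up r S ℓ g)).mul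
    (Fi_up r S ℓ g)
  rw [zero_add, add_zero, add_zero] at this
  exact this

lemma Fm_xM : Fm r S ℓ g * xM r S ℓ = xM r S ℓ * Fm r S ℓ g := by
  have h : Fi r S ℓ g * xM r S ℓ = xM r S ℓ * Fi r S ℓ g := by
    unfold Fi
    rw [sub_mul, mul_sub, one_mul, mul_one, Matrix.smul_mul, Matrix.mul_smul]
  calc Fm r S ℓ g * xM r S ℓ = Fm r S ℓ g * (xM r S ℓ * Fi r S ℓ g) * Fm r S ℓ g := by
        rw [mul_assoc, mul_assoc (xM r S ℓ), Fi_Fm, mul_one]
    _ = Fm r S ℓ g * (Fi r S ℓ g * xM r S ℓ) * Fm r S ℓ g := by rw [h]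
    _ = xM r S ℓ * Fm r S ℓ g := by rw [← mul_assoc (Fm r S ℓ g), Fm_Fi, one_mul]

end

section

variable {r : ℕ} {S : Type*} [CommRing S] [Algebra ℚ S] {ℓ : ℕ → Bool} (g : S)

/-! ### change of rings -/

lemma Fi_map {S' : Type*} [CommRing S'] [Algebra ℚ S'] (φ : S →ₐ[ℚ] S') :
    (Fi r S ℓ g).map φ = Fi r S' ℓ (φ g) := by
  unfold Fi
  rw [sub_map_alg, one_map_alg, smul_map_alg, xM_map, map_add, map_one]

lemma Gi_map {S' : Type*} [CommRing S'] [Algebra ℚ S'] (φ : S →ₐ[ℚ] S') :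
    (Gi r S ℓ g).map φ = Gi r S' ℓ (φ g) := by
  unfold Gi
  rw [sub_map_alg, one_map_alg, smul_map_alg, yM_map]

lemma Fm_map {S' : Type*} [CommRing S'] [Algebra ℚ S'] (φ : S →ₐ[ℚ] S') :
    (Fm r S ℓ g).map φ = Fm r S' ℓ (φ g) := by
  unfold Fm
  rw [gi_map_alg, smul_map_alg, xM_map, map_add, map_one]

lemma Gm_map {S' : Type*} [CommRing S'] [Algebra ℚ S'] (φ : S →ₐ[ℚ] S') :
    (Gm r S ℓ g).map φ = Gm r S' ℓ (φ g) := by
  unfold Gm
  rw [gi_map_alg, smul_map_alg, yM_map]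

lemma aM_map {S' : Type*} [CommRing S'] [Algebra ℚ S'] (φ : S →ₐ[ℚ] S') :
    (aM r S ℓ g).map φ = aM r S' ℓ (φ g) := by
  unfold aM
  rw [mul_map_alg, Gi_map, xM_map]

lemma bM_map {S' : Type*} [CommRing S'] [Algebra ℚ S'] (φ : S →ₐ[ℚ] S') :
    (bM r S ℓ g).map φ = bM r S' ℓ (φ g) := by
  unfold bM
  rw [mul_map_alg, Fi_map, yM_map]

lemma AM_map {S' : Type*} [CommRing S'] [Algebra ℚ S'] (φ : S →ₐ[ℚ] S') :
    (AM r S ℓ g).map φ = AM r S' ℓ (φ g) := by
  unfold AM
  rw [mul_map_alg, mul_map_alg, mul_map_alg, Fi_map, Gi_map, Fm_map, xM_map]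

lemma evR_map_alg {S' : Type*} [CommRing S'] [Algebra ℚ S'] (φ : S →ₐ[ℚ] S') (A B : Mt r S)
    (w : List Bool) : (evR A B w).map φ = evR (A.map φ) (B.map φ) w :=
  evR_map (φ : S →+* S') A B w

lemma lam_map {S' : Type*} [CommRing S'] [Algebra ℚ S'] (φ : S →ₐ[ℚ] S') (w : List Bool) :
    lam r S' ℓ (φ g) w = φ (lam r S ℓ g w) := by
  unfold lam
  rw [← Matrix.map_apply (f := φ), sub_map_alg, mul_map_alg, mul_map_alg, evR_map_alg,
    evR_map_alg, AM_map, bM_map, aM_map, Fm_map, Gm_map]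

lemma nu_map {S' : Type*} [CommRing S'] [Algebra ℚ S'] (φ : S →ₐ[ℚ] S') (w : List Bool) :
    nu r S' ℓ (φ g) w = φ (nu r S ℓ g w) := by
  unfold nu
  rw [← Matrix.map_apply (f := φ), evR_map_alg, bM_map, aM_map]

/-! ### rows and columns -/

lemma col_zero {n : ℕ} (hℓ : ℓ (n + 1) = true) (M : Mt (n + 2) S) (i : Fin (n + 2 + 1)) :
    (M * xM (n + 2) S ℓ) i (Fin.last (n + 2)) = 0 := by
  have h1 : xM (n + 2) S ℓ = gi (-(hR S • Lt (n + 2) S ℓ false)) * Lt (n + 2) S ℓ false := by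
    have h := gi_comm (-(hR S • Lt (n + 2) S ℓ false))
    unfold xM
    have h2 : IsUnit (2 : S) := ⟨⟨2, hR S, two_hR, by rw [mul_comm, two_hR]⟩, rfl⟩
    have h3 : hR S • (Lt (n + 2) S ℓ false * gi (-(hR S • Lt (n + 2) S ℓ false))) =
        hR S • (gi (-(hR S • Lt (n + 2) S ℓ false)) * Lt (n + 2) S ℓ false) := by
      rw [neg_mul, mul_neg, neg_inj, Matrix.smul_mul, Matrix.mul_smul] at h
      exact h
    have h4 := congrArg (fun M => (2 : S) • M) h3
    simp only [smul_smul, two_hR, one_smul] at h4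
    exact h4
  rw [h1, ← mul_assoc]
  have h5 := mul_Lt_succ (M * gi (-(hR S • Lt (n + 2) S ℓ false))) ℓ false i (n + 1) (by omega)
  rw [if_neg (by rw [hℓ]; decide)] at h5
  exact h5

lemma row_zero {n : ℕ} (hℓ : ℓ 0 = false) (M : Mt (n + 2) S) (j : Fin (n + 2 + 1)) :
    (yM (n + 2) S ℓ * M) 0 j = 0 := by
  unfold yM
  rw [mul_assoc, Matrix.mul_apply]
  apply Finset.sum_eq_zero
  intro k _
  unfold Lt
  rw [if_neg, zero_mul]
  rintro ⟨_, h⟩
  have : ℓ 0 = true := h
  rw [hℓ] at this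
  exact absurd this (by decide)

/-! ### the values at `g = 0` and `g = -1` -/

lemma lam_zero {n : ℕ} (hℓ : ℓ (n + 1) = true) (w : List Bool) :
    lam (n + 2) S ℓ 0 w = 0 := by
  have e1 : Gi (n + 2) S ℓ 0 = 1 := by unfold Gi; rw [zero_smul, sub_zero]
  have e2 : Gm (n + 2) S ℓ 0 = 1 := by unfold Gm; rw [zero_smul, gi_zero]
  have e3 : aM (n + 2) S ℓ 0 = xM (n + 2) S ℓ := by unfold aM; rw [e1, one_mul]
  have e4 : AM (n + 2) S ℓ 0 = xM (n + 2) S ℓ := by
    unfold AM
    rw [e1, mul_one, Fm_xM, mul_assoc, Fm_Fi, mul_one]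
  have e5 : Fm (n + 2) S ℓ 0 = 1 + Fm (n + 2) S ℓ 0 * xM (n + 2) S ℓ := by
    have h := Fm_Fi (n + 2) S ℓ 0
    have h' : Fi (n + 2) S ℓ 0 = 1 - xM (n + 2) S ℓ := by
      unfold Fi; rw [add_zero, one_smul]
    rw [h', mul_sub, mul_one] at h
    rw [← h]
    abel
  unfold lam
  rw [e2, e3, e4, mul_one]
  conv_lhs => rw [e5]
  rw [mul_add, mul_one, add_sub_cancel_left, ← mul_assoc]
  exact col_zero hℓ _ _

lemma lam_neg_one {n : ℕ} (hℓ : ℓ 0 = false) (w : List Bool) :
    lam (n + 2) S ℓ (-1) w = 0 := by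
  have e1 : Fi (n + 2) S ℓ (-1) = 1 := by unfold Fi; rw [add_neg_cancel, zero_smul, sub_zero]
  have e2 : Fm (n + 2) S ℓ (-1) = 1 := by unfold Fm; rw [add_neg_cancel, zero_smul, gi_zero]
  have e3 : bM (n + 2) S ℓ (-1) = yM (n + 2) S ℓ := by unfold bM; rw [e1, mul_one]
  have e4 : AM (n + 2) S ℓ (-1) = xM (n + 2) S ℓ * Gi (n + 2) S ℓ (-1) := by
    unfold AM
    rw [e1, e2, mul_one, one_mul]
  have e5 : Gi (n + 2) S ℓ (-1) = 1 + yM (n + 2) S ℓ := by
    unfold Gi
    rw [neg_smul, one_smul, sub_neg_eq_add]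
  have h1 : Gi (n + 2) S ℓ (-1) * AM (n + 2) S ℓ (-1) =
      aM (n + 2) S ℓ (-1) * Gi (n + 2) S ℓ (-1) := by
    rw [e4]
    unfold aM
    rw [mul_assoc]
  have h2 : Gi (n + 2) S ℓ (-1) * bM (n + 2) S ℓ (-1) =
      bM (n + 2) S ℓ (-1) * Gi (n + 2) S ℓ (-1) := by
    rw [e3, e5, add_mul, mul_add, one_mul, mul_one]
  have h3 := evR_conj h1 h2 w
  have h4 : evR (aM (n + 2) S ℓ (-1)) (bM (n + 2) S ℓ (-1)) w =
      Gi (n + 2) S ℓ (-1) * evR (AM (n + 2) S ℓ (-1)) (bM (n + 2) S ℓ (-1)) w *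
        Gm (n + 2) S ℓ (-1) := by
    rw [h3, mul_assoc, Gi_Gm, mul_one]
  unfold lam
  rw [h4, e2, mul_one, e5]
  have h5 : evR (AM (n + 2) S ℓ (-1)) (bM (n + 2) S ℓ (-1)) w * Gm (n + 2) S ℓ (-1) -
      (1 + yM (n + 2) S ℓ) * evR (AM (n + 2) S ℓ (-1)) (bM (n + 2) S ℓ (-1)) w *
        Gm (n + 2) S ℓ (-1) = -(yM (n + 2) S ℓ *
        (evR (AM (n + 2) S ℓ (-1)) (bM (n + 2) S ℓ (-1)) w * Gm (n + 2) S ℓ (-1))) := by
    rw [add_mul, add_mul, one_mul, mul_assoc (yM (n + 2) S ℓ)]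
    abel
  rw [h5, Matrix.neg_apply, row_zero hℓ, neg_zero]

/-! ### support -/

omit [Algebra ℚ S] in
lemma evR_append (A B : Mt r S) (v w : List Bool) :
    evR A B (v ++ w) = evR A B w * evR A B v := by
  induction v with
  | nil => rw [List.nil_append, evR_nil, mul_one]
  | cons c v ih => rw [List.cons_append, evR_cons, evR_cons, ih, mul_assoc]

lemma not_adm {w : List Bool} (hw : w ≠ []) (h : ¬ Adm w) :
    (∃ v, w = false :: v) ∨ (∃ v, w = v ++ [true]) := by
  obtain ⟨v, c, rfl⟩ := List.eq_nil_or_concat w |>.resolve_left hw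
  rw [List.concat_eq_append] at *
  cases c with
  | true => exact Or.inr ⟨v, rfl⟩
  | false =>
    left
    cases v with
    | nil => exact ⟨[], rfl⟩
    | cons c' v =>
      cases c' with
      | false => exact ⟨v ++ [false], rfl⟩
      | true =>
        refine absurd ⟨rfl, ?_⟩ h
        rw [List.getLast?_append]
        rfl

lemma nu_supp {n : ℕ} (hℓ : ℓ (n + 1) = true) (hℓ0 : ℓ 0 = false) {w : List Bool}
    (hw : w ≠ []) (h : ¬ Adm w) : nu (n + 2) S ℓ g w = 0 := by
  unfold nu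
  rcases not_adm hw h with ⟨v, rfl⟩ | ⟨v, rfl⟩
  · rw [evR_cons, if_neg (by decide), aM, ← mul_assoc]
    exact col_zero hℓ _ _
  · rw [evR_append, evR_cons, if_pos rfl, evR_nil, one_mul, bM, mul_assoc]
    exact row_zero hℓ0 _ _

lemma lam_supp {n : ℕ} (hℓ : ℓ (n + 1) = true) (hℓ0 : ℓ 0 = false) {w : List Bool}
    (hw : w ≠ []) (h : ¬ Adm w) : lam (n + 2) S ℓ g w = 0 := by
  have h1 := nu_supp g hℓ hℓ0 hw h
  unfold nu at h1
  unfold lam
  rw [Matrix.sub_apply, h1, sub_zero]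
  rcases not_adm hw h with ⟨v, rfl⟩ | ⟨v, rfl⟩
  · have e : evR (AM (n + 2) S ℓ g) (bM (n + 2) S ℓ g) (false :: v) * Fm (n + 2) S ℓ g *
        Gm (n + 2) S ℓ g = evR (AM (n + 2) S ℓ g) (bM (n + 2) S ℓ g) v * Fm (n + 2) S ℓ g *
          xM (n + 2) S ℓ := by
      rw [evR_cons, if_neg (by decide), AM]
      simp only [mul_assoc]
      rw [← mul_assoc (Fi (n + 2) S ℓ g) (Fm (n + 2) S ℓ g), Fi_Fm, one_mul, Gi_Gm, mul_one]
    rw [e]
    exact col_zero hℓ _ _
  · rw [evR_append, evR_cons, if_pos rfl, evR_nil, one_mul]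
    rw [show bM (n + 2) S ℓ g = yM (n + 2) S ℓ * Fi (n + 2) S ℓ g from rfl]
    simp only [mul_assoc]
    exact row_zero hℓ0 _ _

lemma nu_nil {n : ℕ} : nu (n + 2) S ℓ g [] = 0 := by
  unfold nu
  rw [evR_nil]
  apply Matrix.one_apply_ne
  intro h
  simp [Fin.ext_iff] at h

/-! ### the top coefficient -/

lemma aM_sub_up : Up 2 (aM r S ℓ g - Lt r S ℓ false) := by
  have : aM r S ℓ g - Lt r S ℓ false =
      (xM r S ℓ - Lt r S ℓ false) - g • (yM r S ℓ * xM r S ℓ) := by
    unfold aM Gi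
    rw [sub_mul, one_mul, Matrix.smul_mul]
    abel
  rw [this]
  exact (xM_sub_up ℓ).sub (((yM_up ℓ).mul (xM_up ℓ)).smul _)

lemma bM_sub_up : Up 2 (bM r S ℓ g - Lt r S ℓ true) := by
  have : bM r S ℓ g - Lt r S ℓ true =
      (yM r S ℓ - Lt r S ℓ true) - (1 + g) • (yM r S ℓ * xM r S ℓ) := by
    unfold bM Fi
    rw [mul_sub, mul_one, Matrix.mul_smul]
    abel
  rw [this]
  exact (yM_sub_up ℓ).sub (((yM_up ℓ).mul (xM_up ℓ)).smul _)

lemma evR_sub_up (w : List Bool) :
    Up (w.length + 1) (evR (aM r S ℓ g) (bM r S ℓ g) w -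
      evR (Lt r S ℓ false) (Lt r S ℓ true) w) := by
  induction w with
  | nil => rw [evR_nil, evR_nil, sub_self]; exact Up_zero _
  | cons c w ih =>
    rw [evR_cons, evR_cons, List.length_cons]
    have key : ∀ P Q P' Q' : Mt r S, P * Q - P' * Q' = (P - P') * Q + P' * (Q - Q') := by
      intro P Q P' Q'
      rw [sub_mul, mul_sub]
      abel
    rw [key]
    apply Up.add
    · apply ih.mul
      split_ifs
      · exact bM_up r S ℓ g
      · exact aM_up r S ℓ g
    · refine (evR_up (Lt_up ℓ false) (Lt_up ℓ true) w).mul (t := 2) ?_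
      split_ifs
      · exact bM_sub_up g
      · exact aM_sub_up g

lemma nu_top {w : List Bool} (hw : w.length = r) :
    nu r S ℓ g w = if w = pre ℓ r then 1 else 0 := by
  have h1 := evR_sub_up (r := r) (ℓ := ℓ) g w 0 (Fin.last r) (by
    rw [hw]
    simp)
  rw [Matrix.sub_apply, sub_eq_zero] at h1
  unfold nu
  rw [h1]
  subst hw
  exact evR_Lt ℓ w (Nat.lt_succ_self _)

end

end MPa7fa83.Ok
end
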