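import Pool.Agent.Lib.MP_a7fa83_ag.Ok.Box

/-!
# MP_a7fa83_ag, trivial `M`: boundaries of partitions

`colh s i` is the number of parts `> i` (the height of the column `i`), `bd s m` the boundary (a
step list) of the partition with multiset of parts `s`, cut after the column `m` (for partitions
with all parts `≤ m`).
-/

set_option autoImplicit false

namespace MPa7fa83.Ok

open Finset

section

variable {Λ : Type*} [CommRing Λ] [Algebra ℚ Λ]

/-- height of the column `i` -/
def colh (s : Multiset ℕ) (i : ℕ) : ℕ := (s.filter (i < ·)).card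

/-- the boundary: `L U^(mult of 1) L U^(mult of 2) ... L U^(mult of m)`, last step first -/
def bd (s : Multiset ℕ) : ℕ → List Bool
  | 0 => []
  | m + 1 => List.replicate (s.count (m + 1)) true ++ (false :: bd s m)

lemma bd_congr {s s' : Multiset ℕ} {m : ℕ} (h : ∀ i, 1 ≤ i → i ≤ m → s.count i = s'.count i) :
    bd s m = bd s' m := by
  induction m with
  | zero => rfl
  | succ m ih =>
    have h1 := ih (fun i h1 h2 => h i h1 (h2.trans (Nat.le_succ m)))
    have h2 := h (m + 1) (Nat.succ_le_succ (Nat.zero_le m)) le_rfl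
    simp only [bd]
    rw [h1, h2]

private lemma Part_nL_rep (k : ℕ) (γ : List Bool) : nL (List.replicate k true ++ γ) = nL γ := by
  induction k with
  | zero => simp
  | succ k ih =>
    rw [List.replicate_succ, List.cons_append]
    simp only [nL, ih]
    simp

lemma nL_bd (s : Multiset ℕ) (m : ℕ) : nL (bd s m) = m := by
  induction m with
  | zero => rfl
  | succ m ih =>
    simp only [bd]
    rw [Part_nL_rep]
    simp only [nL, ih]
    simp

/-- adding a part `m + 1` adds a row step at the end -/
lemma bd_cons (s : Multiset ℕ) (m : ℕ) : bd ((m + 1) ::ₘ s) (m + 1) = true :: bd s (m + 1) := by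
  have h1 : bd ((m + 1) ::ₘ s) m = bd s m := bd_congr fun i _ h2 => by
    rw [Multiset.count_cons_of_ne (by omega)]
  simp only [bd]
  rw [h1, Multiset.count_cons_self, List.replicate_succ, List.cons_append]

/-- no part `m + 1` -/
lemma bd_succ_of_notMem {s : Multiset ℕ} {m : ℕ} (h : m + 1 ∉ s) :
    bd s (m + 1) = false :: bd s m := by
  simp only [bd]
  rw [Multiset.count_eq_zero_of_notMem h]
  rfl

private lemma Part_colh_cons (s : Multiset ℕ) (k i : ℕ) :
    colh (k ::ₘ s) i = colh s i + if i < k then 1 else 0 := by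
  unfold colh
  by_cases h : i < k
  · rw [Multiset.filter_cons_of_pos _ h, Multiset.card_cons, if_pos h]
  · rw [Multiset.filter_cons_of_neg _ h, if_neg h, Nat.add_zero]

private lemma Part_colh_zero {s : Multiset ℕ} {i : ℕ} (h : ∀ k ∈ s, k ≤ i) : colh s i = 0 := by
  unfold colh
  rw [Multiset.card_eq_zero, Multiset.filter_eq_nil]
  intro k hk
  exact not_lt.2 (h k hk)

/-- Box sums of a multiset of positive numbers `≤ m` with sum `≤ n`.  Induction on `m` and on the
multiplicity of `m`: `colh ((m+1) ::ₘ s) i = colh s i + 1` for `i ≤ m`, `colh s i = 0` for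
`i ≥` all parts. -/
theorem bs_bd (φ : ℕ → ℕ → Λ) (s : Multiset ℕ) (m n : ℕ) (hpos : ∀ i ∈ s, 0 < i)
    (hm : ∀ i ∈ s, i ≤ m) (hn : ∀ i ∈ s, i ≤ n) :
    bs (bd s m) φ = ∑ i ∈ range n, ∑ j ∈ range (colh s i), φ i j := by
  induction m generalizing s φ with
  | zero =>
    have hs : s = 0 := Multiset.eq_zero_of_forall_notMem fun i hi => by
      have h1 := hpos i hi
      have h2 := hm i hi
      omega
    subst hs
    simp [bd, bs, colh]
  | succ m ih =>
    obtain ⟨c, hc⟩ : ∃ c, s.count (m + 1) = c := ⟨_, rfl⟩
    induction c generalizing s φ with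
    | zero =>
      have h1 : m + 1 ∉ s := Multiset.count_eq_zero.1 hc
      rw [bd_succ_of_notMem h1]
      simp only [bs]
      refine ih φ s hpos (fun i hi => ?_) hn
      have h2 := hm i hi
      have h3 : i ≠ m + 1 := fun h => h1 (h ▸ hi)
      omega
    | succ c ihc =>
      have h1 : m + 1 ∈ s := Multiset.count_pos.1 (by omega)
      obtain ⟨s', rfl⟩ := Multiset.exists_cons_of_mem h1
      rw [Multiset.count_cons_self] at hc
      have hmn : m + 1 ≤ n := hn _ h1
      have hm' : ∀ i ∈ s', i ≤ m + 1 := fun i hi => hm i (Multiset.mem_cons_of_mem hi)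
      have h2 := ihc (fun i j => φ i (j + 1)) s' (fun i hi => hpos i (Multiset.mem_cons_of_mem hi))
        hm' (fun i hi => hn i (Multiset.mem_cons_of_mem hi)) (by omega)
      rw [bd_cons]
      simp only [bs]
      rw [h2, nL_bd]
      have h3 : ∑ i ∈ range (m + 1), φ i 0 = ∑ i ∈ range n, if i < m + 1 then φ i 0 else 0 := by
        rw [← Finset.sum_filter]
        refine Finset.sum_congr ?_ fun _ _ => rfl
        ext i
        simp only [Finset.mem_range, Finset.mem_filter]
        omega
      rw [h3, ← Finset.sum_add_distrib]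
      refine Finset.sum_congr rfl fun i _ => ?_
      rw [Part_colh_cons]
      by_cases hi : i < m + 1
      · rw [if_pos hi, if_pos hi, Finset.sum_range_succ', add_comm]
      · rw [if_neg hi, if_neg hi, Part_colh_zero (fun k hk => (hm' k hk).trans (not_lt.1 hi))]
        simp

/-- for functions which do not see a last column step, `m` does not matter -/
lemma bd_stable {h : List Bool → Λ} (hh : ∀ β, h (false :: β) = h β) {s : Multiset ℕ} {m m' : ℕ}
    (hm : ∀ i ∈ s, i ≤ m) (hmm' : m ≤ m') : h (bd s m') = h (bd s m) := by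
  induction m', hmm' using Nat.le_induction with
  | base => rfl
  | succ k hk ih =>
    rw [bd_succ_of_notMem (fun h1 => by
      have := hm _ h1
      omega), hh, ih]

end

end MPa7fa83.Ok
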