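import Pool.Agent.Lib.MP_a7fa83_ag.Ok.Formal
import Pool.Agent.Lib.MP_a7fa83_ag.Ok.Defs
import Pool.Agent.Lib.MP_a7fa83_ag.Ok.Part
import Pool.Agent.Lib.MP_a7fa83_ag.Words

section

section

/-!
# MP_a7fa83_ag, trivial `M`: degrees of the coefficients `lam` and `nu`

Over `ℚ[g]`, `Dg s M` says that `M i j` has degree `< j + 1 - (i + s)`.
-/

set_option autoImplicit false

namespace MPa7fa83.Ok

open Finset Polynomial

section

variable {r : ℕ}

/-- degree filtration -/
def Dg (s : ℕ) (M : Mt r ℚ[X]) : Prop :=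
  ∀ i j : Fin (r + 1), M i j ∈ degreeLT ℚ ((j : ℕ) + 1 - (i + s))

lemma mem_degreeLT_zero {p : ℚ[X]} (h : p ∈ degreeLT ℚ 0) : p = 0 := by
  rw [mem_degreeLT] at h
  by_contra hp
  have := (Polynomial.zero_le_degree_iff.2 hp)
  exact absurd (lt_of_le_of_lt this h) (by simp)

lemma degreeLT_mul {p q : ℚ[X]} {a b c : ℕ} (hp : p ∈ degreeLT ℚ a) (hq : q ∈ degreeLT ℚ b)
    (h : a + b ≤ c + 1) : p * q ∈ degreeLT ℚ c := by
  by_cases hp0 : p = 0
  · rw [hp0, zero_mul]; exact zero_mem _
  by_cases hq0 : q = 0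
  · rw [hq0, mul_zero]; exact zero_mem _
  rw [mem_degreeLT] at hp hq ⊢
  rw [Polynomial.degree_eq_natDegree hp0] at hp
  rw [Polynomial.degree_eq_natDegree hq0] at hq
  rw [Polynomial.degree_mul, Polynomial.degree_eq_natDegree hp0,
    Polynomial.degree_eq_natDegree hq0]
  norm_cast at hp hq ⊢
  omega

lemma degreeLT_mono' {p : ℚ[X]} {a b : ℕ} (hp : p ∈ degreeLT ℚ a) (h : a ≤ b) :
    p ∈ degreeLT ℚ b := degreeLT_mono h hp

lemma Dg.mono {s t : ℕ} {M : Mt r ℚ[X]} (h : Dg t M) (hst : s ≤ t) : Dg s M :=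
  fun i j => degreeLT_mono' (h i j) (by omega)

lemma Dg.up {s : ℕ} {M : Mt r ℚ[X]} (h : Dg s M) : Up s M := by
  intro i j hij
  apply mem_degreeLT_zero
  have := h i j
  rwa [show (j : ℕ) + 1 - (i + s) = 0 by omega] at this

lemma Dg.mul {s t : ℕ} {M M' : Mt r ℚ[X]} (h : Dg s M) (h' : Dg t M') : Dg (s + t) (M * M') := by
  intro i j
  rw [Matrix.mul_apply]
  apply Submodule.sum_mem
  intro k _
  by_cases h1 : (k : ℕ) < i + s
  · rw [h.up i k h1, zero_mul]; exact zero_mem _
  by_cases h2 : (j : ℕ) < k + t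
  · rw [h'.up k j h2, mul_zero]; exact zero_mem _
  exact degreeLT_mul (h i k) (h' k j) (by omega)

lemma Dg.add {s : ℕ} {M M' : Mt r ℚ[X]} (h : Dg s M) (h' : Dg s M') : Dg s (M + M') :=
  fun i j => add_mem (h i j) (h' i j)

lemma Dg.sub {s : ℕ} {M M' : Mt r ℚ[X]} (h : Dg s M) (h' : Dg s M') : Dg s (M - M') :=
  fun i j => sub_mem (h i j) (h' i j)

/-- multiplication by a polynomial of degree `≤ 1` -/
lemma Dg.smul_one {s : ℕ} {M : Mt r ℚ[X]} {p : ℚ[X]} (hp : p ∈ degreeLT ℚ 2) (h : Dg (s + 1) M) :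
    Dg s (p • M) := by
  intro i j
  rw [Matrix.smul_apply, smul_eq_mul]
  by_cases h1 : (j : ℕ) < i + (s + 1)
  · rw [h.up i j h1, mul_zero]; exact zero_mem _
  exact degreeLT_mul hp (h i j) (by omega)

lemma C_mem_degreeLT (a : ℚ) {n : ℕ} (hn : 1 ≤ n) : C a ∈ degreeLT ℚ n := by
  rw [mem_degreeLT]
  exact lt_of_le_of_lt degree_C_le (by exact_mod_cast hn)

lemma Dg_const {s : ℕ} {M : Mt r ℚ} (h : Up s M) : Dg s (M.map (Algebra.ofId ℚ ℚ[X])) := by
  intro i j
  rw [Matrix.map_apply]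
  by_cases h1 : (j : ℕ) < i + s
  · rw [h i j h1, map_zero]; exact zero_mem _
  · exact C_mem_degreeLT _ (by omega)

lemma Dg_one : Dg 0 (1 : Mt r ℚ[X]) := by
  have := Dg_const (r := r) Up_one
  rwa [one_map_alg] at this

lemma X_mem2 : (X : ℚ[X]) ∈ degreeLT ℚ 2 := by
  rw [mem_degreeLT, degree_X]
  norm_num

lemma one_add_X_mem2 : (1 + X : ℚ[X]) ∈ degreeLT ℚ 2 := by
  refine add_mem ?_ X_mem2
  rw [mem_degreeLT, degree_one]
  norm_num

lemma Dg.pow {M : Mt r ℚ[X]} (h : Dg 0 M) (n : ℕ) : Dg 0 (M ^ n) := by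
  induction n with
  | zero => rw [pow_zero]; exact Dg_one
  | succ n ih =>
    have := ih.mul h
    rw [add_zero] at this
    rw [pow_succ]
    exact this

lemma Dg_zero (s : ℕ) : Dg s (0 : Mt r ℚ[X]) := fun _ _ => zero_mem _

lemma Dg.gi {M : Mt r ℚ[X]} (h : Dg 0 M) : Dg 0 (gi M) := by
  classical
  unfold Ok.gi
  have : ∀ T : Finset ℕ, Dg 0 (∑ k ∈ T, M ^ k) := by
    intro T
    induction T using Finset.induction_on with
    | empty => exact Dg_zero 0
    | insert a T ha ih =>
      rw [Finset.sum_insert ha]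
      exact (h.pow a).add ih
  exact this _

lemma Dg_evR {A B : Mt r ℚ[X]} (hA : Dg 1 A) (hB : Dg 1 B) (w : List Bool) :
    Dg w.length (evR A B w) := by
  induction w with
  | nil => exact Dg_one
  | cons c w ih =>
    rw [evR_cons, List.length_cons]
    apply ih.mul
    split_ifs
    · exact hB
    · exact hA

variable (r) (ℓ : ℕ → Bool)

lemma Dg_xM : Dg 1 (xM r ℚ[X] ℓ) := by
  have := Dg_const (xM_up (r := r) (S := ℚ) ℓ)
  rwa [xM_map] at this

lemma Dg_yM : Dg 1 (yM r ℚ[X] ℓ) := by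
  have := Dg_const (yM_up (r := r) (S := ℚ) ℓ)
  rwa [yM_map] at this

lemma Dg_Fi : Dg 0 (Fi r ℚ[X] ℓ X) := Dg_one.sub ((Dg_xM r ℓ).smul_one one_add_X_mem2)
lemma Dg_Gi : Dg 0 (Gi r ℚ[X] ℓ X) := Dg_one.sub ((Dg_yM r ℓ).smul_one X_mem2)
lemma Dg_Fm : Dg 0 (Fm r ℚ[X] ℓ X) := ((Dg_xM r ℓ).smul_one one_add_X_mem2).gi
lemma Dg_Gm : Dg 0 (Gm r ℚ[X] ℓ X) := ((Dg_yM r ℓ).smul_one X_mem2).gi
lemma Dg_aM : Dg 1 (aM r ℚ[X] ℓ X) := by
  have := (Dg_Gi r ℓ).mul (Dg_xM r ℓ)
  rwa [zero_add] at this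
lemma Dg_bM : Dg 1 (bM r ℚ[X] ℓ X) := by
  have := (Dg_yM r ℓ).mul (Dg_Fi r ℓ)
  rw [add_zero] at this
  exact this
lemma Dg_AM : Dg 1 (AM r ℚ[X] ℓ X) := by
  have := (((Dg_Fm r ℓ).mul (Dg_xM r ℓ)).mul (Dg_Gi r ℓ)).mul (Dg_Fi r ℓ)
  rw [zero_add, add_zero, add_zero] at this
  exact this

lemma nu_deg (w : List Bool) : nu r ℚ[X] ℓ X w ∈ degreeLT ℚ (r + 1 - w.length) := by
  have := Dg_evR (Dg_aM r ℓ) (Dg_bM r ℓ) w 0 (Fin.last r)
  simpa [nu] using this

lemma lam_deg (w : List Bool) : lam r ℚ[X] ℓ X w ∈ degreeLT ℚ (r + 1 - w.length) := by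
  have h1 := Dg_evR (Dg_aM r ℓ) (Dg_bM r ℓ) w
  have h2 := ((Dg_evR (Dg_AM r ℓ) (Dg_bM r ℓ) w).mul (Dg_Fm r ℓ)).mul (Dg_Gm r ℓ)
  rw [add_zero, add_zero] at h2
  have := (h2.sub h1) 0 (Fin.last r)
  simpa [lam] using this

end

section

variable {ℓ : ℕ → Bool}

/-- `g (g + 1)` divides `lam` -/
lemma lam_dvd {n : ℕ} (hℓ : ℓ (n + 1) = true) (hℓ0 : ℓ 0 = false) (w : List Bool) :
    ∃ μ ∈ degreeLT ℚ (n + 1 - w.length), lam (n + 2) ℚ[X] ℓ X w = X * (X + 1) * μ := by
  have h0 : (X : ℚ[X]) ∣ lam (n + 2) ℚ[X] ℓ X w := by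
    have h2 : (X : ℚ[X]) = X - C 0 := by simp
    rw [h2, Polynomial.dvd_iff_isRoot, Polynomial.IsRoot.def, ← h2]
    have := lam_map (r := n + 2) (ℓ := ℓ) (X : ℚ[X]) (Polynomial.aeval (0 : ℚ)) w
    rw [Polynomial.aeval_X, lam_zero hℓ] at this
    exact this.symm
  have h1 : (X + 1 : ℚ[X]) ∣ lam (n + 2) ℚ[X] ℓ X w := by
    have h2 : (X + 1 : ℚ[X]) = X - C (-1) := by simp
    rw [h2, Polynomial.dvd_iff_isRoot, Polynomial.IsRoot.def]
    have := lam_map (r := n + 2) (ℓ := ℓ) (X : ℚ[X]) (Polynomial.aeval (-1 : ℚ)) w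
    rw [Polynomial.aeval_X, lam_neg_one hℓ0] at this
    exact this.symm
  have hcop : IsCoprime (X : ℚ[X]) (X + 1) := ⟨-1, 1, by ring⟩
  obtain ⟨μ, hμ⟩ := hcop.mul_dvd h0 h1
  by_cases hz : μ = 0
  · exact ⟨0, zero_mem _, by rw [hμ, hz]⟩
  refine ⟨μ, ?_, hμ⟩
  have h3 := lam_deg (n + 2) ℓ w
  have hX1 : (X + 1 : ℚ[X]) ≠ 0 := (Polynomial.monic_X_add_C (1 : ℚ)).ne_zero
  have hne : (X * (X + 1) * μ : ℚ[X]) ≠ 0 :=
    mul_ne_zero (mul_ne_zero Polynomial.X_ne_zero hX1) hz
  rw [hμ, mem_degreeLT, Polynomial.degree_eq_natDegree hne, Polynomial.natDegree_mul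
    (mul_ne_zero Polynomial.X_ne_zero hX1) hz, Polynomial.natDegree_mul Polynomial.X_ne_zero hX1,
    Polynomial.natDegree_X] at h3
  have h4 : (X + 1 : ℚ[X]).natDegree = 1 := by
    have := Polynomial.natDegree_X_add_C (1 : ℚ)
    rwa [map_one] at this
  rw [h4] at h3
  rw [mem_degreeLT, Polynomial.degree_eq_natDegree hz]
  norm_cast at h3 ⊢
  omega

end

end MPa7fa83.Ok
end

section

/-!
# MP_a7fa83_ag, trivial `M`: the step from level `N` to level `N + 1`
-/

set_option autoImplicit false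

namespace MPa7fa83.Ok

open Finset

section

variable {R : Type*} [CommRing R] [Algebra ℚ R]

/-- the relation of the site weights -/
lemma site_rel {x : ℕ → R} (hx : Law x) (N k : ℕ) (hk : k < N) :
    sN x N false k * sN x N true k =
      gN x N * sN x N false k + (1 + gN x N) * sN x N true k := by
  have h := hx (N - k) (k + 1) (by omega) (by omega)
  rw [show N - k + (k + 1) = N + 1 by omega] at h
  have h2 := hR_add (R := R)
  simp only [sN, gN]
  linear_combination h + (x (k + 1) - hR R) * h2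

variable {r : ℕ} {ℓ : ℕ → Bool}

/-- the pencil in the order `F G` -/
lemma pencil_FG {g s0 s1 : R} (h : s0 * s1 = g * s0 + (1 + g) * s1) :
    1 - s0 • aM r R ℓ g - s1 • bM r R ℓ g = (1 - s1 • yM r R ℓ) * (1 - s0 • xM r R ℓ) := by
  have e1 : aM r R ℓ g = xM r R ℓ - g • (yM r R ℓ * xM r R ℓ) := by
    unfold aM Gi
    rw [sub_mul, one_mul, Matrix.smul_mul]
  have e2 : bM r R ℓ g = yM r R ℓ - (1 + g) • (yM r R ℓ * xM r R ℓ) := by
    unfold bM Fi
    rw [mul_sub, mul_one, Matrix.mul_smul]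
  rw [e1, e2]
  simp only [sub_mul, mul_sub, one_mul, mul_one, Matrix.smul_mul, Matrix.mul_smul]
  linear_combination (norm := module) (-h) • (yM r R ℓ * xM r R ℓ)

/-- the pencil in the order `G F`, conjugated by `F` -/
lemma pencil_GF {g s0 s1 : R} (h : s0 * s1 = g * s0 + (1 + g) * s1) :
    (1 - s0 • AM r R ℓ g - s1 • bM r R ℓ g) * Fm r R ℓ g =
      Fm r R ℓ g * (1 - s0 • xM r R ℓ) * (1 - s1 • yM r R ℓ) := by
  have e1 : AM r R ℓ g * Fm r R ℓ g = Fm r R ℓ g * (xM r R ℓ * Gi r R ℓ g) := by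
    unfold AM
    rw [mul_assoc _ (Fi r R ℓ g), Fi_Fm, mul_one, mul_assoc]
  have e2 : bM r R ℓ g * Fm r R ℓ g = Fm r R ℓ g * (Fi r R ℓ g * yM r R ℓ) := by
    unfold bM
    rw [mul_assoc, Fi_Fm, mul_one, ← mul_assoc, Fm_Fi, one_mul]
  have e3 : xM r R ℓ * Gi r R ℓ g = xM r R ℓ - g • (xM r R ℓ * yM r R ℓ) := by
    unfold Gi
    rw [mul_sub, mul_one, Matrix.mul_smul]
  have e4 : Fi r R ℓ g * yM r R ℓ = yM r R ℓ - (1 + g) • (xM r R ℓ * yM r R ℓ) := by
    unfold Fi
    rw [sub_mul, one_mul, Matrix.smul_mul]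
  rw [sub_mul, sub_mul, one_mul, Matrix.smul_mul, Matrix.smul_mul, e1, e2, e3, e4]
  simp only [sub_mul, mul_sub, mul_one, Matrix.smul_mul, Matrix.mul_smul, mul_assoc]
  linear_combination (norm := module) (-h) • (Fm r R ℓ g * (xM r R ℓ * yM r R ℓ))

/-- the matrix `Ψ_k(a, b)` of level `N` -/
def Th (r : ℕ) (ℓ : ℕ → Bool) (x : ℕ → R) (N k : ℕ) : Mt r R :=
  Ps (fun w => dco (sN x N) w k) (aM r R ℓ (gN x N)) (bM r R ℓ (gN x N))

/-- the matrix `Ψ_k(A, b)` of level `N` -/
def Th' (r : ℕ) (ℓ : ℕ → Bool) (x : ℕ → R) (N k : ℕ) : Mt r R :=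
  Ps (fun w => dco (sN x N) w k) (AM r R ℓ (gN x N)) (bM r R ℓ (gN x N))

lemma Th_zero (x : ℕ → R) (N : ℕ) : Th r ℓ x N 0 = 1 := Ps_dco_zero _ _ _

lemma Th'_zero (x : ℕ → R) (N : ℕ) : Th' r ℓ x N 0 = 1 := Ps_dco_zero _ _ _

lemma Th_succ {x : ℕ → R} (hx : Law x) {N k : ℕ} (hk : k < N) :
    Th r ℓ x N (k + 1) * (1 - sN x N true k • yM r R ℓ) * (1 - sN x N false k • xM r R ℓ) =
      Th r ℓ x N k := by
  rw [mul_assoc, ← pencil_FG (site_rel hx N k hk)]
  exact Ps_dco_succ _ _ (aM_up r R ℓ _) (bM_up r R ℓ _)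

lemma Th'_succ {x : ℕ → R} (hx : Law x) {N k : ℕ} (hk : k < N) :
    Th' r ℓ x N (k + 1) * Fm r R ℓ (gN x N) * (1 - sN x N false k • xM r R ℓ) *
      (1 - sN x N true k • yM r R ℓ) = Th' r ℓ x N k * Fm r R ℓ (gN x N) := by
  rw [mul_assoc, mul_assoc, ← mul_assoc (Fm r R ℓ (gN x N)), ← pencil_GF (site_rel hx N k hk),
    ← mul_assoc]
  congr 1
  exact Ps_dco_succ _ _ (AM_up r R ℓ _) (bM_up r R ℓ _)

lemma xi_fac (s u : R) (h : s = u + hR R) :
    (1 - s • xM r R ℓ) * (1 + hR R • Lt r R ℓ false) = 1 - u • Lt r R ℓ false := by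
  rw [sub_mul, Matrix.smul_mul, xM_mul, one_mul, h, add_smul]
  abel

lemma eta_fac (s t : R) (h : s = t - hR R) :
    (1 - s • yM r R ℓ) * (1 + -hR R • Lt r R ℓ true) = 1 - t • Lt r R ℓ true := by
  have e : (1 : Mt r R) + -hR R • Lt r R ℓ true = 1 - hR R • Lt r R ℓ true := by
    rw [neg_smul, sub_eq_add_neg]
  rw [e, sub_mul, Matrix.smul_mul, yM_mul, one_mul, h, sub_smul]
  abel

/-- `cN` in terms of the matrices -/
lemma cN_eq_Th {x : ℕ → R} (hx : Law x) (N : ℕ) :
    cN x N (pre ℓ r) = Th r ℓ x N N 0 (Fin.last r) := by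
  have := row_cf ℓ (hR R) (-hR R) (fun i => x (N - i)) (fun i => x (i + 1)) N
    (fun k => Th r ℓ x N k) (fun k => Th r ℓ x N (k + 1) * (1 - sN x N true k • yM r R ℓ))
    (Th_zero x N)
    (fun k hk => by
      rw [← Th_succ hx hk, mul_assoc _ (1 - sN x N false k • xM r R ℓ),
        xi_fac (sN x N false k) (x (N - k)) rfl])
    (fun k hk => by
      rw [mul_assoc, eta_fac (sN x N true k) (x (k + 1)) rfl])
    N le_rfl r (Nat.lt_succ_self r)
  exact this.symm

/-- `cN` of level `N + 1` in terms of the matrices of level `N` -/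
lemma cN_succ_eq {x : ℕ → R} (hx : Law x) (N : ℕ) :
    cN x (N + 1) (pre ℓ r) =
      (Th' r ℓ x N N * Fm r R ℓ (gN x N) * Gm r R ℓ (gN x N)) 0 (Fin.last r) := by
  have hG : ∀ k, gi (sN x N true k • yM r R ℓ) * (1 - sN x N true k • yM r R ℓ) = 1 :=
    fun k => gi_mul ((yM_up ℓ).smul _)
  have hG' : ∀ k, (1 - sN x N true k • yM r R ℓ) * gi (sN x N true k • yM r R ℓ) = 1 :=
    fun k => mul_gi ((yM_up ℓ).smul _)
  let Φ : ℕ → Mt r R := fun k => Nat.casesOn k 1
    (fun k => Th' r ℓ x N k * Fm r R ℓ (gN x N) * gi (sN x N true k • yM r R ℓ))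
  have key : ∀ k < N + 1, Th' r ℓ x N k * Fm r R ℓ (gN x N) *
      (1 - sN x (N + 1) false k • xM r R ℓ) = Φ k := by
    intro k hk
    rcases k with _ | k
    · have e : sN x (N + 1) false 0 = 1 + gN x N := by
        simp only [sN, gN, Nat.sub_zero]
        linear_combination hR_add (R := R)
      rw [e, Th'_zero, one_mul]
      exact Fm_Fi r R ℓ (gN x N)
    · have e : sN x (N + 1) false (k + 1) = sN x N false k := by
        simp only [sN]
        rw [show N + 1 - (k + 1) = N - k by omega]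
      rw [e]
      have h1 := Th'_succ (r := r) (ℓ := ℓ) hx (N := N) (k := k) (by omega)
      have h2 := congrArg (fun M => M * gi (sN x N true k • yM r R ℓ)) h1
      rw [mul_assoc _ (1 - sN x N true k • yM r R ℓ), hG', mul_one] at h2
      exact h2
  have := row_cf ℓ (hR R) (-hR R) (fun i => x (N + 1 - i)) (fun i => x (i + 1)) (N + 1)
    Φ (fun k => Th' r ℓ x N k * Fm r R ℓ (gN x N)) rfl
    (fun k hk => by
      rw [← key k hk, mul_assoc _ (1 - sN x (N + 1) false k • xM r R ℓ),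
        xi_fac (sN x (N + 1) false k) (x (N + 1 - k)) rfl])
    (fun k hk => by
      have e : Φ (k + 1) = Th' r ℓ x N k * Fm r R ℓ (gN x N) *
        gi (sN x N true k • yM r R ℓ) := rfl
      rw [e, ← eta_fac (sN x N true k) (x (k + 1)) rfl, ← mul_assoc,
        mul_assoc _ (gi (sN x N true k • yM r R ℓ)), hG, mul_one])
    (N + 1) le_rfl r (Nat.lt_succ_self r)
  exact this.symm

omit [Algebra ℚ R] in
lemma Ps_mul_apply (f : List Bool → R) (A B M : Mt r R) (i j : Fin (r + 1)) :
    (Ps f A B * M) i j = ∑ n ∈ range (r + 1), sw n (fun w => f w * (evR A B w * M) i j) := by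
  unfold Ps
  rw [Finset.sum_mul, Matrix.sum_apply]
  apply Finset.sum_congr rfl
  intro n _
  rw [sw_mul]
  let φ : Mt r R →+ R :=
    { toFun := fun M => M i j
      map_zero' := rfl
      map_add' := fun _ _ => rfl }
  have := sw_map φ n (fun w => f w • evR A B w * M)
  refine this.trans (sw_congr fun w _ => ?_)
  change (f w • evR A B w * M) i j = _
  rw [Matrix.smul_mul, Matrix.smul_apply, smul_eq_mul]

/-- `cN` in terms of the weak sums -/
theorem cN_eq {x : ℕ → R} (hx : Law x) (N : ℕ) :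
    cN x N (pre ℓ r) =
      ∑ n ∈ range (r + 1), sw n (fun w => dN x N w * nu r R ℓ (gN x N) w) := by
  rw [cN_eq_Th hx N]
  unfold Th
  rw [Ps_apply]
  rfl

/-- the step from level `N` to level `N + 1` -/
theorem cN_diff {x : ℕ → R} (hx : Law x) (N : ℕ) :
    cN x (N + 1) (pre ℓ r) - cN x N (pre ℓ r) =
      ∑ n ∈ range (r + 1), sw n (fun w => dN x N w * lam r R ℓ (gN x N) w) := by
  rw [cN_succ_eq hx N, cN_eq hx N]
  unfold Th'
  rw [mul_assoc, Ps_mul_apply, ← Finset.sum_sub_distrib]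
  apply Finset.sum_congr rfl
  intro n _
  rw [sub_eq_iff_eq_add, ← sw_add]
  apply sw_congr
  intro w _
  unfold lam nu dN
  rw [Matrix.sub_apply, mul_assoc]
  ring

end

end MPa7fa83.Ok
end

section

/-!
# MP_a7fa83_ag, trivial `M`: the spans of nested sums
-/

set_option autoImplicit false

namespace MPa7fa83.Ok

open Finset Polynomial

section

variable {R : Type*} [CommRing R] [Algebra ℚ R]

lemma SS_mono (x : ℕ → R) {k k' : ℕ} (h : k ≤ k') : SS x k ≤ SS x k' := by
  refine Submodule.span_mono ?_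
  rintro F ⟨l, hl, hF⟩
  exact ⟨l, hl.trans h, hF⟩

lemma TT_mono (x : ℕ → R) {k k' : ℕ} (h : k ≤ k') : TT x k ≤ TT x k' := by
  refine Submodule.span_mono ?_
  rintro F ⟨l, j, hl, hF⟩
  exact ⟨l, j, hl.trans h, hF⟩

lemma one_mem_TT (x : ℕ → R) : (fun _ => (1 : R)) ∈ TT x 0 := by
  refine Submodule.subset_span ⟨[], 0, by simp [wtl], ?_⟩
  funext N
  simp [zt]

lemma one_mem_SS (x : ℕ → R) : (fun _ => (1 : R)) ∈ SS x 0 := by
  refine Submodule.subset_span ⟨[], by simp [wtl], ?_⟩
  funext N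
  simp [zt]

lemma SS_le_TT {x : ℕ → R} {k : ℕ} {F : ℕ → R} (hF : F ∈ SS x k) : F ∈ TT x k := by
  refine Submodule.span_mono (R := ℚ) ?_ hF
  rintro F ⟨l, hl, rfl⟩
  refine ⟨l, 0, by simpa using hl, ?_⟩
  funext N
  simp

/-- multiplication by a polynomial in `g_N` -/
lemma TT_mul {x : ℕ → R} {k m : ℕ} {F : ℕ → R} (hF : F ∈ TT x k) {p : ℚ[X]}
    (hp : p ∈ degreeLT ℚ (m + 1)) : (fun N => aeval (gN x N) p * F N) ∈ TT x (k + m) := by
  have hdeg : p.natDegree < m + 1 := by
    by_cases h0 : p = 0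
    · subst h0
      simp
    · exact (natDegree_lt_iff_degree_lt h0).2 (mem_degreeLT.1 hp)
  refine Submodule.span_induction (p := fun F _ => (fun N => aeval (gN x N) p * F N) ∈
    TT x (k + m)) ?_ ?_ ?_ ?_ hF
  · rintro F ⟨l, j, hl, rfl⟩
    have e : (fun N => aeval (gN x N) p * (gN x N ^ j * zt x l (N + 1))) =
        ∑ i ∈ Finset.range (m + 1), p.coeff i • fun N => gN x N ^ (i + j) * zt x l (N + 1) := by
      funext N
      rw [aeval_eq_sum_range' hdeg, Finset.sum_mul, Finset.sum_apply]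
      refine Finset.sum_congr rfl fun i _ => ?_
      rw [Pi.smul_apply, smul_mul_assoc, pow_add, mul_assoc]
    rw [e]
    refine Submodule.sum_mem _ fun i hi => Submodule.smul_mem _ _ ?_
    refine Submodule.subset_span ⟨l, i + j, ?_, rfl⟩
    have := Finset.mem_range.1 hi
    omega
  · have e : (fun N => aeval (gN x N) p * (0 : ℕ → R) N) = 0 := by
      funext N
      simp
    rw [e]
    exact Submodule.zero_mem _
  · intro F G _ _ h1 h2
    have e : (fun N => aeval (gN x N) p * (F + G) N) =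
        (fun N => aeval (gN x N) p * F N) + fun N => aeval (gN x N) p * G N := by
      funext N
      simp [mul_add]
    rw [e]
    exact Submodule.add_mem _ h1 h2
  · intro c F _ h1
    have e : (fun N => aeval (gN x N) p * (c • F) N) =
        c • fun N => aeval (gN x N) p * F N := by
      funext N
      simp
    rw [e]
    exact Submodule.smul_mem _ _ h1

/-- Summation.  By `Submodule.span_induction` it is enough to treat
`G N = ∑ n < N, g_n (g_n + 1) g_n^j zt x l (n+1)`; here `g_n (g_n + 1) = x (n+1) ^ 2 - 1/4` and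
`g_n ^ j = (x (n+1) - 1/2) ^ j` is a combination of `x (n+1) ^ i`, `i ≤ j`, so `G` is a
combination of the `zt x (i :: l)`. -/
lemma SS_of_diff {x : ℕ → R} {k : ℕ} {F t : ℕ → R} (ht : t ∈ TT x k) (h0 : F 0 = 0)
    (h : ∀ N, F (N + 1) - F N = gN x N * (gN x N + 1) * t N) : F ∈ SS x (k + 2) := by
  have key : (fun N => ∑ n ∈ Finset.range N, gN x n * (gN x n + 1) * t n) ∈ SS x (k + 2) := by
    refine Submodule.span_induction (p := fun t _ =>
      (fun N => ∑ n ∈ Finset.range N, gN x n * (gN x n + 1) * t n) ∈ SS x (k + 2))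
      ?_ ?_ ?_ ?_ ht
    · rintro t ⟨l, j, hl, rfl⟩
      have hg : ∀ n, gN x n * (gN x n + 1) = x (n + 1) ^ 2 - hR R ^ 2 := by
        intro n
        have h2 : (1 : R) = hR R + hR R := hR_add.symm
        unfold gN
        rw [h2]
        ring
      have hpow : ∀ n, gN x n ^ j = ∑ i ∈ Finset.range (j + 1),
          (((-1 / 2 : ℚ) ^ (j - i) * (j.choose i : ℚ)) • x (n + 1) ^ i) := by
        intro n
        unfold gN
        rw [sub_eq_add_neg, add_pow]
        refine Finset.sum_congr rfl fun i _ => ?_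
        have h1 : (-hR R) = algebraMap ℚ R (-1 / 2) := by
          unfold hR
          rw [← map_neg]
          norm_num
        rw [h1, ← map_pow, Algebra.smul_def, map_mul, map_natCast]
        ring
      have e : (fun N => ∑ n ∈ Finset.range N,
          gN x n * (gN x n + 1) * (gN x n ^ j * zt x l (n + 1))) =
          ∑ i ∈ Finset.range (j + 1), ((-1 / 2 : ℚ) ^ (j - i) * (j.choose i : ℚ)) •
            fun N => zt x (i :: l) (N + 1) := by
        funext N
        rw [Finset.sum_apply]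
        have e1 : ∀ i, zt x (i :: l) (N + 1) = ∑ n ∈ Finset.range N,
            (x (n + 1) ^ 2 - hR R ^ 2) * x (n + 1) ^ i * zt x l (n + 1) := by
          intro i
          rw [zt, Finset.sum_Ico_eq_sum_range]
          refine Finset.sum_congr (by simp) fun n _ => ?_
          rw [add_comm 1 n]
        simp only [Pi.smul_apply, e1, Finset.smul_sum]
        rw [Finset.sum_comm]
        refine Finset.sum_congr rfl fun n _ => ?_
        rw [hg, hpow, Finset.sum_mul, Finset.mul_sum]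
        refine Finset.sum_congr rfl fun i _ => ?_
        simp only [Algebra.smul_def]
        ring
      rw [e]
      refine Submodule.sum_mem _ fun i hi => Submodule.smul_mem _ _ ?_
      refine Submodule.subset_span ⟨i :: l, ?_, rfl⟩
      have h1 := Finset.mem_range.1 hi
      have h2 : wtl (i :: l) = (i + 2) + wtl l := by
        simp [wtl]
      omega
    · have e : (fun N => ∑ n ∈ Finset.range N, gN x n * (gN x n + 1) * (0 : ℕ → R) n) = 0 := by
        funext N
        simp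
      rw [e]
      exact Submodule.zero_mem _
    · intro F G _ _ h1 h2
      have e : (fun N => ∑ n ∈ Finset.range N, gN x n * (gN x n + 1) * (F + G) n) =
          (fun N => ∑ n ∈ Finset.range N, gN x n * (gN x n + 1) * F n) +
            fun N => ∑ n ∈ Finset.range N, gN x n * (gN x n + 1) * G n := by
        funext N
        simp [mul_add, Finset.sum_add_distrib]
      rw [e]
      exact Submodule.add_mem _ h1 h2
    · intro c F _ h1
      have e : (fun N => ∑ n ∈ Finset.range N, gN x n * (gN x n + 1) * (c • F) n) =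
          c • fun N => ∑ n ∈ Finset.range N, gN x n * (gN x n + 1) * F n := by
        funext N
        simp [Finset.smul_sum]
      rw [e]
      exact Submodule.smul_mem _ _ h1
  have e : F = fun N => ∑ n ∈ Finset.range N, gN x n * (gN x n + 1) * t n := by
    funext N
    induction N with
    | zero => simpa using h0
    | succ N ih =>
      rw [Finset.sum_range_succ, ← ih, ← h N]
      ring
  rw [e]
  exact key

end

end MPa7fa83.Ok
end
end

section

section

/-!
# MP_a7fa83_ag, trivial `M`: sums over partitions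

`Am m h n` is the sum of `h (boundary)` over the partitions of `n` with all parts `≤ m`.
-/

set_option autoImplicit false

namespace MPa7fa83.Ok

open Finset

section

variable {Λ : Type*} [CommRing Λ] [Algebra ℚ Λ]

/-- sum over the partitions of `n` with parts `≤ m` -/
def Am (m : ℕ) (h : List Bool → Λ) (n : ℕ) : Λ :=
  ∑ p ∈ (Finset.univ : Finset n.Partition).filter (fun p => ∀ i ∈ p.parts, i ≤ m),
    h (bd p.parts m)

/-- `Am 0 h n`: only the empty partition -/
lemma Am_zero (h : List Bool → Λ) (n : ℕ) : Am 0 h n = if n = 0 then h [] else 0 := by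
  unfold Am
  by_cases hn : n = 0
  · subst hn
    rw [if_pos rfl]
    have e : (Finset.univ : Finset (Nat.Partition 0)).filter (fun p => ∀ i ∈ p.parts, i ≤ 0) =
        {default} := by
      ext p
      simp only [Finset.mem_filter, Finset.mem_univ, true_and, Finset.mem_singleton]
      constructor
      · intro _
        exact Subsingleton.elim _ _
      · intro _ i hi
        have h1 : i ≤ p.parts.sum := Multiset.le_sum_of_mem hi
        rw [p.parts_sum] at h1
        exact h1
    rw [e, Finset.sum_singleton]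
    rfl
  · rw [if_neg hn]
    apply Finset.sum_eq_zero
    intro p hp
    exfalso
    rw [Finset.mem_filter] at hp
    have h0 : p.parts = 0 := by
      apply Multiset.eq_zero_of_forall_notMem
      intro i hi
      have h1 := hp.2 i hi
      have h2 := p.parts_pos hi
      omega
    have h3 := p.parts_sum
    rw [h0, Multiset.sum_zero] at h3
    exact hn h3.symm

/-- The partitions of `n` with parts `≤ m + 1` either have no part `m + 1` (then they have parts
`≤ m`, `bd_succ_of_notMem`) or arise from a partition of `n - (m + 1)` with parts `≤ m + 1` by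
adding a part `m + 1` (`bd_cons`). -/
theorem Am_succ (m : ℕ) (h : List Bool → Λ) (n : ℕ) :
    Am (m + 1) h n = Am m (fun β => h (false :: β)) n +
      if m + 1 ≤ n then Am (m + 1) (fun β => h (true :: β)) (n - (m + 1)) else 0 := by
  unfold Am
  rw [← Finset.sum_filter_add_sum_filter_not
    ((Finset.univ : Finset n.Partition).filter (fun p => ∀ i ∈ p.parts, i ≤ m + 1))
    (fun p => m + 1 ∉ p.parts)]
  congr 1
  · have e : ((Finset.univ : Finset n.Partition).filter (fun p => ∀ i ∈ p.parts, i ≤ m + 1)).filter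
        (fun p => m + 1 ∉ p.parts) =
        (Finset.univ : Finset n.Partition).filter (fun p => ∀ i ∈ p.parts, i ≤ m) := by
      ext p
      simp only [Finset.mem_filter, Finset.mem_univ, true_and]
      constructor
      · rintro ⟨h1, h2⟩ i hi
        have h3 := h1 i hi
        have h4 : i ≠ m + 1 := by
          rintro rfl
          exact h2 hi
        omega
      · intro h1
        refine ⟨fun i hi => (h1 i hi).trans (Nat.le_succ m), fun h2 => ?_⟩
        have := h1 _ h2
        omega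
    rw [e]
    apply Finset.sum_congr rfl
    intro p hp
    rw [Finset.mem_filter] at hp
    rw [bd_succ_of_notMem]
    intro h2
    have := hp.2 _ h2
    omega
  · by_cases hmn : m + 1 ≤ n
    · rw [if_pos hmn]
      refine Finset.sum_bij'
        (i := fun p hp => (⟨p.parts.erase (m + 1), fun {i} hi =>
          p.parts_pos (Multiset.mem_of_mem_erase hi), by
            have h1 : m + 1 ∈ p.parts := by
              simp only [Finset.mem_filter, not_not] at hp
              exact hp.2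
            have h2 := Multiset.sum_erase h1
            rw [p.parts_sum] at h2
            omega⟩ : (n - (m + 1)).Partition))
        (j := fun q _ => (⟨(m + 1) ::ₘ q.parts, fun {i} hi => by
            rcases Multiset.mem_cons.mp hi with h | h
            · omega
            · exact q.parts_pos h, by
            rw [Multiset.sum_cons, q.parts_sum]
            omega⟩ : n.Partition)) ?_ ?_ ?_ ?_ ?_
      · intro p hp
        simp only [Finset.mem_filter, Finset.mem_univ, true_and, not_not] at hp ⊢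
        intro i hi
        exact hp.1 i (Multiset.mem_of_mem_erase hi)
      · intro q hq
        simp only [Finset.mem_filter, Finset.mem_univ, true_and, not_not] at hq ⊢
        refine ⟨?_, Multiset.mem_cons_self _ _⟩
        intro i hi
        rcases Multiset.mem_cons.mp hi with h | h
        · omega
        · exact hq i h
      · intro p hp
        simp only [Finset.mem_filter, Finset.mem_univ, true_and, not_not] at hp
        apply Nat.Partition.ext
        exact Multiset.cons_erase hp.2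
      · intro q hq
        apply Nat.Partition.ext
        exact Multiset.erase_cons_head _ _
      · intro p hp
        simp only [Finset.mem_filter, Finset.mem_univ, true_and, not_not] at hp
        have h1 := bd_cons (p.parts.erase (m + 1)) m
        rw [Multiset.cons_erase hp.2] at h1
        rw [h1]
    · rw [if_neg hmn]
      apply Finset.sum_eq_zero
      intro p hp
      exfalso
      simp only [Finset.mem_filter, Finset.mem_univ, true_and, not_not] at hp
      have h1 : m + 1 ≤ p.parts.sum := Multiset.le_sum_of_mem hp.2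
      rw [p.parts_sum] at h1
      exact hmn h1

/-- all partitions of `n` have parts `≤ n` -/
lemma Am_self (h : List Bool → Λ) (n : ℕ) : Am n h n = ∑ p : n.Partition, h (bd p.parts n) := by
  unfold Am
  have e : (Finset.univ : Finset n.Partition).filter (fun p => ∀ i ∈ p.parts, i ≤ n) =
      Finset.univ := by
    rw [Finset.filter_eq_self]
    intro p _ i hi
    have h1 : i ≤ p.parts.sum := Multiset.le_sum_of_mem hi
    rw [p.parts_sum] at h1
    exact h1
  rw [e]

end

end MPa7fa83.Ok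
end

section

/-!
# MP_a7fa83_ag, trivial `M`: duality

`cD x N w = cN x N w` for admissible words.  With `a, b` free letters and `K = 1 - a + b` the
weak sums satisfy `e ∏ (1 - s0 a - s1 b)⁻¹ v = e K ∏ [(1 - s0 a - s1 b)⁻¹ K] v` whenever
`e b = 0`, `a v = 0`; this is proved by induction on the level.
-/

set_option autoImplicit false

namespace MPa7fa83.Ok

open Finset

section

variable {R : Type*} [CommRing R]

/-- right multiplication by `1 - a + b` -/
def mK (f : List Bool → R) : List Bool → R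
  | [] => f []
  | c :: w => f (c :: w) + (if c = true then 1 else -1) * f w

/-- right multiplication by `(1 - s0 a - s1 b)⁻¹` -/
def rs (s0 s1 : R) (f : List Bool → R) : List Bool → R
  | [] => f []
  | c :: w => f (c :: w) + (if c = true then s1 else s0) * rs s0 s1 f w

/-- the coefficients of `K ∏_{i < k} [(1 - s false i a - s true i b)⁻¹ K]` -/
def dS (s : Bool → ℕ → R) : ℕ → List Bool → R
  | 0 => mK (fun w => if w = [] then 1 else 0)
  | k + 1 => mK (rs (s false k) (s true k) (dS s k))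

variable {r : ℕ}

lemma Ps_mK (f : List Bool → R) {A B : Mt r R} (hA : Up 1 A) (hB : Up 1 B) :
    Ps (mK f) A B = Ps f A B * (1 - A + B) := by
  have h := Ps_step (f := mK f) (f' := f) (s0 := 1) (s1 := -1) rfl (by
    intro c w
    simp only [mK]
    cases c <;> simp) hA hB
  rw [← h, one_smul, neg_smul, one_smul, sub_neg_eq_add]

lemma Ps_rs (s0 s1 : R) (f : List Bool → R) {A B : Mt r R} (hA : Up 1 A) (hB : Up 1 B) :
    Ps (rs s0 s1 f) A B * (1 - s0 • A - s1 • B) = Ps f A B :=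
  Ps_step (f := f) (f' := rs s0 s1 f) rfl (fun _ _ => rfl) hA hB

lemma dS_nil (s : Bool → ℕ → R) (k : ℕ) : dS s k [] = 1 := by
  induction k with
  | zero => simp [dS, mK]
  | succ k ih => simp only [dS, mK, rs]; exact ih

end

section

variable {R : Type*} [CommRing R] [Algebra ℚ R] {r : ℕ} {ℓ : ℕ → Bool}

lemma xi_fac' : (1 - xM r R ℓ) * (1 + hR R • Lt r R ℓ false) = 1 + -hR R • Lt r R ℓ false := by
  have h := xi_fac (r := r) (ℓ := ℓ) (1 : R) (hR R) (hR_add (R := R)).symm
  rw [one_smul] at h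
  rw [h, neg_smul, sub_eq_add_neg]

lemma eta_fac' : (1 + yM r R ℓ) * (1 + -hR R • Lt r R ℓ true) = 1 + hR R • Lt r R ℓ true := by
  have h := eta_fac (r := r) (ℓ := ℓ) (-1 : R) (-hR R) (by
    linear_combination hR_add (R := R))
  rw [neg_smul, one_smul, sub_neg_eq_add, neg_smul (hR R) (Lt r R ℓ true), sub_neg_eq_add] at h
  rw [← h, neg_smul]

lemma neg_yM_up : Up 1 (-yM r R ℓ) := (yM_up ℓ).neg

lemma giY_mul : gi (-yM r R ℓ) * (1 + yM r R ℓ) = 1 := by
  have := gi_mul (neg_yM_up (r := r) (R := R) (ℓ := ℓ))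
  rwa [sub_neg_eq_add] at this

lemma mul_giY : (1 + yM r R ℓ) * gi (-yM r R ℓ) = 1 := by
  have := mul_gi (neg_yM_up (r := r) (R := R) (ℓ := ℓ))
  rwa [sub_neg_eq_add] at this

lemma giX_mul : gi (xM r R ℓ) * (1 - xM r R ℓ) = 1 := gi_mul (xM_up ℓ)

lemma mul_giX : (1 - xM r R ℓ) * gi (xM r R ℓ) = 1 := mul_gi (xM_up ℓ)

/-- `1 - a + b = (1 + y)(1 - x)` -/
lemma K_eq (g : R) : 1 - aM r R ℓ g + bM r R ℓ g = (1 + yM r R ℓ) * (1 - xM r R ℓ) := by
  unfold aM bM Gi Fi
  simp only [sub_mul, mul_sub, add_mul, one_mul, mul_one, Matrix.smul_mul, Matrix.mul_smul]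
  module

/-- the letters `x (1 - g y)` and `(1 - (1+g) x) y` -/
def aB (r : ℕ) (ℓ : ℕ → Bool) (g : R) : Mt r R := xM r R ℓ * Gi r R ℓ g
/-- the letters `x (1 - g y)` and `(1 - (1+g) x) y` -/
def bB (r : ℕ) (ℓ : ℕ → Bool) (g : R) : Mt r R := Fi r R ℓ g * yM r R ℓ

lemma aB_up (g : R) : Up 1 (aB r ℓ g) := (xM_up ℓ).mul (Gi_up r R ℓ g)

lemma bB_up (g : R) : Up 1 (bB r ℓ g) := by
  have := (Fi_up r R ℓ g).mul (yM_up (r := r) (S := R) ℓ)
  rwa [zero_add] at this

lemma KB_eq (g : R) : 1 - aB r ℓ g + bB r ℓ g = (1 - xM r R ℓ) * (1 + yM r R ℓ) := by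
  unfold aB bB Gi Fi
  simp only [sub_mul, mul_sub, mul_add, one_mul, mul_one, Matrix.smul_mul, Matrix.mul_smul]
  module

lemma pencil_B {g s0 s1 : R} (h : s0 * s1 = g * s0 + (1 + g) * s1) :
    1 - s0 • aB r ℓ g - s1 • bB r ℓ g = (1 - s0 • xM r R ℓ) * (1 - s1 • yM r R ℓ) := by
  unfold aB bB Gi Fi
  simp only [sub_mul, mul_sub, one_mul, mul_one, Matrix.smul_mul, Matrix.mul_smul]
  linear_combination (norm := module) (-h) • (xM r R ℓ * yM r R ℓ)

/-- `F w(x(1-gy), (1-(1+g)x)y) = w(A, b) F` -/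
lemma Fm_evR (g : R) (w : List Bool) :
    Fm r R ℓ g * evR (aB r ℓ g) (bB r ℓ g) w =
      evR (AM r R ℓ g) (bM r R ℓ g) w * Fm r R ℓ g := by
  apply evR_conj
  · unfold AM aB
    rw [mul_assoc _ (Fi r R ℓ g), Fi_Fm, mul_one, mul_assoc]
  · unfold bM bB
    rw [← mul_assoc, Fm_Fi, one_mul, mul_assoc, Fi_Fm, mul_one]

lemma Fm_Ps (g : R) (f : List Bool → R) :
    Fm r R ℓ g * Ps f (aB r ℓ g) (bB r ℓ g) =
      Ps f (AM r R ℓ g) (bM r R ℓ g) * Fm r R ℓ g := by
  unfold Ps
  rw [Finset.mul_sum, Finset.sum_mul]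
  apply Finset.sum_congr rfl
  intro n _
  have h1 : Fm r R ℓ g * sw n (fun w => f w • evR (aB r ℓ g) (bB r ℓ g) w) =
      sw n (fun w => Fm r R ℓ g * f w • evR (aB r ℓ g) (bB r ℓ g) w) :=
    sw_map (AddMonoidHom.mulLeft (Fm r R ℓ g)) n _
  rw [h1, sw_mul]
  apply sw_congr
  intro w _
  rw [Matrix.mul_smul, Fm_evR, Matrix.smul_mul]

/-- the sandwiched values depend only on the coefficients of `[]` and of the admissible words -/
lemma sandwich {n : ℕ} (h1 : ℓ (n + 1) = true) (h0 : ℓ 0 = false) (g : R)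
    (f f' : List Bool → R) (hnil : f [] = f' []) (hf : ∀ w, Adm w → f w = f' w) :
    (Fm (n + 2) R ℓ g * Ps f (aB (n + 2) ℓ g) (bB (n + 2) ℓ g) * Gm (n + 2) R ℓ g)
      0 (Fin.last (n + 2)) =
    (Fm (n + 2) R ℓ g * Ps f' (aB (n + 2) ℓ g) (bB (n + 2) ℓ g) * Gm (n + 2) R ℓ g)
      0 (Fin.last (n + 2)) := by
  rw [Fm_Ps, Fm_Ps, mul_assoc, mul_assoc, Ps_mul_apply, Ps_mul_apply]
  apply Finset.sum_congr rfl
  intro m _
  apply sw_congr
  intro w _
  by_cases hw : w = []
  · rw [hw, hnil]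
  by_cases hadm : Adm w
  · rw [hf w hadm]
  have h2 := lam_supp (S := R) g h1 h0 hw hadm
  have h3 := nu_supp (S := R) g h1 h0 hw hadm
  unfold nu at h3
  unfold lam at h2
  rw [Matrix.sub_apply, h3, sub_zero, mul_assoc] at h2
  rw [h2, mul_zero, mul_zero]

/-- `cN` of level `N + 1`, sandwiched form -/
lemma cN_succ_sandwich {x : ℕ → R} (hx : Law x) (N : ℕ) :
    cN x (N + 1) (pre ℓ r) = (Fm r R ℓ (gN x N) * Ps (fun w => dco (sN x N) w N)
      (aB r ℓ (gN x N)) (bB r ℓ (gN x N)) * Gm r R ℓ (gN x N)) 0 (Fin.last r) := by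
  rw [cN_succ_eq hx N, Fm_Ps]
  rfl

/-- `cD` of level `N + 1`, sandwiched form -/
lemma cD_succ_sandwich {x : ℕ → R} (hx : Law x) (N : ℕ) :
    cD x (N + 1) (pre ℓ r) = (Fm r R ℓ (gN x N) * Ps (dS (sN x N) N)
      (aB r ℓ (gN x N)) (bB r ℓ (gN x N)) * Gm r R ℓ (gN x N)) 0 (Fin.last r) := by
  set g := gN x N with hg
  let Ω : ℕ → Mt r R := fun k => Ps (dS (sN x N) k) (aB r ℓ g) (bB r ℓ g)
  let Λ : ℕ → Mt r R := fun k =>
    Ps (rs (sN x N false k) (sN x N true k) (dS (sN x N) k)) (aB r ℓ g) (bB r ℓ g)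
  have hG : ∀ k, gi (sN x N true k • yM r R ℓ) * (1 - sN x N true k • yM r R ℓ) = 1 :=
    fun k => gi_mul ((yM_up ℓ).smul _)
  have hG' : ∀ k, (1 - sN x N true k • yM r R ℓ) * gi (sN x N true k • yM r R ℓ) = 1 :=
    fun k => mul_gi ((yM_up ℓ).smul _)
  have hΩ0 : Ω 0 = (1 - xM r R ℓ) * (1 + yM r R ℓ) := by
    change Ps (mK _) _ _ = _
    rw [Ps_mK _ (aB_up g) (bB_up g), Ps_ind, one_mul, KB_eq]
  have hΩs : ∀ k, Ω (k + 1) = Λ k * ((1 - xM r R ℓ) * (1 + yM r R ℓ)) := by
    intro k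
    change Ps (mK _) _ _ = _
    rw [Ps_mK _ (aB_up g) (bB_up g), KB_eq]
  have hΛ : ∀ k < N, Λ k * ((1 - sN x N false k • xM r R ℓ) *
      (1 - sN x N true k • yM r R ℓ)) = Ω k := by
    intro k hk
    rw [← pencil_B (site_rel hx N k hk)]
    exact Ps_rs _ _ _ (aB_up g) (bB_up g)
  let Φ : ℕ → Mt r R := fun k => Nat.casesOn k 1
    (fun k => Fm r R ℓ g * Ω k * gi (sN x N true k • yM r R ℓ))
  let H : ℕ → Mt r R := fun k => Fm r R ℓ g * Ω k * gi (-yM r R ℓ)
  have hxx : (1 - xM r R ℓ) * Fi r R ℓ g = Fi r R ℓ g * (1 - xM r R ℓ) := by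
    unfold Fi
    simp only [sub_mul, mul_sub, one_mul, mul_one, Matrix.smul_mul, Matrix.mul_smul]
    module
  have key : ∀ k < N + 1, H k * (1 - sN x (N + 1) false k • xM r R ℓ) =
      Φ k * (1 - xM r R ℓ) := by
    intro k hk
    rcases k with _ | k
    · have e : sN x (N + 1) false 0 = 1 + g := by
        simp only [sN, hg, gN, Nat.sub_zero]
        linear_combination hR_add (R := R)
      have e2 : (1 : Mt r R) - (1 + g) • xM r R ℓ = Fi r R ℓ g := rfl
      change Fm r R ℓ g * Ω 0 * gi (-yM r R ℓ) * _ = 1 * _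
      rw [e, e2, hΩ0, mul_assoc (Fm r R ℓ g), mul_assoc (1 - xM r R ℓ), mul_giY, mul_one,
        mul_assoc, hxx, ← mul_assoc, Fm_Fi]
    · have e : sN x (N + 1) false (k + 1) = sN x N false k := by
        simp only [sN]
        rw [show N + 1 - (k + 1) = N - k by omega]
      have hcomm : (1 - xM r R ℓ) * (1 - sN x N false k • xM r R ℓ) =
          (1 - sN x N false k • xM r R ℓ) * (1 - xM r R ℓ) := by
        simp only [sub_mul, mul_sub, one_mul, mul_one, Matrix.smul_mul, Matrix.mul_smul]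
        module
      change Fm r R ℓ g * Ω (k + 1) * gi (-yM r R ℓ) * _ =
        Fm r R ℓ g * Ω k * gi (sN x N true k • yM r R ℓ) * _
      have h2 : Λ k * (1 - sN x N false k • xM r R ℓ) =
          Ω k * gi (sN x N true k • yM r R ℓ) := by
        rw [← hΛ k (by omega), mul_assoc, mul_assoc (1 - sN x N false k • xM r R ℓ), hG',
          mul_one]
      rw [e, hΩs k, mul_assoc (Fm r R ℓ g) (Ω k), ← h2]
      simp only [mul_assoc]
      rw [← mul_assoc (1 + yM r R ℓ), mul_giY, one_mul, hcomm]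
  have := row_cf ℓ (-hR R) (hR R) (fun i => x (N + 1 - i)) (fun i => x (i + 1)) (N + 1)
    Φ H rfl
    (fun k hk => by
      rw [← xi_fac (sN x (N + 1) false k) (x (N + 1 - k)) rfl, ← mul_assoc, key k hk,
        mul_assoc, xi_fac'])
    (fun k hk => by
      change Fm r R ℓ g * Ω k * gi (sN x N true k • yM r R ℓ) * _ =
        Fm r R ℓ g * Ω k * gi (-yM r R ℓ) * _
      rw [← eta_fac (sN x N true k) (x (k + 1)) rfl, ← eta_fac', ← mul_assoc,
        mul_assoc _ (gi (sN x N true k • yM r R ℓ)), hG, mul_one, ← mul_assoc,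
        mul_assoc _ (gi (-yM r R ℓ)), giY_mul, mul_one])
    (N + 1) le_rfl r (Nat.lt_succ_self r)
  refine this.symm.trans ?_
  rfl

/-- the dual coefficients in terms of the weak sums -/
lemma cD_eq {x : ℕ → R} (hx : Law x) (N : ℕ) {n : ℕ} (h1 : ℓ (n + 1) = true) (h0 : ℓ 0 = false) :
    cD x N (pre ℓ (n + 2)) =
      ∑ m ∈ range (n + 2 + 1), sw m (fun w => dS (sN x N) N w * nu (n + 2) R ℓ (gN x N) w) := by
  set g := gN x N with hg
  let Ω : ℕ → Mt (n + 2) R := fun k => Ps (dS (sN x N) k) (aM (n + 2) R ℓ g) (bM (n + 2) R ℓ g)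
  let Λ : ℕ → Mt (n + 2) R := fun k =>
    Ps (rs (sN x N false k) (sN x N true k) (dS (sN x N) k)) (aM (n + 2) R ℓ g)
      (bM (n + 2) R ℓ g)
  have hΩ0 : Ω 0 = (1 + yM (n + 2) R ℓ) * (1 - xM (n + 2) R ℓ) := by
    change Ps (mK _) _ _ = _
    rw [Ps_mK _ (aM_up _ R ℓ g) (bM_up _ R ℓ g), Ps_ind, one_mul, K_eq]
  have hΩs : ∀ k, Ω (k + 1) = Λ k * ((1 + yM (n + 2) R ℓ) * (1 - xM (n + 2) R ℓ)) := by
    intro k
    change Ps (mK _) _ _ = _
    rw [Ps_mK _ (aM_up _ R ℓ g) (bM_up _ R ℓ g), K_eq]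
  have hΛ : ∀ k < N, Λ k * ((1 - sN x N true k • yM (n + 2) R ℓ) *
      (1 - sN x N false k • xM (n + 2) R ℓ)) = Ω k := by
    intro k hk
    rw [← pencil_FG (site_rel hx N k hk)]
    exact Ps_rs _ _ _ (aM_up _ R ℓ g) (bM_up _ R ℓ g)
  let Φ : ℕ → Mt (n + 2) R := fun k => gi (-yM (n + 2) R ℓ) * Ω k * gi (xM (n + 2) R ℓ)
  let H : ℕ → Mt (n + 2) R := fun k => gi (-yM (n + 2) R ℓ) * Λ k *
    (1 - sN x N true k • yM (n + 2) R ℓ)
  have hcomm : ∀ s : R, (1 + yM (n + 2) R ℓ) * (1 - s • yM (n + 2) R ℓ) =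
      (1 - s • yM (n + 2) R ℓ) * (1 + yM (n + 2) R ℓ) := by
    intro s
    simp only [sub_mul, mul_sub, add_mul, mul_add, one_mul, mul_one, Matrix.smul_mul,
      Matrix.mul_smul]
    module
  have hrow := row_cf ℓ (-hR R) (hR R) (fun i => x (N - i)) (fun i => x (i + 1)) N
    Φ H (by
      change gi (-yM (n + 2) R ℓ) * Ω 0 * gi (xM (n + 2) R ℓ) = 1
      rw [hΩ0, ← mul_assoc, giY_mul, one_mul, mul_giX])
    (fun k hk => by
      change gi (-yM (n + 2) R ℓ) * Λ k * (1 - sN x N true k • yM (n + 2) R ℓ) * _ =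
        gi (-yM (n + 2) R ℓ) * Ω k * gi (xM (n + 2) R ℓ) * _
      rw [← xi_fac (sN x N false k) (x (N - k)) rfl, ← xi_fac', ← hΛ k hk]
      simp only [mul_assoc]
      rw [← mul_assoc (gi (xM (n + 2) R ℓ)), giX_mul, one_mul])
    (fun k hk => by
      change gi (-yM (n + 2) R ℓ) * Ω (k + 1) * gi (xM (n + 2) R ℓ) * _ =
        gi (-yM (n + 2) R ℓ) * Λ k * (1 - sN x N true k • yM (n + 2) R ℓ) * _
      rw [← eta_fac (sN x N true k) (x (k + 1)) rfl, ← eta_fac', hΩs k]
      simp only [mul_assoc]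
      rw [← mul_assoc (1 - xM (n + 2) R ℓ), mul_giX, one_mul,
        ← mul_assoc (1 + yM (n + 2) R ℓ) (1 - sN x N true k • yM (n + 2) R ℓ), hcomm,
        mul_assoc])
    N le_rfl (n + 2) (Nat.lt_succ_self _)
  have e1 : Φ N = Ω N - yM (n + 2) R ℓ * (gi (-yM (n + 2) R ℓ) * Ω N) +
      gi (-yM (n + 2) R ℓ) * Ω N * gi (xM (n + 2) R ℓ) * xM (n + 2) R ℓ := by
    change gi (-yM (n + 2) R ℓ) * Ω N * gi (xM (n + 2) R ℓ) = _
    have h3 : gi (-yM (n + 2) R ℓ) * Ω N * gi (xM (n + 2) R ℓ) * xM (n + 2) R ℓ =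
        gi (-yM (n + 2) R ℓ) * Ω N * gi (xM (n + 2) R ℓ) - gi (-yM (n + 2) R ℓ) * Ω N := by
      have h4 : gi (xM (n + 2) R ℓ) * xM (n + 2) R ℓ = gi (xM (n + 2) R ℓ) - 1 := by
        have := giX_mul (r := n + 2) (R := R) (ℓ := ℓ)
        rw [mul_sub, mul_one] at this
        rw [← this]
        abel
      rw [mul_assoc, h4, mul_sub, mul_one]
    have h5 : yM (n + 2) R ℓ * (gi (-yM (n + 2) R ℓ) * Ω N) =
        Ω N - gi (-yM (n + 2) R ℓ) * Ω N := by
      have h4 : yM (n + 2) R ℓ * gi (-yM (n + 2) R ℓ) = 1 - gi (-yM (n + 2) R ℓ) := by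
        have := mul_giY (r := n + 2) (R := R) (ℓ := ℓ)
        rw [add_mul, one_mul] at this
        rw [← this]
        abel
      rw [← mul_assoc, h4, sub_mul, one_mul]
    rw [h3, h5]
    abel
  have e2 : cD x N (pre ℓ (n + 2)) = Φ N 0 (Fin.last (n + 2)) := hrow.symm
  rw [e2, e1, Matrix.add_apply, Matrix.sub_apply, row_zero h0, col_zero h1, sub_zero, add_zero]
  change Ps (dS (sN x N) N) _ _ _ _ = _
  rw [Ps_apply]
  rfl

/-- duality for the weak sums -/
lemma dS_eq {x : ℕ → R} (hx : Law x) (N : ℕ) : ∀ w : List Bool, Adm w →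
    dS (sN x N) N w = dN x N w := by
  have tri : ∀ N : ℕ, (∀ w : List Bool, Adm w → cD x N w = cN x N w) →
      ∀ (k : ℕ) (w : List Bool), w.length = k → Adm w → dS (sN x N) N w = dN x N w := by
    intro N hN k
    induction k using Nat.strong_induction_on with
    | _ k ih =>
    intro w hwk hadm
    obtain ⟨ℓ, hℓ⟩ := exists_pre w
    rw [hwk] at hℓ
    subst hℓ
    obtain ⟨n, rfl, h1, h0⟩ := adm_pre hadm
    have e := hN _ hadm
    rw [cD_eq hx N h1 h0, cN_eq hx N, Finset.sum_range_succ _ (n + 2),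
      Finset.sum_range_succ _ (n + 2)] at e
    have e1 : ∀ f : List Bool → R,
        sw (n + 2) (fun v => f v * nu (n + 2) R ℓ (gN x N) v) = f (pre ℓ (n + 2)) := by
      intro f
      rw [sw_single (pre ℓ (n + 2)) (length_pre ℓ (n + 2))]
      · rw [nu_top _ (length_pre ℓ (n + 2)), if_pos rfl, mul_one]
      · intro v hv hv2
        rw [nu_top _ hv, if_neg hv2, mul_zero]
    rw [e1, e1] at e
    have e2 : ∑ m ∈ range (n + 2), sw m (fun v => dS (sN x N) N v *
        nu (n + 2) R ℓ (gN x N) v) =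
        ∑ m ∈ range (n + 2), sw m (fun v => dN x N v * nu (n + 2) R ℓ (gN x N) v) := by
      apply Finset.sum_congr rfl
      intro m hm
      apply sw_congr
      intro v hv
      have hm' := Finset.mem_range.1 hm
      by_cases hv0 : v = []
      · rw [hv0, nu_nil, mul_zero, mul_zero]
      by_cases hv1 : Adm v
      · rw [ih v.length (by omega) v rfl hv1]
      · rw [nu_supp _ h1 h0 hv0 hv1, mul_zero, mul_zero]
    rw [e2] at e
    exact add_left_cancel e
  induction N with
  | zero =>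
    intro w hw
    apply tri 0 _ w.length w rfl hw
    intro v hv
    have hv0 : v ≠ [] := by
      rintro rfl
      exact absurd hv.1 (by simp)
    simp only [cD, cN, cf]
  | succ N ih =>
    intro w hw
    apply tri (N + 1) _ w.length w rfl hw
    intro v hv
    obtain ⟨ℓ, hℓ⟩ := exists_pre v
    obtain ⟨n, hn, h1, h0⟩ := adm_pre (hℓ ▸ hv)
    rw [hn] at hℓ
    subst hℓ
    rw [cD_succ_sandwich hx N, cN_succ_sandwich hx N]
    apply sandwich h1 h0
    · rw [dS_nil, dco_nil]
    · exact fun u hu => ih u hu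

/-- DUALITY -/
theorem cD_eq_cN {x : ℕ → R} (hx : Law x) (N : ℕ) {w : List Bool} (hw : Adm w) :
    cD x N w = cN x N w := by
  rcases N with _ | N
  · simp only [cD, cN, cf]
  · obtain ⟨ℓ, hℓ⟩ := exists_pre w
    obtain ⟨n, hn, h1, h0⟩ := adm_pre (hℓ ▸ hw)
    rw [hn] at hℓ
    subst hℓ
    rw [cD_succ_sandwich hx N, cN_succ_sandwich hx N]
    apply sandwich h1 h0
    · rw [dS_nil, dco_nil]
    · exact fun u hu => dS_eq hx N u hu

end

end MPa7fa83.Ok
end

section

/-!
# MP_a7fa83_ag, trivial `M`: the main theorem on words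

For an admissible word `w` the sequence `N ↦ cN x N w` is a `ℚ`-combination of nested sums of
weight `≤ w.length`.
-/

set_option autoImplicit false

namespace MPa7fa83.Ok

open Finset Polynomial

section

variable {R : Type*} [CommRing R] [Algebra ℚ R]

omit [Algebra ℚ R] in
lemma sw_mul_left (n : ℕ) (a : R) (f : List Bool → R) :
    sw n (fun w => a * f w) = a * sw n f :=
  (sw_map (AddMonoidHom.mulLeft a) n f).symm

omit [Algebra ℚ R] in
lemma sw_fun_apply (n : ℕ) (f : List Bool → ℕ → R) (N : ℕ) :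
    sw n f N = sw n (fun w => f w N) :=
  sw_map (Pi.evalAddMonoidHom (fun _ : ℕ => R) N) n f

lemma cN_zero (x : ℕ → R) {w : List Bool} (hw : w ≠ []) : cN x 0 w = 0 := by
  simp only [cN, cf]
  rw [if_neg hw]

/-- membership of the terms -/
lemma term_mem {x : ℕ → R} {k : ℕ}
    (ih : ∀ w : List Bool, w.length < k → Adm w → (fun N => dN x N w) ∈ TT x w.length)
    {w : List Bool} (hw : w.length < k) {m : ℕ} (hm : w.length ≤ m) {p : ℚ[X]}
    (hp : p ∈ degreeLT ℚ (m + 1 - w.length)) (h0 : w ≠ [] → ¬ Adm w → p = 0) :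
    (fun N => dN x N w * aeval (gN x N) p) ∈ TT x m := by
  have e : m = w.length + (m - w.length) := by omega
  have hp' : p ∈ degreeLT ℚ (m - w.length + 1) := by
    rwa [show m - w.length + 1 = m + 1 - w.length by omega]
  have hc : (fun N => dN x N w * aeval (gN x N) p) =
      fun N => aeval (gN x N) p * dN x N w := by
    funext N
    rw [mul_comm]
  rw [hc]
  by_cases hnil : w = []
  · subst hnil
    have := TT_mul (one_mem_TT x) hp'
    rw [List.length_nil, Nat.sub_zero, zero_add] at this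
    exact this
  by_cases hadm : Adm w
  · have := TT_mul (ih w hw hadm) hp'
    rwa [← e] at this
  · rw [h0 hnil hadm]
    have : (fun N => aeval (gN x N) (0 : ℚ[X]) * dN x N w) = 0 := by
      funext N
      rw [map_zero, zero_mul]
      rfl
    rw [this]
    exact zero_mem _

theorem core {x : ℕ → R} (hx : Law x) : ∀ (k : ℕ) (w : List Bool), w.length = k → Adm w →
    (fun N => cN x N w) ∈ SS x k ∧ (fun N => dN x N w) ∈ TT x k := by
  intro k
  induction k using Nat.strong_induction_on with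
  | _ k ih =>
  intro w hwk hadm
  have ihT : ∀ w : List Bool, w.length < k → Adm w → (fun N => dN x N w) ∈ TT x w.length :=
    fun v hv hv2 => (ih v.length hv v rfl hv2).2
  obtain ⟨ℓ, hℓ⟩ := exists_pre w
  rw [hwk] at hℓ
  subst hℓ
  obtain ⟨n, rfl, h1, h0⟩ := adm_pre hadm
  have hne : pre ℓ (n + 2) ≠ [] := by simp [pre]
  -- the first claim
  choose μ hμ hlam using fun v => lam_dvd (n := n) h1 h0 v
  have hμ0 : ∀ v : List Bool, v ≠ [] → ¬ Adm v → μ v = 0 := by
    intro v hv hv2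
    have h2 := lam_supp (S := ℚ[X]) X h1 h0 hv hv2
    rw [hlam v] at h2
    have hX1 : (X + 1 : ℚ[X]) ≠ 0 := (Polynomial.monic_X_add_C (1 : ℚ)).ne_zero
    rcases mul_eq_zero.1 h2 with h3 | h3
    · exact absurd h3 (mul_ne_zero Polynomial.X_ne_zero hX1)
    · exact h3
  have hS : (fun N => cN x N (pre ℓ (n + 2))) ∈ SS x (n + 2) := by
    apply SS_of_diff (t := ∑ m ∈ range (n + 2 + 1),
      sw m (fun v => (fun N => dN x N v * aeval (gN x N) (μ v))))
    · apply Submodule.sum_mem
      intro m hm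
      apply sw_mem
      intro v hv
      by_cases hvn : v.length ≤ n
      · exact term_mem ihT (by omega) hvn (hμ v) (hμ0 v)
      · have h2 := hμ v
        rw [show n + 1 - v.length = 0 by omega] at h2
        have h3 := mem_degreeLT_zero h2
        have : (fun N => dN x N v * aeval (gN x N) (μ v)) = 0 := by
          funext N
          rw [h3, map_zero, mul_zero]
          rfl
        rw [this]
        exact zero_mem _
    · exact cN_zero x hne
    · intro N
      rw [cN_diff hx N, Finset.sum_apply, Finset.mul_sum]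
      apply Finset.sum_congr rfl
      intro m _
      rw [sw_fun_apply, ← sw_mul_left]
      apply sw_congr
      intro v _
      have h2 := lam_map (r := n + 2) (ℓ := ℓ) (X : ℚ[X]) (Polynomial.aeval (gN x N)) v
      rw [Polynomial.aeval_X, hlam v, map_mul, map_mul, map_add, Polynomial.aeval_X, map_one]
        at h2
      rw [h2]
      ring
  refine ⟨hS, ?_⟩
  -- the second claim
  have e : (fun N => dN x N (pre ℓ (n + 2))) = (fun N => cN x N (pre ℓ (n + 2))) -
      ∑ m ∈ range (n + 2), sw m (fun v => (fun N => dN x N v *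
        aeval (gN x N) (nu (n + 2) ℚ[X] ℓ X v))) := by
    funext N
    rw [Pi.sub_apply, Finset.sum_apply, cN_eq hx N, Finset.sum_range_succ]
    have h2 : ∀ v, nu (n + 2) R ℓ (gN x N) v =
        aeval (gN x N) (nu (n + 2) ℚ[X] ℓ X v) := by
      intro v
      have := nu_map (r := n + 2) (ℓ := ℓ) (X : ℚ[X]) (Polynomial.aeval (gN x N)) v
      rwa [Polynomial.aeval_X] at this
    have h3 : sw (n + 2) (fun v => dN x N v * nu (n + 2) R ℓ (gN x N) v) =
        dN x N (pre ℓ (n + 2)) := by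
      rw [sw_single (pre ℓ (n + 2)) (length_pre ℓ (n + 2))]
      · rw [nu_top _ (length_pre ℓ (n + 2)), if_pos rfl, mul_one]
      · intro v hv hv2
        rw [nu_top _ hv, if_neg hv2, mul_zero]
    rw [h3]
    have h4 : ∑ m ∈ range (n + 2), sw m (fun v => dN x N v * nu (n + 2) R ℓ (gN x N) v) =
        ∑ m ∈ range (n + 2), sw m (fun v => (fun N => dN x N v *
        aeval (gN x N) (nu (n + 2) ℚ[X] ℓ X v))) N := by
      apply Finset.sum_congr rfl
      intro m _
      rw [sw_fun_apply]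
      apply sw_congr
      intro v _
      rw [h2 v]
    rw [h4]
    ring
  rw [e]
  apply sub_mem (SS_le_TT hS)
  apply Submodule.sum_mem
  intro m hm
  apply sw_mem
  intro v hv
  have hm' := Finset.mem_range.1 hm
  apply term_mem ihT (by omega) (m := n + 2) (by omega) (nu_deg (n + 2) ℓ v)
  intro hv1 hv2
  exact nu_supp X h1 h0 hv1 hv2

/-- MAIN THEOREM ON WORDS -/
theorem cN_mem {x : ℕ → R} (hx : Law x) {w : List Bool} (hw : Adm w) :
    (fun N => cN x N w) ∈ SS x w.length := (core hx w.length w rfl hw).1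

end

end MPa7fa83.Ok
end

section

/-!
# MP_a7fa83_ag, trivial `M`: the normalised sums over partitions with parts `≤ m`

`AS m w` is the generating function `∑_n q^n ∑_{partitions of n, parts ≤ m} cn w`; it equals
`AS m []` times the coefficient of `w` in
`∏_{i < m} (1 + ξ/2) (1 - ξ/2)⁻¹ (1 - η/2) (1 - x_(i+1) η)⁻¹`, `x_n = 1/(1-q^n) - 1/2 = xs n`.
-/

set_option autoImplicit false

namespace MPa7fa83.Ok

open Finset PowerSeries

/-- generating function over the partitions with parts `≤ m` -/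
noncomputable def AS (m : ℕ) (w : List Bool) : ℚ⟦X⟧ :=
  PowerSeries.mk fun n => Am m (cn ℚ w) n

/-- the same with an additional column step at the end -/
noncomputable def AS' (m : ℕ) (w : List Bool) : ℚ⟦X⟧ :=
  PowerSeries.mk fun n => Am m (fun β => cn ℚ w (false :: β)) n

/-- the limit coefficients -/
noncomputable def cInf (m : ℕ) (w : List Bool) : ℚ⟦X⟧ :=
  cf (hR ℚ⟦X⟧) (-hR ℚ⟦X⟧) (fun _ => hR ℚ⟦X⟧) (fun i => xs (i + 1)) m w

lemma hR_eq : hR ℚ⟦X⟧ = hf := by
  unfold hR hf
  rw [PowerSeries.algebraMap_apply]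
  rfl

private lemma PS_hR (a : ℕ → ℚ) :
    hR ℚ⟦X⟧ * PowerSeries.mk a = PowerSeries.mk fun n => hR ℚ * a n := by
  ext n
  rw [hR_eq]
  unfold hf
  rw [PowerSeries.coeff_C_mul, PowerSeries.coeff_mk, PowerSeries.coeff_mk]
  rfl

private lemma PS_Am_add (m : ℕ) (f g : List Bool → ℚ) (n : ℕ) :
    Am m (fun β => f β + g β) n = Am m f n + Am m g n := by
  unfold Am
  exact Finset.sum_add_distrib

private lemma PS_Am_mul (m : ℕ) (c : ℚ) (f : List Bool → ℚ) (n : ℕ) :
    Am m (fun β => c * f β) n = c * Am m f n := by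
  unfold Am
  rw [Finset.mul_sum]

private lemma PS_cn (c s : Bool) (w β : List Bool) : cn ℚ (c :: w) (s :: β) =
    cn ℚ (c :: w) β + if s = c then hR ℚ * (cn ℚ w β + cn ℚ w (s :: β)) else 0 := rfl

private lemma PS_rm_mul (c : Bool) (α u a : ℚ⟦X⟧) (f : List Bool → ℚ⟦X⟧) (w : List Bool) :
    rm c α u (fun w => a * f w) w = a * rm c α u f w := by
  induction w with
  | nil => rfl
  | cons c' w ih =>
    simp only [rm]
    rw [ih]
    split_ifs
    · ring
    · ring

private lemma PS_cf_nil (α β : ℚ⟦X⟧) (u t : ℕ → ℚ⟦X⟧) (k : ℕ) : cf α β u t k [] = 1 := by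
  induction k with
  | zero => rfl
  | succ k ih => exact ih

/-- step at the end: general form -/
private lemma PS_step (m : ℕ) (c s : Bool) (w : List Bool) :
    PowerSeries.mk (fun n => Am m (fun β => cn ℚ (c :: w) (s :: β)) n) =
      PowerSeries.mk (fun n => Am m (cn ℚ (c :: w)) n) +
        if s = c then hR ℚ⟦X⟧ * (PowerSeries.mk (fun n => Am m (cn ℚ w) n) +
          PowerSeries.mk (fun n => Am m (fun β => cn ℚ w (s :: β)) n)) else 0 := by
  by_cases h : s = c
  · rw [if_pos h, mul_add, PS_hR, PS_hR]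
    ext n
    simp only [map_add, PowerSeries.coeff_mk]
    have e : (fun β => cn ℚ (c :: w) (s :: β)) = fun β => cn ℚ (c :: w) β +
        (hR ℚ * cn ℚ w β + hR ℚ * cn ℚ w (s :: β)) := by
      funext β
      rw [PS_cn, if_pos h]
      ring
    rw [e, PS_Am_add, PS_Am_add, PS_Am_mul, PS_Am_mul]
  · rw [if_neg h, add_zero]
    ext n
    simp only [PowerSeries.coeff_mk]
    have e : (fun β => cn ℚ (c :: w) (s :: β)) = fun β => cn ℚ (c :: w) β := by
      funext β
      rw [PS_cn, if_neg h, add_zero]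
    rw [e]

/-- `AS'` is `AS` times `(1 + ξ/2) (1 - ξ/2)⁻¹`: from
`cn (ξ w) (L :: β) = cn (ξ w) β + h (cn w β + cn w (L :: β))`,
`cn (η w) (L :: β) = cn (η w) β`. -/
lemma AS'_eq (m : ℕ) (w : List Bool) : AS' m w = rm false (hR ℚ⟦X⟧) (hR ℚ⟦X⟧) (AS m) w := by
  induction w with
  | nil => rfl
  | cons c w ih =>
    simp only [rm]
    rw [← ih]
    unfold AS' AS
    rw [PS_step]
    by_cases h : c = false
    · rw [if_pos h, if_pos h.symm, mul_add]
    · rw [if_neg h, if_neg (fun e => h e.symm)]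

/-- from `Am_succ`: `AS (m+1) w = AS' m w + q^(m+1) * (mk fun n => Am (m+1) (cn w (U :: ·)) n)` -/
lemma AS_succ (m : ℕ) (w : List Bool) : AS (m + 1) w = AS' m w +
    X ^ (m + 1) * PowerSeries.mk (fun n => Am (m + 1) (fun β => cn ℚ w (true :: β)) n) := by
  ext n
  unfold AS AS'
  rw [map_add, PowerSeries.coeff_X_pow_mul', PowerSeries.coeff_mk, PowerSeries.coeff_mk, Am_succ]
  simp only [PowerSeries.coeff_mk]

/-- `(1 - q^(m+1)) AS (m+1) [] = AS m []` -/
lemma AS_nil_succ (m : ℕ) : (1 - X ^ (m + 1)) * AS (m + 1) [] = AS m [] := by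
  have h1 := AS_succ m []
  have h2 : PowerSeries.mk (fun n => Am (m + 1) (fun β => cn ℚ [] (true :: β)) n) =
      AS (m + 1) [] := rfl
  have h3 : AS' m [] = AS m [] := rfl
  rw [h2, h3] at h1
  linear_combination h1

/-- Induction on `m`, inside on `w`.  With `Q = q^(m+1)`, `t = xs (m+1) = (1+Q)/(2(1-Q))`:
`cn (η w) (U :: β) = cn (η w) β + h (cn w β + cn w (U :: β))`, `cn (ξ w) (U :: β) = cn (ξ w) β`,
so `(1-Q) AS (m+1) (ξ w) = AS' m (ξ w)` and
`(1-Q) AS (m+1) (η w) = AS' m (η w) - h AS' m w + h (1+Q) AS (m+1) w`. -/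
theorem AS_eq (m : ℕ) (w : List Bool) : AS m w = AS m [] * cInf m w := by
  induction m generalizing w with
  | zero =>
    have h0 : ∀ w : List Bool, AS 0 w = if w = [] then 1 else 0 := by
      intro w
      ext n
      unfold AS
      rw [PowerSeries.coeff_mk, Am_zero]
      cases w with
      | nil =>
        rw [if_pos rfl, PowerSeries.coeff_one]
        rfl
      | cons c w =>
        have h1 : cn ℚ (c :: w) [] = 0 := rfl
        simp [h1]
    rw [h0, h0, if_pos rfl, one_mul]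
    rfl
  | succ m ih =>
    have hAS : AS m = fun w => AS m [] * cInf m w := funext ih
    have hy := ys_mul (m + 1) (by omega)
    have hnil := AS_nil_succ m
    have h2 : (2 : ℚ⟦X⟧) * hR ℚ⟦X⟧ = 1 := two_hR
    obtain ⟨G, hG⟩ : ∃ G : List Bool → ℚ⟦X⟧, G = rm false (hR ℚ⟦X⟧) (hR ℚ⟦X⟧) (cInf m) := ⟨_, rfl⟩
    have hAS' : ∀ w, AS' m w = (1 - X ^ (m + 1)) * AS (m + 1) [] * G w := by
      intro w
      rw [AS'_eq, hAS, PS_rm_mul, hG, ← hnil]
    have hc : cInf (m + 1) = rm true (-hR ℚ⟦X⟧) (xs (m + 1)) G := by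
      rw [hG]
      rfl
    have hG0 : G [] = 1 := by
      rw [hG]
      exact PS_cf_nil _ _ _ _ m
    rw [hc]
    have ht : (1 - X ^ (m + 1)) * xs (m + 1) = hR ℚ⟦X⟧ * (1 + X ^ (m + 1)) := by
      unfold xs
      rw [← hR_eq]
      linear_combination hy + (-1 : ℚ⟦X⟧) * h2
    have hcancel : ∀ a b : ℚ⟦X⟧, (1 - X ^ (m + 1)) * a = (1 - X ^ (m + 1)) * b → a = b := by
      intro a b hab
      calc a = ys (m + 1) * (1 - X ^ (m + 1)) * a := by rw [hy, one_mul]
        _ = ys (m + 1) * ((1 - X ^ (m + 1)) * a) := by ring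
        _ = ys (m + 1) * ((1 - X ^ (m + 1)) * b) := by rw [hab]
        _ = ys (m + 1) * (1 - X ^ (m + 1)) * b := by ring
        _ = b := by rw [hy, one_mul]
    induction w with
    | nil =>
      simp only [rm]
      rw [hG0, mul_one]
    | cons c w ihw =>
      apply hcancel
      have e1 := AS_succ m (c :: w)
      have e2 := AS_succ m w
      rw [PS_step] at e1
      have e3 : PowerSeries.mk (fun n => Am (m + 1) (cn ℚ (c :: w)) n) = AS (m + 1) (c :: w) := rfl
      have e4 : PowerSeries.mk (fun n => Am (m + 1) (cn ℚ w) n) = AS (m + 1) w := rfl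
      rw [e3, e4] at e1
      rw [hAS'] at e1 e2
      simp only [rm]
      cases c with
      | false =>
        rw [if_neg (by simp)] at e1 ⊢
        linear_combination e1
      | true =>
        rw [if_pos rfl] at e1 ⊢
        rw [ihw] at e1 e2
        linear_combination e1 - hR ℚ⟦X⟧ * e2 -
          AS (m + 1) [] * rm true (-hR ℚ⟦X⟧) (xs (m + 1)) G w * ht

end MPa7fa83.Ok
end

section

/-!
# MP_a7fa83_ag, trivial `M`: the level `N` coefficients converge

`cN xs N w - cInf N w` is divisible by `q^(N+1)` for words with last letter `η`.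
-/

set_option autoImplicit false

namespace MPa7fa83.Ok

open Finset PowerSeries

/-- the series `f η (1 - t η)⁻¹` -/
noncomputable def rr (t : ℚ⟦X⟧) (f : List Bool → ℚ⟦X⟧) : List Bool → ℚ⟦X⟧
  | [] => 0
  | c :: w => if c = true then f w + t * rr t f w else 0

/-- `(1 - η/2) (1 - t η)⁻¹ = 1 + (t - 1/2) η (1 - t η)⁻¹` (induction on `w`) -/
lemma rm_eq_rr (t : ℚ⟦X⟧) (f : List Bool → ℚ⟦X⟧) (w : List Bool) :
    rm true (-hR ℚ⟦X⟧) t f w = f w + (t - hR ℚ⟦X⟧) * rr t f w := by
  induction w with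
  | nil => simp only [rm, rr, mul_zero, add_zero]
  | cons c w ih =>
    by_cases hc : c = true
    · simp only [rm, rr, if_pos hc]
      rw [ih]
      ring
    · simp only [rm, rr, if_neg hc, mul_zero, add_zero]

lemma rr_sub (t : ℚ⟦X⟧) (f g : List Bool → ℚ⟦X⟧) (w : List Bool) :
    rr t (fun v => f v - g v) w = rr t f w - rr t g w := by
  induction w with
  | nil => simp only [rr, sub_zero]
  | cons c w ih =>
    by_cases hc : c = true
    · simp only [rr, if_pos hc]
      rw [ih]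
      ring
    · simp only [rr, if_neg hc, sub_zero]

/-- if `f w` is divisible by `q^e` for all `w` then so is `rr t f w` -/
lemma rr_dvd (t : ℚ⟦X⟧) (f : List Bool → ℚ⟦X⟧) (e : ℕ) (h : ∀ w, X ^ e ∣ f w) (w : List Bool) :
    X ^ e ∣ rr t f w := by
  induction w with
  | nil => simp only [rr, dvd_zero]
  | cons c w ih =>
    by_cases hc : c = true
    · simp only [rr, if_pos hc]
      exact dvd_add (h w) (Dvd.dvd.mul_left ih t)
    · simp only [rr, if_neg hc, dvd_zero]

/-- `rm false h u f - rm false h h g` is divisible by `q^e` if all `f v - g v` and `u - h` are -/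
lemma rm_sub_dvd {u : ℚ⟦X⟧} {f g : List Bool → ℚ⟦X⟧} {e : ℕ} (h : ∀ w, X ^ e ∣ f w - g w)
    (hu : X ^ e ∣ u - hR ℚ⟦X⟧) (w : List Bool) :
    X ^ e ∣ rm false (hR ℚ⟦X⟧) u f w - rm false (hR ℚ⟦X⟧) (hR ℚ⟦X⟧) g w := by
  induction w with
  | nil => simpa only [rm] using h []
  | cons c w ih =>
    by_cases hc : c = false
    · simp only [rm, if_pos hc]
      have e1 : f (c :: w) + (hR ℚ⟦X⟧ * f w + u * rm false (hR ℚ⟦X⟧) u f w) -
          (g (c :: w) + (hR ℚ⟦X⟧ * g w + hR ℚ⟦X⟧ * rm false (hR ℚ⟦X⟧) (hR ℚ⟦X⟧) g w)) =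
          (f (c :: w) - g (c :: w)) + hR ℚ⟦X⟧ * (f w - g w) +
          u * (rm false (hR ℚ⟦X⟧) u f w - rm false (hR ℚ⟦X⟧) (hR ℚ⟦X⟧) g w) +
          rm false (hR ℚ⟦X⟧) (hR ℚ⟦X⟧) g w * (u - hR ℚ⟦X⟧) := by ring
      rw [e1]
      exact dvd_add (dvd_add (dvd_add (h _) (Dvd.dvd.mul_left (h _) _))
        (Dvd.dvd.mul_left ih _)) (Dvd.dvd.mul_left hu _)
    · simp only [rm, if_neg hc, add_zero]
      exact h _

lemma hR_eq_hf : hR ℚ⟦X⟧ = hf := by
  have h1 := two_hR (R := ℚ⟦X⟧)
  have h2 := two_hf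
  linear_combination hf * h1 - hR ℚ⟦X⟧ * h2

/-- `xs n - 1/2 = q^n / (1 - q^n)` -/
lemma xs_sub_dvd (n : ℕ) (hn : 1 ≤ n) : X ^ n ∣ xs n - hR ℚ⟦X⟧ := by
  have h1 := ys_mul n hn
  have h2 := two_hf
  refine ⟨ys n, ?_⟩
  rw [hR_eq_hf]
  unfold xs
  linear_combination h1 - h2

/-- For all words and `k ≤ N`: the difference is divisible by `q^(N-k+1)` (the weights
`xs (N-i) - 1/2`, `i < k`, are divisible by `q^(N-k+1)`). -/
lemma cf_sub_dvd (N k : ℕ) (hk : k ≤ N) (w : List Bool) :
    X ^ (N - k + 1) ∣ cf (hR ℚ⟦X⟧) (-hR ℚ⟦X⟧) (fun i => xs (N - i)) (fun i => xs (i + 1)) k w -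
      cInf k w := by
  induction k generalizing w with
  | zero =>
    unfold cInf
    simp only [cf, sub_self, dvd_zero]
  | succ k ih =>
    have ih' := ih (by omega)
    unfold cInf at ih' ⊢
    simp only [cf]
    rw [rm_eq_rr, rm_eq_rr]
    have hA : ∀ v, X ^ (N - (k + 1) + 1) ∣
        rm false (hR ℚ⟦X⟧) (xs (N - k)) (cf (hR ℚ⟦X⟧) (-hR ℚ⟦X⟧) (fun i => xs (N - i))
          (fun i => xs (i + 1)) k) v -
        rm false (hR ℚ⟦X⟧) (hR ℚ⟦X⟧) (cf (hR ℚ⟦X⟧) (-hR ℚ⟦X⟧) (fun _ => hR ℚ⟦X⟧)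
          (fun i => xs (i + 1)) k) v := by
      intro v
      refine rm_sub_dvd (fun v => ?_) ?_ v
      · exact (pow_dvd_pow X (by omega)).trans (ih' v)
      · exact (pow_dvd_pow X (by omega)).trans (xs_sub_dvd (N - k) (by omega))
    have hB := rr_dvd (xs (k + 1)) _ _ hA w
    rw [rr_sub] at hB
    have e1 : ∀ a b c d t : ℚ⟦X⟧, a + t * b - (c + t * d) = (a - c) + t * (b - d) := by
      intros; ring
    rw [e1]
    exact dvd_add (hA w) (Dvd.dvd.mul_left hB _)

/-- Induction on `k` (for `cf ... k` instead of `cN`, `k ≤ N`): by `rm_eq_rr` with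
`t - 1/2 = xs (k+1) - 1/2` divisible by `q^(k+1)`, and
`rm false _ _ f (true :: w) = f (true :: w)`. -/
theorem cN_sub_dvd (N : ℕ) (w : List Bool) (hw : w.head? = some true) :
    X ^ (N + 1) ∣ cN xs N w - cInf N w := by
  obtain ⟨w, rfl⟩ : ∃ v, w = true :: v := by
    cases w with
    | nil => simp at hw
    | cons c v =>
      simp only [List.head?_cons, Option.some.injEq] at hw
      exact ⟨v, by rw [hw]⟩
  unfold cN
  have key : ∀ k ≤ N, X ^ (N + 1) ∣
      cf (hR ℚ⟦X⟧) (-hR ℚ⟦X⟧) (fun i => xs (N - i)) (fun i => xs (i + 1)) k (true :: w) -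
      cInf k (true :: w) := by
    intro k
    induction k with
    | zero =>
      intro _
      unfold cInf
      simp only [cf, sub_self, dvd_zero]
    | succ k ih =>
      intro hk
      have ih' := ih (by omega)
      have h0 := fun v => cf_sub_dvd N k (by omega) v
      unfold cInf at ih' h0 ⊢
      simp only [cf]
      rw [rm_eq_rr, rm_eq_rr]
      have hA : ∀ v, X ^ (N - k) ∣
          rm false (hR ℚ⟦X⟧) (xs (N - k)) (cf (hR ℚ⟦X⟧) (-hR ℚ⟦X⟧) (fun i => xs (N - i))
            (fun i => xs (i + 1)) k) v -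
          rm false (hR ℚ⟦X⟧) (hR ℚ⟦X⟧) (cf (hR ℚ⟦X⟧) (-hR ℚ⟦X⟧) (fun _ => hR ℚ⟦X⟧)
            (fun i => xs (i + 1)) k) v := by
        intro v
        refine rm_sub_dvd (fun v => ?_) (xs_sub_dvd (N - k) (by omega)) v
        exact (pow_dvd_pow X (by omega)).trans (h0 v)
      have hB := rr_dvd (xs (k + 1)) _ _ hA (true :: w)
      rw [rr_sub] at hB
      have e1 : ∀ a b c d t : ℚ⟦X⟧, a + t * b - (c + t * d) = (a - c) + t * (b - d) := by
        intros; ring
      rw [e1]
      refine dvd_add ?_ ?_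
      · have e2 : ∀ (u : ℚ⟦X⟧) (f : List Bool → ℚ⟦X⟧),
            rm false (hR ℚ⟦X⟧) u f (true :: w) = f (true :: w) := by
          intro u f
          simp [rm]
        rw [e2, e2]
        exact ih'
      · have h3 := mul_dvd_mul (xs_sub_dvd (k + 1) (by omega)) hB
        rw [← pow_add] at h3
        exact (pow_dvd_pow X (by omega)).trans h3
  exact key N le_rfl

end MPa7fa83.Ok
end

section

/-!
# MP_a7fa83_ag, trivial `M`: parity

For `x n = 1/(1-q^n) - 1/2` and an admissible word `w` the sequence `B ↦ cN xs (B-1) w` is in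
the span `W w.length` of the nested sums of weight `w.length, w.length - 2, ...`.
-/

set_option autoImplicit false

namespace MPa7fa83.Ok

open Finset

section

variable {R R' : Type*} [CommRing R] [Algebra ℚ R] [CommRing R'] [Algebra ℚ R']

lemma rm_map (φ : R →ₐ[ℚ] R') (c : Bool) (α u : R) (f : List Bool → R) (w : List Bool) :
    φ (rm c α u f w) = rm c (φ α) (φ u) (fun v => φ (f v)) w := by
  induction w with
  | nil => rfl
  | cons c' w ih =>
    simp only [rm]
    rw [map_add]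
    split_ifs
    · rw [map_add, map_mul, map_mul, ih]
    · rw [map_zero]

lemma cf_map (φ : R →ₐ[ℚ] R') (α β : R) (u t : ℕ → R) (k : ℕ) (w : List Bool) :
    φ (cf α β u t k w) = cf (φ α) (φ β) (fun i => φ (u i)) (fun i => φ (t i)) k w := by
  induction k generalizing w with
  | zero =>
    simp only [cf]
    split_ifs
    · exact map_one φ
    · exact map_zero φ
  | succ k ih =>
    simp only [cf]
    rw [rm_map]
    congr 1
    funext v
    rw [rm_map]
    congr 1
    funext v'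
    exact ih v'

lemma cN_map (φ : R →ₐ[ℚ] R') (x : ℕ → R) (N : ℕ) (w : List Bool) :
    φ (cN x N w) = cN (fun n => φ (x n)) N w := by
  unfold cN
  rw [cf_map, map_neg, map_hR]

omit [Algebra ℚ R] in
lemma rm_sign (c : Bool) (α u : R) (f g : List Bool → R)
    (h : ∀ w, f w = (-1) ^ w.length * g w) (w : List Bool) :
    rm c α u f w = (-1) ^ w.length * rm c (-α) (-u) g w := by
  induction w with
  | nil => exact h []
  | cons c' w ih =>
    simp only [rm]
    rw [h (c' :: w), List.length_cons, pow_succ]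
    split_ifs
    · rw [ih, h w]
      ring
    · ring

omit [Algebra ℚ R] in
lemma cf_sign (α β : R) (u t : ℕ → R) (k : ℕ) (w : List Bool) :
    cf α β u t k w = (-1) ^ w.length * cf (-α) (-β) (fun i => -u i) (fun i => -t i) k w := by
  induction k generalizing w with
  | zero =>
    simp only [cf]
    by_cases hw : w = []
    · subst hw
      simp
    · rw [if_neg hw, mul_zero]
  | succ k ih =>
    simp only [cf]
    apply rm_sign
    intro v
    apply rm_sign
    exact ih

/-- the coefficients for `-x` -/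
lemma cN_neg (x : ℕ → R) (N : ℕ) (w : List Bool) :
    cN (fun n => -x n) N w = (-1) ^ w.length * cD x N w := by
  unfold cN cD
  rw [cf_sign]
  simp only [neg_neg]

lemma zt_neg (x : ℕ → R) (l : List ℕ) (B : ℕ) :
    zt (fun n => -x n) l B = (-1) ^ wtl l * zt x l B := by
  induction l generalizing B with
  | nil => simp [zt, wtl]
  | cons j l ih =>
    simp only [zt]
    rw [Finset.mul_sum]
    apply Finset.sum_congr rfl
    intro n _
    have e : wtl (j :: l) = j + 2 + wtl l := by simp [wtl]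
    rw [ih, e, pow_add, pow_add, neg_sq, neg_pow (x n) j]
    ring

lemma zt_map (φ : R →ₐ[ℚ] R') (x : ℕ → R) (l : List ℕ) (B : ℕ) :
    φ (zt x l B) = zt (fun n => φ (x n)) l B := by
  induction l generalizing B with
  | nil => exact map_one φ
  | cons j l ih =>
    simp only [zt]
    rw [map_sum]
    apply Finset.sum_congr rfl
    intro n _
    rw [map_mul, map_mul, map_sub, map_pow, map_pow, map_pow, map_hR, ih]

lemma Law_neg {x : ℕ → R} (hx : Law x) : Law (fun n => -x n) := by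
  intro a b ha hb
  have := hx a b ha hb
  linear_combination this

lemma Law_prod {x : ℕ → R} {y : ℕ → R'} (hx : Law x) (hy : Law y) :
    Law (fun n => (x n, y n)) := by
  intro a b ha hb
  have h1 := hx a b ha hb
  have h2 := hy a b ha hb
  have e : hR (R × R') = (hR R, hR R') := rfl
  rw [e]
  exact Prod.ext h1 h2

end

section

lemma Law_xs : Law xs := by
  intro a b ha hb
  have h := ys_rel a b ha hb
  have h2 := two_hf
  rw [hR_eq]
  unfold xs
  linear_combination h + (ys (a + b)) * h2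

lemma zt_xs (l : List ℕ) : zt xs l = wseq l := by
  induction l with
  | nil => rfl
  | cons j l ih =>
    funext B
    rw [wseq_cons]
    simp only [zt, S]
    apply Finset.sum_congr rfl
    intro n _
    rw [ih, hR_eq]
    rfl

lemma zt_shift (l : List ℕ) (B : ℕ) : zt xs l (B - 1 + 1) = wseq l B := by
  rw [zt_xs]
  rcases B with _ | B
  · cases l with
    | nil => rfl
    | cons j l =>
      rw [wseq_cons]
      simp [S]
  · rfl

/-- PARITY -/
theorem cN_mem_W {w : List Bool} (hw : Adm w) :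
    (fun B => cN xs (B - 1) w) ∈ W w.length := by
  let x' : ℕ → PowerSeries ℚ × PowerSeries ℚ := fun n => (xs n, -xs n)
  have hx' : Law x' := Law_prod Law_xs (Law_neg Law_xs)
  have key : ∀ (k : ℕ) (F : ℕ → PowerSeries ℚ × PowerSeries ℚ), F ∈ SS x' k →
      (fun B => (F (B - 1)).1 + (-1) ^ k * (F (B - 1)).2) ∈ W k := by
    intro k F hF
    unfold SS at hF
    induction hF using Submodule.span_induction with
    | mem F hF =>
      obtain ⟨l, hl, rfl⟩ := hF
      have e1 : ∀ N, (zt x' l N).1 = zt xs l N := fun N =>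
        zt_map (AlgHom.fst ℚ (PowerSeries ℚ) (PowerSeries ℚ)) x' l N
      have e2 : ∀ N, (zt x' l N).2 = (-1) ^ wtl l * zt xs l N := fun N =>
        (zt_map (AlgHom.snd ℚ (PowerSeries ℚ) (PowerSeries ℚ)) x' l N).trans (zt_neg xs l N)
      have e3 : (fun B => (zt x' l (B - 1 + 1)).1 + (-1) ^ k * (zt x' l (B - 1 + 1)).2) =
          fun B => (1 + (-1) ^ (k + wtl l)) * wseq l B := by
        funext B
        rw [e1, e2, zt_shift, pow_add]
        ring
      rw [e3]
      rcases Nat.even_or_odd (k + wtl l) with he | ho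
      · obtain ⟨j, hj⟩ := he
        have e4 : (fun B => (1 + (-1) ^ (k + wtl l)) * wseq l B) = (2 : ℚ) • wseq l := by
          funext B
          rw [Even.neg_one_pow ⟨j, hj⟩, Pi.smul_apply, PowerSeries.smul_eq_C_mul, map_ofNat]
          norm_num
        rw [e4]
        apply Submodule.smul_mem
        apply wseq_mem
        refine ⟨(k - wtl l) / 2, ?_⟩
        change wtl l + 2 * ((k - wtl l) / 2) = k
        omega
      · have e4 : (fun B => (1 + (-1) ^ (k + wtl l)) * wseq l B) = 0 := by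
          funext B
          rw [Odd.neg_one_pow ho]
          simp
        rw [e4]
        exact zero_mem _
    | zero =>
      have : (fun B : ℕ => ((0 : ℕ → PowerSeries ℚ × PowerSeries ℚ) (B - 1)).1 +
          (-1) ^ k * ((0 : ℕ → PowerSeries ℚ × PowerSeries ℚ) (B - 1)).2) = 0 := by
        funext B
        simp
      rw [this]
      exact zero_mem _
    | add F G _ _ hF hG =>
      have := add_mem hF hG
      convert this using 1
      funext B
      simp only [Pi.add_apply, Prod.fst_add, Prod.snd_add]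
      ring
    | smul c F _ hF =>
      have := Submodule.smul_mem _ c hF
      convert this using 1
      funext B
      simp only [Pi.smul_apply, Prod.smul_fst, Prod.smul_snd]
      rw [smul_add, mul_smul_comm]
  have h1 := key w.length _ (cN_mem hx' hw)
  have e1 : ∀ N, (cN x' N w).1 = cN xs N w := fun N =>
    cN_map (AlgHom.fst ℚ (PowerSeries ℚ) (PowerSeries ℚ)) x' N w
  have e2 : ∀ N, (cN x' N w).2 = (-1) ^ w.length * cN xs N w := fun N => by
    refine (cN_map (AlgHom.snd ℚ (PowerSeries ℚ) (PowerSeries ℚ)) x' N w).trans ?_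
    refine (cN_neg xs N w).trans ?_
    rw [cD_eq_cN Law_xs N hw]
  have e3 : (fun B => cN xs (B - 1) w) = (1 / 2 : ℚ) •
      (fun B => (cN x' (B - 1) w).1 + (-1) ^ w.length * (cN x' (B - 1) w).2) := by
    funext B
    rw [Pi.smul_apply, e1, e2, ← mul_assoc, ← pow_add, Even.neg_one_pow ⟨w.length, rfl⟩,
      one_mul, ← two_mul, PowerSeries.smul_eq_C_mul, ← mul_assoc]
    have h3 := two_hf
    unfold hf at h3
    rw [mul_comm] at h3
    rw [h3, one_mul]
  rw [e3]
  exact Submodule.smul_mem _ _ h1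

end

end MPa7fa83.Ok
end
end
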