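import Pool.Agent.Lib.MP_a7fa83_ag.Ok.Defs

/-!
# MP_a7fa83_ag, trivial `M`: statistics of words

A STEP LIST is a `List Bool`, the head is the LAST step; `false` is a column step `L`, `true` a
row step `U`.  `cn Λ w` is the statistic of the word `w` on step lists (trapezoidal nested sums):
the coefficient of `w` in the product of `(1 + ξ/2) (1 - ξ/2)⁻¹` for every step `L` and
`(1 + η/2) (1 - η/2)⁻¹` for every step `U`.
-/

set_option autoImplicit false

namespace MPa7fa83.Ok

open Finset

section

variable {Λ : Type*} [CommRing Λ] [Algebra ℚ Λ]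

/-- trapezoidal sum of `f` over the steps `c` -/
def J (c : Bool) (f : List Bool → Λ) : List Bool → Λ
  | [] => 0
  | s :: β => J c f β + if s = c then hR Λ * (f β + f (s :: β)) else 0

/-- sum of the differences of `f` over the steps `c` -/
def T (c : Bool) (f : List Bool → Λ) : List Bool → Λ
  | [] => 0
  | s :: β => T c f β + if s = c then f (s :: β) - f β else 0

/-- the statistic of a word -/
def cn (Λ : Type*) [CommRing Λ] [Algebra ℚ Λ] : List Bool → (List Bool → Λ)
  | [] => 1
  | c :: w => J c (cn Λ w)

/-- Induction on the step list.  At a step `c` put `A = J c f β`, `A' = A + h (f β + f (c :: β))`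
etc.; both sides increase by the same amount (`ring` after `simp [J, T]`). -/
lemma J_mul_same (c : Bool) (f g : List Bool → Λ) :
    J c f * J c g = J c (f * J c g) + J c (J c f * g) - (hR Λ) ^ 2 • T c (f * g) := by
  funext β
  simp only [Pi.mul_apply, Pi.add_apply, Pi.sub_apply, Pi.smul_apply, smul_eq_mul]
  induction β with
  | nil => simp [J, T]
  | cons s β ih =>
    by_cases hs : s = c
    · subst hs
      simp only [J, T, if_true, Pi.mul_apply]
      linear_combination ih
    · simp only [J, T, if_neg hs, add_zero]
      exact ih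

lemma J_mul_ne {c c' : Bool} (hc : c ≠ c') (f g : List Bool → Λ) :
    J c f * J c' g = J c (f * J c' g) + J c' (J c f * g) := by
  funext β
  simp only [Pi.mul_apply, Pi.add_apply]
  induction β with
  | nil => simp [J]
  | cons s β ih =>
    by_cases hs : s = c
    · subst hs
      simp only [J, if_true, if_neg hc, Pi.mul_apply, add_zero]
      linear_combination ih
    · by_cases hs' : s = c'
      · subst hs'
        simp only [J, if_true, if_neg hs, Pi.mul_apply, add_zero]
        linear_combination ih
      · simp only [J, if_neg hs, if_neg hs', add_zero]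
        exact ih

lemma T_J_same (c : Bool) (f : List Bool → Λ) : T c (J c f) = J c f := by
  funext β
  induction β with
  | nil => simp [J, T]
  | cons s β ih =>
    by_cases hs : s = c
    · subst hs
      simp only [J, T, if_true]
      rw [ih]
      ring
    · simp only [J, T, if_neg hs, add_zero]
      exact ih

lemma T_J_ne {c c' : Bool} (hc : c ≠ c') (f : List Bool → Λ) : T c (J c' f) = 0 := by
  funext β
  induction β with
  | nil => simp [T]
  | cons s β ih =>
    by_cases hs : s = c
    · subst hs
      simp only [J, T, if_true, if_neg hc, add_zero, sub_self]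
      exact ih
    · simp only [T, if_neg hs, add_zero]
      exact ih

lemma T_one (c : Bool) : T c (1 : List Bool → Λ) = 0 := by
  funext β
  induction β with
  | nil => simp [T]
  | cons s β ih =>
    simp only [T, Pi.one_apply, sub_self, ite_self, add_zero]
    exact ih

lemma J_add (c : Bool) (f g : List Bool → Λ) : J c (f + g) = J c f + J c g := by
  funext β
  simp only [Pi.add_apply]
  induction β with
  | nil => simp [J]
  | cons s β ih =>
    simp only [J, Pi.add_apply, ih]
    split_ifs <;> ring

lemma J_smul (c : Bool) (a : Λ) (f : List Bool → Λ) : J c (a • f) = a • J c f := by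
  funext β
  simp only [Pi.smul_apply, smul_eq_mul]
  induction β with
  | nil => simp [J]
  | cons s β ih =>
    simp only [J, Pi.smul_apply, smul_eq_mul, ih]
    split_ifs <;> ring

lemma T_add (c : Bool) (f g : List Bool → Λ) : T c (f + g) = T c f + T c g := by
  funext β
  simp only [Pi.add_apply]
  induction β with
  | nil => simp [T]
  | cons s β ih =>
    simp only [T, Pi.add_apply, ih]
    split_ifs <;> ring

lemma T_smul (c : Bool) (a : Λ) (f : List Bool → Λ) : T c (a • f) = a • T c f := by
  funext β
  simp only [Pi.smul_apply, smul_eq_mul]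
  induction β with
  | nil => simp [T]
  | cons s β ih =>
    simp only [T, Pi.smul_apply, smul_eq_mul, ih]
    split_ifs <;> ring

private lemma J_zero (c : Bool) : J c (0 : List Bool → Λ) = 0 := by
  have h := J_smul c (0 : Λ) (0 : List Bool → Λ)
  rwa [zero_smul, zero_smul] at h

private lemma T_zero (c : Bool) : T c (0 : List Bool → Λ) = 0 := by
  have h := T_smul c (0 : Λ) (0 : List Bool → Λ)
  rwa [zero_smul, zero_smul] at h

/-- span of the statistics of the words with first letter `ξ` of length `n, n-2, ...` -/
def Vn (Λ : Type*) [CommRing Λ] [Algebra ℚ Λ] (n : ℕ) : Submodule Λ (List Bool → Λ) :=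
  Submodule.span Λ {f | ∃ w : List Bool, w.getLast? = some false ∧
    (∃ k, w.length + 2 * k = n) ∧ f = cn Λ w}

/-- span of the statistics of the admissible words of length `n, n-2, ...` -/
def An (Λ : Type*) [CommRing Λ] [Algebra ℚ Λ] (n : ℕ) : Submodule Λ (List Bool → Λ) :=
  Submodule.span Λ {f | ∃ w : List Bool, Adm w ∧ (∃ k, w.length + 2 * k = n) ∧ f = cn Λ w}

private lemma Vn_mono (n k : ℕ) {f : List Bool → Λ} (hf : f ∈ Vn Λ n) :
    f ∈ Vn Λ (n + 2 * k) := by
  refine Submodule.span_mono ?_ hf
  rintro f ⟨w, hw, ⟨l, hl⟩, rfl⟩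
  exact ⟨w, hw, ⟨l + k, by omega⟩, rfl⟩

private lemma An_mono (n k : ℕ) {f : List Bool → Λ} (hf : f ∈ An Λ n) :
    f ∈ An Λ (n + 2 * k) := by
  refine Submodule.span_mono ?_ hf
  rintro f ⟨w, hw, ⟨l, hl⟩, rfl⟩
  exact ⟨w, hw, ⟨l + k, by omega⟩, rfl⟩

private lemma getLast_cons {c : Bool} {w : List Bool} (hw : w.getLast? = some false) :
    (c :: w).getLast? = some false := by
  cases w with
  | nil => simp at hw
  | cons a w => rw [List.getLast?_cons_cons]; exact hw

private lemma J_Vn (c : Bool) {n : ℕ} {f : List Bool → Λ} (hf : f ∈ Vn Λ n) :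
    J c f ∈ Vn Λ (n + 1) := by
  unfold Vn at hf
  induction hf using Submodule.span_induction with
  | mem f h =>
    obtain ⟨w, hw, ⟨k, hk⟩, rfl⟩ := h
    refine Submodule.subset_span ⟨c :: w, getLast_cons hw, ⟨k, ?_⟩, rfl⟩
    rw [List.length_cons]
    omega
  | zero =>
    rw [J_zero]
    exact Submodule.zero_mem _
  | add f g _ _ h1 h2 =>
    rw [J_add]
    exact Submodule.add_mem _ h1 h2
  | smul r f _ h =>
    rw [J_smul]
    exact Submodule.smul_mem _ _ h

private lemma J_An {n : ℕ} {f : List Bool → Λ} (hf : f ∈ Vn Λ n) :
    J true f ∈ An Λ (n + 1) := by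
  unfold Vn at hf
  induction hf using Submodule.span_induction with
  | mem f h =>
    obtain ⟨w, hw, ⟨k, hk⟩, rfl⟩ := h
    refine Submodule.subset_span ⟨true :: w, ⟨rfl, getLast_cons hw⟩, ⟨k, ?_⟩, rfl⟩
    rw [List.length_cons]
    omega
  | zero =>
    rw [J_zero]
    exact Submodule.zero_mem _
  | add f g _ _ h1 h2 =>
    rw [J_add]
    exact Submodule.add_mem _ h1 h2
  | smul r f _ h =>
    rw [J_smul]
    exact Submodule.smul_mem _ _ h

private lemma T_cn (c a : Bool) (w : List Bool) :
    T c (cn Λ (a :: w)) = if a = c then cn Λ (a :: w) else 0 := by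
  by_cases h : a = c
  · subst h
    rw [if_pos rfl]
    exact T_J_same a _
  · rw [if_neg h]
    exact T_J_ne (Ne.symm h) _

private lemma T_Vn (c : Bool) {n : ℕ} {f : List Bool → Λ} (hf : f ∈ Vn Λ n) :
    T c f ∈ Vn Λ n := by
  unfold Vn at hf
  induction hf using Submodule.span_induction with
  | mem f h =>
    obtain ⟨w, hw, hk, rfl⟩ := h
    cases w with
    | nil => simp at hw
    | cons a w =>
      rw [T_cn]
      split_ifs
      · exact Submodule.subset_span ⟨a :: w, hw, hk, rfl⟩
      · exact Submodule.zero_mem _
  | zero =>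
    rw [T_zero]
    exact Submodule.zero_mem _
  | add f g _ _ h1 h2 =>
    rw [T_add]
    exact Submodule.add_mem _ h1 h2
  | smul r f _ h =>
    rw [T_smul]
    exact Submodule.smul_mem _ _ h

private lemma T_An {n : ℕ} {f : List Bool → Λ} (hf : f ∈ Vn Λ n) :
    T true f ∈ An Λ n := by
  unfold Vn at hf
  induction hf using Submodule.span_induction with
  | mem f h =>
    obtain ⟨w, hw, hk, rfl⟩ := h
    cases w with
    | nil => simp at hw
    | cons a w =>
      rw [T_cn]
      split_ifs with ha
      · subst ha
        exact Submodule.subset_span ⟨true :: w, ⟨rfl, hw⟩, hk, rfl⟩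
      · exact Submodule.zero_mem _
  | zero =>
    rw [T_zero]
    exact Submodule.zero_mem _
  | add f g _ _ h1 h2 =>
    rw [T_add]
    exact Submodule.add_mem _ h1 h2
  | smul r f _ h =>
    rw [T_smul]
    exact Submodule.smul_mem _ _ h

private lemma tail_cls {c : Bool} {w : List Bool} (h : (c :: w).getLast? = some false) :
    w = [] ∨ w.getLast? = some false := by
  cases w with
  | nil => exact Or.inl rfl
  | cons a w =>
    right
    rwa [List.getLast?_cons_cons] at h

private lemma cn_mul_cn (n : ℕ) : ∀ u v : List Bool, u.length + v.length = n →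
    (u = [] ∨ u.getLast? = some false) → (v = [] ∨ v.getLast? = some false) →
    (u ≠ [] ∨ v ≠ []) → cn Λ u * cn Λ v ∈ Vn Λ (u.length + v.length) := by
  induction n using Nat.strong_induction_on with
  | _ n ih =>
    intro u v hn hu hv huv
    cases u with
    | nil =>
      have hv' : v.getLast? = some false := by
        rcases hv with rfl | hv
        · simp at huv
        · exact hv
      have e : cn Λ [] * cn Λ v = cn Λ v := one_mul _
      rw [e]
      exact Submodule.subset_span ⟨v, hv', ⟨0, by simp⟩, rfl⟩
    | cons c u =>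
      cases v with
      | nil =>
        have hu' : (c :: u).getLast? = some false := by
          rcases hu with hu | hu
          · simp at hu
          · exact hu
        have e : cn Λ (c :: u) * cn Λ [] = cn Λ (c :: u) := mul_one _
        rw [e]
        exact Submodule.subset_span ⟨c :: u, hu', ⟨0, by simp⟩, rfl⟩
      | cons c' v =>
        have hu' : (c :: u).getLast? = some false := by
          rcases hu with hu | hu
          · simp at hu
          · exact hu
        have hv' : (c' :: v).getLast? = some false := by
          rcases hv with hv | hv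
          · simp at hv
          · exact hv
        have hut := tail_cls hu'
        have hvt := tail_cls hv'
        simp only [List.length_cons] at hn
        have h1 : cn Λ u * cn Λ (c' :: v) ∈ Vn Λ (u.length + (c' :: v).length) :=
          ih (u.length + (c' :: v).length) (by simp only [List.length_cons]; omega) u (c' :: v) rfl
            hut (Or.inr hv') (Or.inr (by simp))
        have h2 : cn Λ (c :: u) * cn Λ v ∈ Vn Λ ((c :: u).length + v.length) :=
          ih ((c :: u).length + v.length) (by simp only [List.length_cons]; omega) (c :: u) v rfl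
            (Or.inr hu') hvt (Or.inl (by simp))
        have h3 : ∀ d : Bool, T d (cn Λ u * cn Λ v) ∈ Vn Λ (u.length + v.length) := by
          intro d
          by_cases h0 : u ≠ [] ∨ v ≠ []
          · exact T_Vn d (ih (u.length + v.length) (by omega) u v rfl hut hvt h0)
          · push Not at h0
            rw [h0.1, h0.2]
            have e : cn Λ [] * cn Λ [] = 1 := one_mul _
            rw [e, T_one]
            exact Submodule.zero_mem _
        have e1 : u.length + (c' :: v).length + 1 = (c :: u).length + (c' :: v).length := by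
          simp only [List.length_cons]
          omega
        have e2 : (c :: u).length + v.length + 1 = (c :: u).length + (c' :: v).length := by
          simp only [List.length_cons]
          omega
        have e3 : u.length + v.length + 2 * 1 = (c :: u).length + (c' :: v).length := by
          simp only [List.length_cons]
          omega
        have g1 := J_Vn c h1
        have g2 := J_Vn c' h2
        rw [e1] at g1
        rw [e2] at g2
        have g3 : ∀ d : Bool, T d (cn Λ u * cn Λ v) ∈ Vn Λ ((c :: u).length + (c' :: v).length) := by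
          intro d
          rw [← e3]
          exact Vn_mono _ 1 (h3 d)
        by_cases hc : c = c'
        · subst hc
          have e : cn Λ (c :: u) * cn Λ (c :: v) = J c (cn Λ u * cn Λ (c :: v))
              + J c (cn Λ (c :: u) * cn Λ v) - (hR Λ) ^ 2 • T c (cn Λ u * cn Λ v) :=
            J_mul_same c (cn Λ u) (cn Λ v)
          rw [e]
          exact Submodule.sub_mem _ (Submodule.add_mem _ g1 g2) (Submodule.smul_mem _ _ (g3 c))
        · have e : cn Λ (c :: u) * cn Λ (c' :: v) = J c (cn Λ u * cn Λ (c' :: v))
              + J c' (cn Λ (c :: u) * cn Λ v) :=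
            J_mul_ne hc (cn Λ u) (cn Λ v)
          rw [e]
          exact Submodule.add_mem _ g1 g2

/-- Prove first by strong induction on `u.length + v.length`: for words `u, v` which are empty or
have last list element `false`, not both empty, `cn u * cn v ∈ Vn (u.length + v.length)`, using
`J_mul_same`, `J_mul_ne` and that `J c` maps `Vn n` to `Vn (n+1)`, `T c` maps `Vn n` to `Vn n`. -/
theorem Vn_mul {a b : ℕ} {f g : List Bool → Λ} (hf : f ∈ Vn Λ a) (hg : g ∈ Vn Λ b) :
    f * g ∈ Vn Λ (a + b) := by
  refine Submodule.span_induction₂ (p := fun x y _ _ => x * y ∈ Vn Λ (a + b)) ?_ ?_ ?_ ?_ ?_ ?_ ?_ hf hg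
  · rintro _ _ ⟨u, hu, ⟨k, hk⟩, rfl⟩ ⟨v, hv, ⟨l, hl⟩, rfl⟩
    have hu0 : u ≠ [] := by
      rintro rfl
      simp at hu
    have h := cn_mul_cn (Λ := Λ) _ u v rfl (Or.inr hu) (Or.inr hv) (Or.inl hu0)
    have h2 := Vn_mono (Λ := Λ) (u.length + v.length) (k + l) h
    have e : u.length + v.length + 2 * (k + l) = a + b := by omega
    rwa [e] at h2
  · intro y _
    rw [zero_mul]
    exact Submodule.zero_mem _
  · intro x _
    rw [mul_zero]
    exact Submodule.zero_mem _
  · intro x y z _ _ _ h1 h2
    rw [add_mul]
    exact Submodule.add_mem _ h1 h2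
  · intro x y z _ _ _ h1 h2
    rw [mul_add]
    exact Submodule.add_mem _ h1 h2
  · intro r x y _ _ h
    rw [smul_mul_assoc]
    exact Submodule.smul_mem _ _ h
  · intro r x y _ _ h
    rw [mul_smul_comm]
    exact Submodule.smul_mem _ _ h

private lemma adm_cons {u : List Bool} (hu : Adm u) :
    ∃ u', u = true :: u' ∧ u'.getLast? = some false := by
  obtain ⟨h1, h2⟩ := hu
  cases u with
  | nil => simp at h1
  | cons a u =>
    simp only [List.head?_cons, Option.some.injEq] at h1
    subst h1
    refine ⟨u, rfl, ?_⟩
    rcases tail_cls h2 with rfl | h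
    · simp at h2
    · exact h

/-- For generators `u = true :: u'`, `v = true :: v'` (with `u', v'` in the class of `Vn`):
`J_mul_same`, `J true` maps `Vn n` to `An (n+1)`, `T true` maps `Vn n` to `An n`. -/
theorem An_mul {a b : ℕ} {f g : List Bool → Λ} (hf : f ∈ An Λ a) (hg : g ∈ An Λ b) :
    f * g ∈ An Λ (a + b) := by
  refine Submodule.span_induction₂ (p := fun x y _ _ => x * y ∈ An Λ (a + b)) ?_ ?_ ?_ ?_ ?_ ?_ ?_ hf hg
  · rintro _ _ ⟨u, hu, ⟨k, hk⟩, rfl⟩ ⟨v, hv, ⟨l, hl⟩, rfl⟩
    obtain ⟨u', rfl, hu'⟩ := adm_cons hu
    obtain ⟨v', rfl, hv'⟩ := adm_cons hv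
    have m1 : cn Λ u' ∈ Vn Λ u'.length := Submodule.subset_span ⟨u', hu', ⟨0, by simp⟩, rfl⟩
    have m2 : cn Λ v' ∈ Vn Λ v'.length := Submodule.subset_span ⟨v', hv', ⟨0, by simp⟩, rfl⟩
    have e : cn Λ (true :: u') * cn Λ (true :: v') = J true (cn Λ u' * cn Λ (true :: v'))
        + J true (cn Λ (true :: u') * cn Λ v') - (hR Λ) ^ 2 • T true (cn Λ u' * cn Λ v') :=
      J_mul_same true (cn Λ u') (cn Λ v')
    have g1 : J true (cn Λ u' * cn Λ (true :: v')) ∈ An Λ (u'.length + (v'.length + 1) + 1) :=
      J_An (Vn_mul m1 (J_Vn true m2))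
    have g2 : J true (cn Λ (true :: u') * cn Λ v') ∈ An Λ (u'.length + 1 + v'.length + 1) :=
      J_An (Vn_mul (J_Vn true m1) m2)
    have g3 : T true (cn Λ u' * cn Λ v') ∈ An Λ (u'.length + v'.length) := T_An (Vn_mul m1 m2)
    have g1' := An_mono _ (k + l) g1
    have g2' := An_mono _ (k + l) g2
    have g3' := An_mono _ (1 + k + l) g3
    simp only [List.length_cons] at hk hl
    have e1 : u'.length + (v'.length + 1) + 1 + 2 * (k + l) = a + b := by omega
    have e2 : u'.length + 1 + v'.length + 1 + 2 * (k + l) = a + b := by omega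
    have e3 : u'.length + v'.length + 2 * (1 + k + l) = a + b := by omega
    rw [e1] at g1'
    rw [e2] at g2'
    rw [e3] at g3'
    rw [e]
    exact Submodule.sub_mem _ (Submodule.add_mem _ g1' g2') (Submodule.smul_mem _ _ g3')
  · intro y _
    rw [zero_mul]
    exact Submodule.zero_mem _
  · intro x _
    rw [mul_zero]
    exact Submodule.zero_mem _
  · intro x y z _ _ _ h1 h2
    rw [add_mul]
    exact Submodule.add_mem _ h1 h2
  · intro x y z _ _ _ h1 h2
    rw [mul_add]
    exact Submodule.add_mem _ h1 h2
  · intro r x y _ _ h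
    rw [smul_mul_assoc]
    exact Submodule.smul_mem _ _ h
  · intro r x y _ _ h
    rw [mul_smul_comm]
    exact Submodule.smul_mem _ _ h

/-- change of rings -/
lemma cn_map {Λ' : Type*} [CommRing Λ'] [Algebra ℚ Λ'] (φ : Λ →ₐ[ℚ] Λ') (w β : List Bool) :
    φ (cn Λ w β) = cn Λ' w β := by
  induction w generalizing β with
  | nil => simp [cn]
  | cons c w ihw =>
    simp only [cn]
    induction β with
    | nil => simp [J]
    | cons s β ih =>
      simp only [J]
      split_ifs with h
      · rw [map_add, map_mul, map_add, map_hR, ih, ihw, ihw]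
      · rw [add_zero, add_zero, ih]

/-- a word with last letter `η` does not see a column step at the end -/
lemma cn_cons_L {w : List Bool} (hw : w.head? = some true) (β : List Bool) :
    cn Λ w (false :: β) = cn Λ w β := by
  cases w with
  | nil => simp at hw
  | cons a w =>
    simp only [List.head?_cons, Option.some.injEq] at hw
    subst hw
    simp [cn, J]

/-- hence elements of `An` do not see a column step at the end -/
lemma An_cons_L {n : ℕ} {f : List Bool → Λ} (hf : f ∈ An Λ n) (β : List Bool) :
    f (false :: β) = f β := by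
  unfold An at hf
  induction hf using Submodule.span_induction with
  | mem f h =>
    obtain ⟨w, hw, _, rfl⟩ := h
    exact cn_cons_L hw.1 β
  | zero => rfl
  | add f g _ _ h1 h2 => rw [Pi.add_apply, Pi.add_apply, h1, h2]
  | smul r f _ h => rw [Pi.smul_apply, Pi.smul_apply, h]

end

end MPa7fa83.Ok
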